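import Mathlib

/-!
Sobolev spaces F_p on the planar Sierpinski carpet (MP_f5a4a4_an): definitions.
-/

set_option autoImplicit false

namespace Pool.Agent.SCI

open MeasureTheory

/-- The eight digits of the carpet: pairs of digits in {0,1,2}, the pair (1,1) excluded. -/
abbrev S : Type := {i : Fin 3 × Fin 3 // i ≠ (1, 1)}

/-- The contraction F_i(z) = (z + i) / 3 of the plane. -/
noncomputable def Fi (i : S) (z : ℝ × ℝ) : ℝ × ℝ :=
  ((z.1 + ((i.1.1 : ℕ) : ℝ)) / 3, (z.2 + ((i.1.2 : ℕ) : ℝ)) / 3)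

/-- F_w = F_{w_1} ∘ ... ∘ F_{w_n} for a word w given as a list. -/
noncomputable def Fl : List S → ℝ × ℝ → ℝ × ℝ
  | [], z => z
  | i :: w, z => Fi i (Fl w z)

/-- W_n = S^n: the words of length n. -/
abbrev W (n : ℕ) : Type := Fin n → S

/-- K is the Sierpinski carpet: the nonempty compact set with K = ⋃ F_i(K). -/
structure IsCarpet (K : Set (ℝ × ℝ)) : Prop where
  compact : IsCompact K
  nonempty : K.Nonempty
  selfsim : K = ⋃ i : S, Fi i '' K

/-- m is the self-similar probability measure on K giving each of the 8 maps weight 1/8. -/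
structure IsCarpetMeasure (K : Set (ℝ × ℝ)) (m : Measure (ℝ × ℝ)) : Prop where
  prob : IsProbabilityMeasure m
  onK : m Kᶜ = 0
  selfsim : m = (1 / 8 : ENNReal) • ∑ i : S, m.map (Fi i)

/-- The cell K_w = F_w(K). -/
def cell (K : Set (ℝ × ℝ)) (w : List S) : Set (ℝ × ℝ) := Fl w '' K

/-- Adjacency in the graph G_n: v ≠ w and K_v ∩ K_w ≠ ∅. -/
def adj (K : Set (ℝ × ℝ)) {n : ℕ} (v w : W n) : Prop :=
  v ≠ w ∧ (cell K (List.ofFn v) ∩ cell K (List.ofFn w)).Nonempty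

open Classical in
/-- The discrete p-energy of u : W_n → ℝ: the sum of |u(v) - u(w)|^p over the edges {v,w} of G_n
(every edge occurs twice in the double sum, hence the factor 1/2). -/
noncomputable def energy (K : Set (ℝ × ℝ)) (p : ℝ) (n : ℕ) (u : W n → ℝ) : ℝ :=
  (1 / 2) * ∑ v : W n, ∑ w : W n, if adj K v w then |u v - u w| ^ p else 0

/-- M_n f(w) = 8^n ∫_{K_w} f dm. -/
noncomputable def Mn (K : Set (ℝ × ℝ)) (m : Measure (ℝ × ℝ)) (n : ℕ) (f : ℝ × ℝ → ℝ) (w : W n) : ℝ :=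
  8 ^ n * ∫ z in cell K (List.ofFn w), f z ∂m

/-- f belongs to the space F_{p,ρ} = {f ∈ L^p(K,m) : sup_n ρ^n E_p^{G_n}(M_n f) < ∞}. -/
def Mem (K : Set (ℝ × ℝ)) (m : Measure (ℝ × ℝ)) (p ρ : ℝ) (f : ℝ × ℝ → ℝ) : Prop :=
  MemLp f (ENNReal.ofReal p) m ∧ ∃ C : ℝ, ∀ n : ℕ, ρ ^ n * energy K p n (Mn K m n f) ≤ C

/-- ρ is the constant ρ(p): F_{p,ρ} ∩ C(K) is dense in C(K), and for every larger constant ρ'
the space F_{p,ρ'} consists of constants only. -/
structure IsRho (K : Set (ℝ × ℝ)) (m : Measure (ℝ × ℝ)) (p ρ : ℝ) : Prop where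
  pos : 0 < ρ
  dense : ∀ g : ℝ × ℝ → ℝ, ContinuousOn g K → ∀ ε : ℝ, 0 < ε →
    ∃ h : ℝ × ℝ → ℝ, ContinuousOn h K ∧ Mem K m p ρ h ∧ ∀ z ∈ K, |g z - h z| ≤ ε
  max : ∀ ρ' : ℝ, ρ < ρ' → ∀ f : ℝ × ℝ → ℝ, Mem K m p ρ' f → ∃ c : ℝ, f =ᵐ[m] fun _ => c

/-! Technical definitions used in the proofs. -/

/-- the sum of g over the words of length n -/
noncomputable def wsum {α : Type} [Fintype α] : ℕ → (List α → ℝ) → ℝ
  | 0, g => g []
  | n + 1, g => ∑ i : α, wsum n (fun l => g (i :: l))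

/-- j is the right neighbour of i in the 3 × 3 grid -/
def hadj (i j : S) : Prop := (i.1.1 : ℕ) + 1 = (j.1.1 : ℕ) ∧ i.1.2 = j.1.2

/-- j is the upper neighbour of i in the 3 × 3 grid -/
def vadj (i j : S) : Prop := (i.1.2 : ℕ) + 1 = (j.1.2 : ℕ) ∧ i.1.1 = j.1.1

instance : DecidableRel hadj := fun i j => by unfold hadj; infer_instance
instance : DecidableRel vadj := fun i j => by unfold vadj; infer_instance

/-- the digits along the four sides: 0 = left, 1 = right, 2 = bottom, 3 = top -/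
def sd : Fin 4 → Fin 3 → S
  | 0, a => ⟨(0, a), fun h => absurd (congrArg Prod.fst h) (show (0 : Fin 3) ≠ 1 by decide)⟩
  | 1, a => ⟨(2, a), fun h => absurd (congrArg Prod.fst h) (show (2 : Fin 3) ≠ 1 by decide)⟩
  | 2, a => ⟨(a, 0), fun h => absurd (congrArg Prod.snd h) (show (0 : Fin 3) ≠ 1 by decide)⟩
  | 3, a => ⟨(a, 2), fun h => absurd (congrArg Prod.snd h) (show (2 : Fin 3) ≠ 1 by decide)⟩

/-- a tree martingale U : words → ℝ with decaying ring energies and side energies (exponent 4/3) -/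
structure Good (U : List S → ℝ) (r : ℝ) : Prop where
  mart : ∀ l : List S, U l = (∑ i : S, U (l ++ [i])) / 8
  ring : ∃ C : ℝ, ∀ n : ℕ, wsum n (fun l => ∑ i : S, ∑ j : S,
      if hadj i j ∨ vadj i j then |U (l ++ [i]) - U (l ++ [j])| ^ (4 / 3 : ℝ) else 0) ≤ C * r ^ n
  sideH : ∀ (l : List S) (i j : S), hadj i j → ∃ C : ℝ, ∀ n : ℕ,
      wsum n (fun y : List (Fin 3) => |U (l ++ [i] ++ y.map (sd 1)) - U (l ++ [j] ++ y.map (sd 0))| ^ (4 / 3 : ℝ)) ≤ C * r ^ n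
  sideV : ∀ (l : List S) (i j : S), vadj i j → ∃ C : ℝ, ∀ n : ℕ,
      wsum n (fun y : List (Fin 3) => |U (l ++ [i] ++ y.map (sd 3)) - U (l ++ [j] ++ y.map (sd 2))| ^ (4 / 3 : ℝ)) ≤ C * r ^ n

/-- average of U over the cells of depth n along the side σ of the cell l -/
noncomputable def tr (U : List S → ℝ) (σ : Fin 4) (n : ℕ) (l : List S) : ℝ :=
  wsum n (fun y : List (Fin 3) => U (l ++ y.map (sd σ))) / 3 ^ n

/-- side traces of U with the properties used in the core argument -/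
structure Traces (U : List S → ℝ) (r : ℝ) (B : Fin 4 → List S → ℝ) : Prop where
  near : ∃ C : ℝ, ∀ (σ : Fin 4) (k : ℕ), wsum k (fun l => |B σ l - U l| ^ (4 / 3 : ℝ)) ≤ C * r ^ k
  refine : ∀ (σ : Fin 4) (l : List S), B σ l = (∑ a : Fin 3, B σ (l ++ [sd σ a])) / 3
  matchH : ∀ (l : List S) (i j : S), hadj i j → B 1 (l ++ [i]) = B 0 (l ++ [j])
  matchV : ∀ (l : List S) (i j : S), vadj i j → B 3 (l ++ [i]) = B 2 (l ++ [j])

/-- one step of the flow cascade. Data (H,V,Q): the fluxes through the left, right, bottom, top side are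
H+Q, H-Q, V-Q, V+Q. -/
noncomputable def step (i : S) (d : ℝ × ℝ × ℝ) : ℝ × ℝ × ℝ :=
  let H := d.1
  let V := d.2.1
  let Q := d.2.2
  let sx : ℝ := 1 - ((i.1.1 : ℕ) : ℝ)
  let sy : ℝ := 1 - ((i.1.2 : ℕ) : ℝ)
  if i.1.1 = 1 then (H / 2, (V - sy * Q) / 6, (Q - sy * V) / 6)
  else if i.1.2 = 1 then ((H + sx * Q) / 6, V / 2, (Q + sx * H) / 6)
  else (5 / 12 * H - sx * sy / 12 * V + sx / 4 * Q,
        5 / 12 * V - sx * sy / 12 * H - sy / 4 * Q,
        (Q - sx * H + sy * V) / 12)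

/-- the cascade along a word -/
noncomputable def stepL : List S → ℝ × ℝ × ℝ → ℝ × ℝ × ℝ
  | [], d => d
  | i :: x, d => stepL x (step i d)

/-- the pairing of flow data with the traces of a cell -/
noncomputable def pair (B : Fin 4 → List S → ℝ) (d : ℝ × ℝ × ℝ) (l : List S) : ℝ :=
  (d.1 - d.2.2) * B 1 l - (d.1 + d.2.2) * B 0 l + (d.2.1 + d.2.2) * B 3 l - (d.2.1 - d.2.2) * B 2 l

/-- a monotone function on the line whose increments over the triadic intervals are the products of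
the weights a, b, a of the digits 0, 1, 2 -/
def IsCdf (a b : ℝ) (F : ℝ → ℝ) : Prop :=
  Monotone F ∧ ∀ w : List (Fin 3),
    F (w.foldr (fun (i : Fin 3) x => (x + ((i : ℕ) : ℝ)) / 3) 1) - F (w.foldr (fun (i : Fin 3) x => (x + ((i : ℕ) : ℝ)) / 3) 0)
      = (w.map (fun i => if i = 1 then b else a)).prod

/-- the lower bound (2·3^(-1/(p-1)) + 2^(-1/(p-1)))^(p-1) for ρ(p) -/
noncomputable def slab (p : ℝ) : ℝ :=
  (2 * 3 ^ (-(1 / (p - 1))) + 2 ^ (-(1 / (p - 1)))) ^ (p - 1)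

end Pool.Agent.SCI
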