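import Mathlib
import Pool.Agent.SCI.Defs

/-!
# The numerical inequalities
-/

namespace Pool.Agent.SCI

private theorem num_pos (x : ℝ) : (0 : ℝ) < 2 * 3 ^ (-x) + 2 ^ (-x) := by positivity

theorem slab_pos (p : ℝ) : 0 < slab p := by
  unfold slab
  positivity

theorem slab_ge_half (p : ℝ) (hp : 1 < p) : 1 / 2 ≤ slab p := by
  unfold slab
  have h0 : (0 : ℝ) < p - 1 := by linarith
  have h1 : ((2 : ℝ) ^ (-(1 / (p - 1)))) ^ (p - 1) = 1 / 2 := by
    rw [← Real.rpow_mul (by norm_num)]
    have h2 : -(1 / (p - 1)) * (p - 1) = -1 := by field_simp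
    rw [h2, Real.rpow_neg_one]
    norm_num
  rw [← h1]
  apply Real.rpow_le_rpow (by positivity) _ h0.le
  have h3 : (0 : ℝ) ≤ 2 * 3 ^ (-(1 / (p - 1))) := by positivity
  linarith

private theorem num_log_slab_half (p : ℝ) (hp : 1 < p) : -Real.log 2 ≤ Real.log (slab p) := by
  have h := Real.log_le_log (by norm_num) (slab_ge_half p hp)
  rw [one_div, Real.log_inv] at h
  exact h

private theorem num_log_slab_pow (q : ℝ) (hq : 1 < q) :
    q * Real.log 3 - Real.log 2 / 3 - 5 / 3 * Real.log 3 ≤ Real.log (slab q) := by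
  unfold slab
  have h0 : (0 : ℝ) < q - 1 := by linarith
  set x := 1 / (q - 1) with hx
  have hx1 : x * (q - 1) = 1 := by rw [hx]; field_simp
  rw [Real.log_rpow (num_pos x)]
  have h1 := Real.geom_mean_le_arith_mean2_weighted (w₁ := 2 / 3) (w₂ := 1 / 3)
    (p₁ := (3 : ℝ) ^ (-x)) (p₂ := (2 : ℝ) ^ (-x)) (by norm_num) (by norm_num) (by positivity)
    (by positivity) (by norm_num)
  have h2 : 3 * (((3 : ℝ) ^ (-x)) ^ (2 / 3 : ℝ) * ((2 : ℝ) ^ (-x)) ^ (1 / 3 : ℝ)) ≤
      2 * 3 ^ (-x) + 2 ^ (-x) := by linarith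
  have h3 := Real.log_le_log (by positivity) h2
  have e1 : (0 : ℝ) < 3 ^ (-x) := by positivity
  have e2 : (0 : ℝ) < 2 ^ (-x) := by positivity
  rw [Real.log_mul (by norm_num) (by positivity), Real.log_mul (by positivity) (by positivity),
    Real.log_rpow e1, Real.log_rpow e2, Real.log_rpow (by norm_num : (0 : ℝ) < 3),
    Real.log_rpow (by norm_num : (0 : ℝ) < 2)] at h3
  have h4 := mul_le_mul_of_nonneg_left h3 h0.le
  have h5 : (q - 1) * (Real.log 3 + (2 / 3 * (-x * Real.log 3) + 1 / 3 * (-x * Real.log 2))) =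
      q * Real.log 3 - Real.log 2 / 3 - 5 / 3 * Real.log 3 := by
    linear_combination (-(2 / 3 * Real.log 3) - 1 / 3 * Real.log 2) * hx1
  linarith

theorem slab_ge_pow (q : ℝ) (hq : 1 < q) : (2 / 3 : ℝ) ^ (2 / 3 : ℝ) / 6 * 3 ^ q ≤ slab q := by
  have h := num_log_slab_pow q hq
  rw [← Real.log_le_log_iff (by positivity) (slab_pos q)]
  refine le_trans (le_of_eq ?_) h
  rw [Real.log_mul (by positivity) (by positivity), Real.log_div (by positivity) (by norm_num),
    Real.log_rpow (by norm_num), Real.log_rpow (by norm_num), Real.log_div (by norm_num)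
    (by norm_num)]
  have h6 : Real.log 6 = Real.log 2 + Real.log 3 := by
    rw [← Real.log_mul (by norm_num) (by norm_num)]
    norm_num
  rw [h6]
  ring

private theorem num_region {p q : ℝ} (hp : 1 < p) (hp1 : p < 4 / 3) (hq : 4 / 3 < q)
    (h : 0 < (4 / 3 - p) * (q * Real.log 3 - Real.log 2 / 3 - 5 / 3 * Real.log 3) -
      (q - 4 / 3) * Real.log 2 - (q - p) / 3 * Real.log (531 / 2000)) :
    (531 / 2000 : ℝ) ^ ((q - p) / 3) < slab p ^ (q - 4 / 3) * slab q ^ (4 / 3 - p) := by
  have hsp := slab_pos p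
  have hsq := slab_pos q
  rw [← Real.log_lt_log_iff (by positivity) (by positivity), Real.log_mul (by positivity)
    (by positivity), Real.log_rpow (by norm_num), Real.log_rpow hsp, Real.log_rpow hsq]
  have h1 := mul_le_mul_of_nonneg_left (num_log_slab_half p hp) (by linarith : 0 ≤ q - 4 / 3)
  have h2 := mul_le_mul_of_nonneg_left (num_log_slab_pow q (by linarith))
    (by linarith : 0 ≤ 4 / 3 - p)
  linarith

private theorem num_L : Real.log (531 / 2000) < 0 := Real.log_neg (by norm_num) (by norm_num)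

private theorem num_L2 : 0 < Real.log 2 := Real.log_pos (by norm_num)

private theorem num_L3 : Real.log 2 < Real.log 3 := Real.log_lt_log (by norm_num) (by norm_num)

theorem region1 (p q : ℝ) (hp : 1 < p) (hp1 : p ≤ 26 / 25) (hq : 2 ≤ q) :
    (531 / 2000 : ℝ) ^ ((q - p) / 3) < slab p ^ (q - 4 / 3) * slab q ^ (4 / 3 - p) := by
  apply num_region hp (by linarith) (by linarith)
  have hA : 172 * Real.log 2 + 72 * Real.log (531 / 2000) < 22 * Real.log 3 := by
    have h : (2 : ℝ) ^ 172 * (531 / 2000) ^ 72 < 3 ^ 22 := by norm_num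
    have h' := Real.log_lt_log (by positivity) h
    rw [Real.log_mul (by positivity) (by positivity), Real.log_pow, Real.log_pow,
      Real.log_pow] at h'
    exact_mod_cast h'
  have hB : 75 * Real.log 2 + 25 * Real.log (531 / 2000) < 22 * Real.log 3 := by
    have h : (2 : ℝ) ^ 75 * (531 / 2000) ^ 25 < 3 ^ 22 := by norm_num
    have h' := Real.log_lt_log (by positivity) h
    rw [Real.log_mul (by positivity) (by positivity), Real.log_pow, Real.log_pow,
      Real.log_pow] at h'
    exact_mod_cast h'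
  have hL := num_L
  have hL2 := num_L2
  have hL3 := num_L3
  set a := Real.log 2
  set b := Real.log 3
  set c := Real.log (531 / 2000)
  have h1 : 0 ≤ (q - 2) * (22 / 75 * b - a - c / 3) :=
    mul_nonneg (by linarith) (by linarith)
  have h2 : 0 ≤ (q - 2) * b := mul_nonneg (by linarith) (by linarith)
  have h3 : 0 ≤ (26 / 25 - p) * ((q - 2) * b + (b - a - c) / 3) :=
    mul_nonneg (by linarith) (by linarith)
  have h4 : (4 / 3 - p) * (q * b - a / 3 - 5 / 3 * b) - (q - 4 / 3) * a - (q - p) / 3 * c =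
      (22 * b - 172 * a - 72 * c) / 225 + (q - 2) * (22 / 75 * b - a - c / 3) +
      (26 / 25 - p) * ((q - 2) * b + (b - a - c) / 3) := by ring
  rw [h4]
  linarith

theorem region2 (p q : ℝ) (hp : 1 < p) (hp1 : p ≤ 11 / 10) (hq : 9 ≤ q) :
    (531 / 2000 : ℝ) ^ ((q - p) / 3) < slab p ^ (q - 4 / 3) * slab q ^ (4 / 3 - p) := by
  apply num_region hp (by linarith) (by linarith)
  have hA : 697 * Real.log 2 + 237 * Real.log (531 / 2000) < 154 * Real.log 3 := by
    have h : ((2 : ℝ) ^ 41) ^ 17 * (531 / 2000) ^ 237 < 3 ^ 154 := by norm_num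
    have h' := Real.log_lt_log (by positivity) h
    rw [Real.log_mul (by positivity) (by positivity), Real.log_pow, Real.log_pow,
      Real.log_pow, Real.log_pow] at h'
    push_cast at h'
    linarith
  have hB : 30 * Real.log 2 + 10 * Real.log (531 / 2000) < 7 * Real.log 3 := by
    have h : (2 : ℝ) ^ 30 * (531 / 2000) ^ 10 < 3 ^ 7 := by norm_num
    have h' := Real.log_lt_log (by positivity) h
    rw [Real.log_mul (by positivity) (by positivity), Real.log_pow, Real.log_pow,
      Real.log_pow] at h'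
    exact_mod_cast h'
  have hL := num_L
  have hL2 := num_L2
  have hL3 := num_L3
  set a := Real.log 2
  set b := Real.log 3
  set c := Real.log (531 / 2000)
  have h1 : 0 ≤ (q - 9) * (7 / 30 * b - a - c / 3) :=
    mul_nonneg (by linarith) (by linarith)
  have h2 : 0 ≤ (q - 9) * b := mul_nonneg (by linarith) (by linarith)
  have h3 : 0 ≤ (11 / 10 - p) * ((q - 9) * b + (22 * b - a - c) / 3) :=
    mul_nonneg (by linarith) (by linarith)
  have h4 : (4 / 3 - p) * (q * b - a / 3 - 5 / 3 * b) - (q - 4 / 3) * a - (q - p) / 3 * c =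
      (154 * b - 697 * a - 237 * c) / 90 + (q - 9) * (7 / 30 * b - a - c / 3) +
      (11 / 10 - p) * ((q - 9) * b + (22 * b - a - c) / 3) := by ring
  rw [h4]
  linarith

end Pool.Agent.SCI
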