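import Mathlib
import Pool.Agent.SCI.Defs

/-! Project SCI (MP_f5a4a4_an), module CDF: a monotone function with prescribed triadic increments. -/

set_option autoImplicit false

namespace Pool.Agent.SCI

open MeasureTheory Filter Topology

noncomputable def cdf_T (a b : ℝ) (g : ℝ → ℝ) : ℝ → ℝ :=
  fun x => a * g (3 * x) + b * g (3 * x - 1) + a * g (3 * x - 2)

noncomputable def cdf_it (a b : ℝ) : ℕ → ℝ → ℝ
  | 0 => fun x => if 1 ≤ x then 1 else 0
  | n + 1 => cdf_T a b (cdf_it a b n)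

structure CdfP (g : ℝ → ℝ) : Prop where
  mono : Monotone g
  zero : ∀ x, x ≤ 0 → g x = 0
  one : ∀ x, 1 ≤ x → g x = 1

theorem cdf_T_P (a b : ℝ) (ha : 0 < a) (hb : 0 < b) (hab : 2 * a + b = 1) (g : ℝ → ℝ)
    (hg : CdfP g) : CdfP (cdf_T a b g) := by
  refine ⟨?_, ?_, ?_⟩
  · intro x y hxy
    have h1 : g (3 * x) ≤ g (3 * y) := hg.mono (by linarith)
    have h2 : g (3 * x - 1) ≤ g (3 * y - 1) := hg.mono (by linarith)
    have h3 : g (3 * x - 2) ≤ g (3 * y - 2) := hg.mono (by linarith)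
    show a * g (3 * x) + b * g (3 * x - 1) + a * g (3 * x - 2) ≤
      a * g (3 * y) + b * g (3 * y - 1) + a * g (3 * y - 2)
    have := mul_le_mul_of_nonneg_left h1 ha.le
    have := mul_le_mul_of_nonneg_left h2 hb.le
    have := mul_le_mul_of_nonneg_left h3 ha.le
    linarith
  · intro x hx
    show a * g (3 * x) + b * g (3 * x - 1) + a * g (3 * x - 2) = 0
    rw [hg.zero _ (by linarith), hg.zero _ (by linarith), hg.zero _ (by linarith)]
    ring
  · intro x hx
    show a * g (3 * x) + b * g (3 * x - 1) + a * g (3 * x - 2) = 1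
    rw [hg.one _ (by linarith), hg.one _ (by linarith), hg.one _ (by linarith)]
    linarith

theorem cdf_it_P (a b : ℝ) (ha : 0 < a) (hb : 0 < b) (hab : 2 * a + b = 1) (n : ℕ) :
    CdfP (cdf_it a b n) := by
  induction n with
  | zero =>
    refine ⟨?_, ?_, ?_⟩
    · intro x y hxy
      show (if 1 ≤ x then (1 : ℝ) else 0) ≤ if 1 ≤ y then 1 else 0
      split_ifs with h1 h2
      · exact le_rfl
      · exact absurd (h1.trans hxy) h2
      · exact zero_le_one
      · exact le_rfl
    · intro x hx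
      show (if 1 ≤ x then (1 : ℝ) else 0) = 0
      rw [if_neg (by linarith)]
    · intro x hx
      show (if 1 ≤ x then (1 : ℝ) else 0) = 1
      rw [if_pos hx]
  | succ n ih => exact cdf_T_P a b ha hb hab _ ih

theorem cdf_nonneg (g : ℝ → ℝ) (hg : CdfP g) (x : ℝ) : 0 ≤ g x := by
  have := hg.mono (min_le_left x 0)
  rwa [hg.zero _ (min_le_right x 0)] at this

theorem cdf_le_one (g : ℝ → ℝ) (hg : CdfP g) (x : ℝ) : g x ≤ 1 := by
  have := hg.mono (le_max_left x 1)
  rwa [hg.one _ (le_max_right x 1)] at this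

theorem cdf_it_mono (a b : ℝ) (ha : 0 < a) (hb : 0 < b) (hab : 2 * a + b = 1) (x : ℝ) :
    Monotone (fun n => cdf_it a b n x) := by
  refine monotone_nat_of_le_succ fun n => ?_
  induction n generalizing x with
  | zero =>
    show (if 1 ≤ x then (1 : ℝ) else 0) ≤ cdf_it a b 1 x
    split_ifs with h
    · exact ((cdf_it_P a b ha hb hab 1).one x h).ge
    · exact cdf_nonneg _ (cdf_it_P a b ha hb hab 1) x
  | succ n ih =>
    show a * cdf_it a b n (3 * x) + b * cdf_it a b n (3 * x - 1) + a * cdf_it a b n (3 * x - 2) ≤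
      a * cdf_it a b (n + 1) (3 * x) + b * cdf_it a b (n + 1) (3 * x - 1) +
        a * cdf_it a b (n + 1) (3 * x - 2)
    have := mul_le_mul_of_nonneg_left (ih (3 * x)) ha.le
    have := mul_le_mul_of_nonneg_left (ih (3 * x - 1)) hb.le
    have := mul_le_mul_of_nonneg_left (ih (3 * x - 2)) ha.le
    linarith

theorem cdf_pt_mem (w : List (Fin 3)) (t : ℝ) (ht : 0 ≤ t ∧ t ≤ 1) :
    0 ≤ w.foldr (fun (i : Fin 3) x => (x + ((i : ℕ) : ℝ)) / 3) t ∧
      w.foldr (fun (i : Fin 3) x => (x + ((i : ℕ) : ℝ)) / 3) t ≤ 1 := by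
  induction w with
  | nil => exact ht
  | cons i w ih =>
    rw [List.foldr_cons]
    have hi : ((i : ℕ) : ℝ) ≤ 2 := by
      have : (i : ℕ) ≤ 2 := by omega
      exact_mod_cast this
    have hi0 : (0 : ℝ) ≤ ((i : ℕ) : ℝ) := Nat.cast_nonneg _
    constructor <;> linarith [ih.1, ih.2]

theorem exists_cdf (a b : ℝ) (ha : 0 < a) (hb : 0 < b) (hab : 2 * a + b = 1) :
    ∃ F : ℝ → ℝ, IsCdf a b F := by
  have hbdd : ∀ x, BddAbove (Set.range fun n => cdf_it a b n x) := by
    intro x
    refine ⟨1, ?_⟩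
    rintro _ ⟨n, rfl⟩
    exact cdf_le_one _ (cdf_it_P a b ha hb hab n) x
  set F : ℝ → ℝ := fun x => ⨆ n, cdf_it a b n x with hF
  have hlim : ∀ x, Tendsto (fun n => cdf_it a b n x) atTop (𝓝 (F x)) := fun x =>
    tendsto_atTop_ciSup (cdf_it_mono a b ha hb hab x) (hbdd x)
  have hP : CdfP F := by
    refine ⟨?_, ?_, ?_⟩
    · intro x y hxy
      exact le_of_tendsto_of_tendsto' (hlim x) (hlim y)
        fun n => (cdf_it_P a b ha hb hab n).mono hxy
    · intro x hx
      refine tendsto_nhds_unique (hlim x) ?_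
      refine tendsto_const_nhds.congr fun n => ?_
      exact ((cdf_it_P a b ha hb hab n).zero x hx).symm
    · intro x hx
      refine tendsto_nhds_unique (hlim x) ?_
      refine tendsto_const_nhds.congr fun n => ?_
      exact ((cdf_it_P a b ha hb hab n).one x hx).symm
  have hfix : ∀ x, F x = a * F (3 * x) + b * F (3 * x - 1) + a * F (3 * x - 2) := by
    intro x
    have h1 := (hlim x).comp (tendsto_add_atTop_nat 1)
    have h2 : Tendsto (fun n => a * cdf_it a b n (3 * x) + b * cdf_it a b n (3 * x - 1) +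
        a * cdf_it a b n (3 * x - 2)) atTop
        (𝓝 (a * F (3 * x) + b * F (3 * x - 1) + a * F (3 * x - 2))) :=
      (((hlim (3 * x)).const_mul a).add ((hlim (3 * x - 1)).const_mul b)).add
        ((hlim (3 * x - 2)).const_mul a)
    exact tendsto_nhds_unique h1 h2
  refine ⟨F, hP.mono, ?_⟩
  intro w
  induction w with
  | nil =>
    show F 1 - F 0 = 1
    rw [hP.one 1 le_rfl, hP.zero 0 le_rfl]; ring
  | cons i w ih =>
    rw [List.foldr_cons, List.foldr_cons, List.map_cons, List.prod_cons, ← ih]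
    obtain ⟨u0, u1⟩ := cdf_pt_mem w 1 ⟨zero_le_one, le_rfl⟩
    obtain ⟨v0, v1⟩ := cdf_pt_mem w 0 ⟨le_rfl, zero_le_one⟩
    set u := w.foldr (fun (i : Fin 3) x => (x + ((i : ℕ) : ℝ)) / 3) 1
    set v := w.foldr (fun (i : Fin 3) x => (x + ((i : ℕ) : ℝ)) / 3) 0
    rw [hfix ((u + ((i : ℕ) : ℝ)) / 3), hfix ((v + ((i : ℕ) : ℝ)) / 3)]
    have e : ∀ y : ℝ, 3 * ((y + ((i : ℕ) : ℝ)) / 3) = y + ((i : ℕ) : ℝ) := fun y => by ring
    rw [e u, e v]
    fin_cases i
    · simp only [Nat.cast_zero, add_zero, Fin.zero_eta, Fin.val_zero]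
      rw [hP.zero (u - 1) (by linarith), hP.zero (u - 2) (by linarith),
        hP.zero (v - 1) (by linarith), hP.zero (v - 2) (by linarith)]
      rw [if_neg (by decide)]
      ring
    · simp only [Fin.mk_one, Fin.val_one, Nat.cast_one, if_true]
      rw [hP.one (u + 1) (by linarith), hP.one (v + 1) (by linarith),
        hP.zero (u + 1 - 2) (by linarith), hP.zero (v + 1 - 2) (by linarith)]
      rw [show u + 1 - 1 = u by ring, show v + 1 - 1 = v by ring]
      ring
    · simp only [Fin.reduceFinMk, Fin.val_two, Nat.cast_ofNat]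
      rw [hP.one (u + 2) (by linarith), hP.one (v + 2) (by linarith),
        hP.one (u + 2 - 1) (by linarith), hP.one (v + 2 - 1) (by linarith)]
      rw [show u + 2 - 2 = u by ring, show v + 2 - 2 = v by ring]
      rw [if_neg (by decide)]
      ring

end Pool.Agent.SCI
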