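import Mathlib
import Pool.Agent.SCI.Defs

/-! GEO1: the maps `Fl`, the triadic grid, cells of one level -/

set_option autoImplicit false

namespace Pool.Agent.SCI

open MeasureTheory Filter Topology

theorem card_S : Fintype.card S = 8 := by decide

theorem Fl_append (a b : List S) (z : ℝ × ℝ) : Fl (a ++ b) z = Fl a (Fl b z) := by
  induction a with
  | nil => rfl
  | cons i a ih =>
    rw [List.cons_append]
    simp only [Fl]
    rw [ih]

theorem Fl_formula (w : List S) (z : ℝ × ℝ) :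
    Fl w z = ((Fl w (0, 0)).1 + z.1 / 3 ^ w.length, (Fl w (0, 0)).2 + z.2 / 3 ^ w.length) := by
  induction w with
  | nil => simp [Fl]
  | cons i w ih =>
    simp only [Fl, List.length_cons]
    rw [ih]
    simp only [Fi]
    refine Prod.ext ?_ ?_
    · simp only
      rw [pow_succ]
      field_simp
      ring
    · simp only
      rw [pow_succ]
      field_simp
      ring

theorem Fl_grid (w : List S) : ∃ X Y : ℕ, X < 3 ^ w.length ∧ Y < 3 ^ w.length ∧
    Fl w (0, 0) = ((X : ℝ) / 3 ^ w.length, (Y : ℝ) / 3 ^ w.length) := by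
  induction w with
  | nil => exact ⟨0, 0, by simp, by simp, by simp [Fl]⟩
  | cons i w ih =>
    obtain ⟨X, Y, hX, hY, h⟩ := ih
    have h1 := i.1.1.isLt
    have h2 := i.1.2.isLt
    refine ⟨X + (i.1.1 : ℕ) * 3 ^ w.length, Y + (i.1.2 : ℕ) * 3 ^ w.length, ?_, ?_, ?_⟩
    · rw [List.length_cons, pow_succ]
      nlinarith
    · rw [List.length_cons, pow_succ]
      nlinarith
    · simp only [Fl, Fi, List.length_cons]
      rw [h]
      push_cast
      refine Prod.ext ?_ ?_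
      · simp only
        rw [pow_succ]
        field_simp
      · simp only
        rw [pow_succ]
        field_simp

private theorem geo1_digit {i j P a b : ℕ} (ha : a < P) (hb : b < P)
    (h : a + i * P = b + j * P) : i = j ∧ a = b := by
  have hP : 0 < P := by omega
  have h1 : (a + i * P) / P = i := by
    rw [Nat.add_mul_div_right _ _ hP, Nat.div_eq_of_lt ha, zero_add]
  have h2 : (b + j * P) / P = j := by
    rw [Nat.add_mul_div_right _ _ hP, Nat.div_eq_of_lt hb, zero_add]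
  have h3 : i = j := by rw [← h1, ← h2, h]
  subst h3
  exact ⟨rfl, by omega⟩

private theorem geo1_real {i j n X X' : ℕ}
    (h : ((X : ℝ) / 3 ^ n + (i : ℝ)) / 3 = ((X' : ℝ) / 3 ^ n + (j : ℝ)) / 3) :
    X + i * 3 ^ n = X' + j * 3 ^ n := by
  have h3 : (0 : ℝ) < 3 ^ n := by positivity
  have h4 : (X : ℝ) / 3 ^ n + (i : ℝ) = (X' : ℝ) / 3 ^ n + (j : ℝ) := by linarith
  have h5 : (X : ℝ) + i * 3 ^ n = X' + j * 3 ^ n := by
    field_simp at h4
    linarith
  exact_mod_cast h5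

theorem Fl_inj (v w : List S) (h : v.length = w.length) (h0 : Fl v (0, 0) = Fl w (0, 0)) :
    v = w := by
  induction v generalizing w with
  | nil =>
    cases w with
    | nil => rfl
    | cons j w => simp at h
  | cons i v ih =>
    cases w with
    | nil => simp at h
    | cons j w =>
      have hl : v.length = w.length := by simpa using h
      obtain ⟨X, Y, hX, hY, e1⟩ := Fl_grid v
      obtain ⟨X', Y', hX', hY', e2⟩ := Fl_grid w
      rw [← hl] at hX' hY' e2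
      simp only [Fl, Fi] at h0
      rw [e1, e2] at h0
      simp only [Prod.mk.injEq] at h0
      obtain ⟨a1, a2⟩ := geo1_digit hX hX' (geo1_real h0.1)
      obtain ⟨b1, b2⟩ := geo1_digit hY hY' (geo1_real h0.2)
      have hij : i = j := Subtype.ext (Prod.ext (Fin.ext a1) (Fin.ext b1))
      subst hij
      rw [ih w hl (by rw [e1, e2, a2, b2])]

private theorem geo1_sub {K : Set (ℝ × ℝ)} (hK : IsCarpet K) (z : ℝ × ℝ) (hz : z ∈ K) :
    0 ≤ z.1 ∧ z.1 ≤ 1 ∧ 0 ≤ z.2 ∧ z.2 ≤ 1 := by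
  have hpre : ∀ y ∈ K, ∃ i : S, ∃ x ∈ K, Fi i x = y := by
    intro y hy
    rw [hK.selfsim] at hy
    obtain ⟨i, x, hx, hxy⟩ := Set.mem_iUnion.1 hy
    exact ⟨i, x, hx, hxy⟩
  have hb : ∀ i : S, (((i.1.1 : ℕ) : ℝ) ≤ 2 ∧ (0 : ℝ) ≤ ((i.1.1 : ℕ) : ℝ)) ∧
      (((i.1.2 : ℕ) : ℝ) ≤ 2 ∧ (0 : ℝ) ≤ ((i.1.2 : ℕ) : ℝ)) := by
    intro i
    have h1 : (i.1.1 : ℕ) ≤ 2 := by have := i.1.1.isLt; omega
    have h2 : (i.1.2 : ℕ) ≤ 2 := by have := i.1.2.isLt; omega
    exact ⟨⟨by exact_mod_cast h1, by positivity⟩, ⟨by exact_mod_cast h2, by positivity⟩⟩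
  obtain ⟨a, ha, ha'⟩ := hK.compact.exists_isMinOn hK.nonempty continuous_fst.continuousOn
  obtain ⟨b, hb1, hb'⟩ := hK.compact.exists_isMaxOn hK.nonempty continuous_fst.continuousOn
  obtain ⟨c, hc, hc'⟩ := hK.compact.exists_isMinOn hK.nonempty continuous_snd.continuousOn
  obtain ⟨d, hd, hd'⟩ := hK.compact.exists_isMaxOn hK.nonempty continuous_snd.continuousOn
  rw [isMinOn_iff] at ha' hc'
  rw [isMaxOn_iff] at hb' hd'
  refine ⟨?_, ?_, ?_, ?_⟩
  · obtain ⟨i, x, hx, hxy⟩ := hpre a ha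
    have e1 : (x.1 + ((i.1.1 : ℕ) : ℝ)) / 3 = a.1 := by rw [← hxy]; rfl
    have e2 := ha' x hx
    have e3 := ha' z hz
    have e4 := (hb i).1.2
    linarith
  · obtain ⟨i, x, hx, hxy⟩ := hpre b hb1
    have e1 : (x.1 + ((i.1.1 : ℕ) : ℝ)) / 3 = b.1 := by rw [← hxy]; rfl
    have e2 := hb' x hx
    have e3 := hb' z hz
    have e4 := (hb i).1.1
    linarith
  · obtain ⟨i, x, hx, hxy⟩ := hpre c hc
    have e1 : (x.2 + ((i.1.2 : ℕ) : ℝ)) / 3 = c.2 := by rw [← hxy]; rfl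
    have e2 := hc' x hx
    have e3 := hc' z hz
    have e4 := (hb i).2.2
    linarith
  · obtain ⟨i, x, hx, hxy⟩ := hpre d hd
    have e1 : (x.2 + ((i.1.2 : ℕ) : ℝ)) / 3 = d.2 := by rw [← hxy]; rfl
    have e2 := hd' x hx
    have e3 := hd' z hz
    have e4 := (hb i).2.1
    linarith

private theorem geo1_diff {n X X' : ℕ} {s t : ℝ} (hs0 : 0 ≤ s) (hs1 : s ≤ 1) (ht0 : 0 ≤ t)
    (ht1 : t ≤ 1) (h : (X : ℝ) / 3 ^ n + s / 3 ^ n = (X' : ℝ) / 3 ^ n + t / 3 ^ n) :
    (X : ℤ) - 1 ≤ X' ∧ (X' : ℤ) ≤ X + 1 := by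
  have h3 : (0 : ℝ) < 3 ^ n := by positivity
  have h4 : (X : ℝ) + s = X' + t := by
    field_simp at h
    linarith
  constructor
  · have : (X : ℝ) - 1 ≤ X' := by linarith
    exact_mod_cast this
  · have : (X' : ℝ) ≤ X + 1 := by linarith
    exact_mod_cast this

/-- a cell meets at most 8 other cells of the same level -/
theorem deg_le {K : Set (ℝ × ℝ)} (hK : IsCarpet K) (n : ℕ) (v : W n) :
    Set.ncard {w : W n | adj K v w} ≤ 8 := by
  classical
  have hg : ∀ w : W n, ∃ X Y : ℕ, Fl (List.ofFn w) (0, 0) = ((X : ℝ) / 3 ^ n, (Y : ℝ) / 3 ^ n) := by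
    intro w
    obtain ⟨X, Y, -, -, h⟩ := Fl_grid (List.ofFn w)
    rw [List.length_ofFn] at h
    exact ⟨X, Y, h⟩
  choose X Y hXY using hg
  set t : Finset (ℤ × ℤ) := ((Finset.Icc ((X v : ℤ) - 1) (X v + 1)) ×ˢ
    (Finset.Icc ((Y v : ℤ) - 1) (Y v + 1))).erase ((X v : ℤ), (Y v : ℤ)) with ht
  have hcard : t.card = 8 := by
    rw [ht, Finset.card_erase_of_mem, Finset.card_product, Int.card_Icc, Int.card_Icc]
    · have e1 : ((X v : ℤ) + 1 + 1 - ((X v : ℤ) - 1)).toNat = 3 := by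
        have : (X v : ℤ) + 1 + 1 - ((X v : ℤ) - 1) = 3 := by ring
        rw [this]
        rfl
      have e2 : ((Y v : ℤ) + 1 + 1 - ((Y v : ℤ) - 1)).toNat = 3 := by
        have : (Y v : ℤ) + 1 + 1 - ((Y v : ℤ) - 1) = 3 := by ring
        rw [this]
        rfl
      rw [e1, e2]
    · simp
  have hinj : ∀ w w' : W n, X w = X w' → Y w = Y w' → w = w' := by
    intro w w' h1 h2
    apply List.ofFn_injective
    apply Fl_inj _ _ (by simp)
    rw [hXY, hXY, h1, h2]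
  rw [← hcard, ← Set.ncard_coe_finset]
  refine Set.ncard_le_ncard_of_injOn (fun w => ((X w : ℤ), (Y w : ℤ))) ?_ ?_ t.finite_toSet
  · intro w hw
    obtain ⟨hvw, z, ⟨a, ha, haz⟩, ⟨b, hb, hbz⟩⟩ := hw
    rw [Finset.mem_coe, ht, Finset.mem_erase, Finset.mem_product, Finset.mem_Icc, Finset.mem_Icc]
    have e0 : Fl (List.ofFn v) a = Fl (List.ofFn w) b := by rw [haz, hbz]
    rw [Fl_formula (List.ofFn v) a, Fl_formula (List.ofFn w) b, hXY, hXY, List.length_ofFn,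
      List.length_ofFn] at e0
    simp only [Prod.mk.injEq] at e0
    obtain ⟨a1, a2, a3, a4⟩ := geo1_sub hK a ha
    obtain ⟨b1, b2, b3, b4⟩ := geo1_sub hK b hb
    refine ⟨?_, geo1_diff a1 a2 b1 b2 e0.1, geo1_diff a3 a4 b3 b4 e0.2⟩
    intro hc
    simp only [Prod.mk.injEq, Nat.cast_inj] at hc
    exact hvw (hinj v w hc.1.symm hc.2.symm)
  · intro w _ w' _ h
    simp only [Prod.mk.injEq, Nat.cast_inj] at h
    exact hinj w w' h.1 h.2

/-- the projections of adjacent cells to the first axis meet -/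
theorem adj_interval {K : Set (ℝ × ℝ)} (hK : IsCarpet K) (n : ℕ) (v w : W n) (h : adj K v w) :
    ∃ c : ℝ, (Fl (List.ofFn v) (0, 0)).1 ≤ c ∧ c ≤ (Fl (List.ofFn v) (1, 0)).1 ∧
      (Fl (List.ofFn w) (0, 0)).1 ≤ c ∧ c ≤ (Fl (List.ofFn w) (1, 0)).1 := by
  obtain ⟨-, z, ⟨a, ha, haz⟩, ⟨b, hb, hbz⟩⟩ := h
  have key : ∀ (u : W n) (x : ℝ × ℝ), x ∈ K → Fl (List.ofFn u) x = z →
      (Fl (List.ofFn u) (0, 0)).1 ≤ z.1 ∧ z.1 ≤ (Fl (List.ofFn u) (1, 0)).1 := by
    intro u x hx hxz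
    obtain ⟨x1, x2, -, -⟩ := geo1_sub hK x hx
    have h3 : (0 : ℝ) < 3 ^ n := by positivity
    rw [← hxz, Fl_formula (List.ofFn u) x, Fl_formula (List.ofFn u) (1, 0), List.length_ofFn]
    simp only
    constructor
    · have : 0 ≤ x.1 / 3 ^ n := by positivity
      linarith
    · have : x.1 / 3 ^ n ≤ 1 / 3 ^ n := by gcongr
      linarith
  exact ⟨z.1, (key v a ha haz).1, (key v a ha haz).2, (key w b hb hbz).1, (key w b hb hbz).2⟩

end Pool.Agent.SCI
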