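import Mathlib
import Pool.Agent.SCI.Defs

/-! Geometry of the carpet (module GEO2 of project SCI). -/

set_option autoImplicit false

namespace Pool.Agent.SCI

open MeasureTheory Filter Topology

theorem geo2_append (a b : List S) (z : ℝ × ℝ) : Fl (a ++ b) z = Fl a (Fl b z) := by
  induction a with
  | nil => rfl
  | cons i a ih => simp only [List.cons_append, Fl, ih]

theorem geo2_digit (i : Fin 3) : (0 : ℝ) ≤ ((i : ℕ) : ℝ) ∧ ((i : ℕ) : ℝ) ≤ 2 := by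
  refine ⟨Nat.cast_nonneg _, ?_⟩
  have : (i : ℕ) ≤ 2 := by omega
  exact_mod_cast this

theorem geo2_image {K : Set (ℝ × ℝ)} (hK : IsCarpet K) (i : S) (z : ℝ × ℝ) (hz : z ∈ K) : Fi i z ∈ K := by
  rw [hK.selfsim]
  exact Set.mem_iUnion.mpr ⟨i, z, hz, rfl⟩

theorem geo2_preimage {K : Set (ℝ × ℝ)} (hK : IsCarpet K) (z : ℝ × ℝ) (hz : z ∈ K) :
    ∃ i : S, ∃ z' ∈ K, Fi i z' = z := by
  rw [hK.selfsim] at hz
  obtain ⟨i, z', hz', rfl⟩ := Set.mem_iUnion.mp hz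
  exact ⟨i, z', hz', rfl⟩

theorem carpet_sub {K : Set (ℝ × ℝ)} (hK : IsCarpet K) (z : ℝ × ℝ) (hz : z ∈ K) :
    0 ≤ z.1 ∧ z.1 ≤ 1 ∧ 0 ≤ z.2 ∧ z.2 ≤ 1 := by
  obtain ⟨a, ha, hamax⟩ := hK.compact.exists_isMaxOn hK.nonempty continuous_fst.continuousOn
  obtain ⟨b, hb, hbmax⟩ := hK.compact.exists_isMaxOn hK.nonempty continuous_snd.continuousOn
  obtain ⟨c, hc, hcmin⟩ := hK.compact.exists_isMinOn hK.nonempty continuous_fst.continuousOn
  obtain ⟨d, hd, hdmin⟩ := hK.compact.exists_isMinOn hK.nonempty continuous_snd.continuousOn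
  obtain ⟨i, a', ha', hia⟩ := geo2_preimage hK a ha
  obtain ⟨j, b', hb', hjb⟩ := geo2_preimage hK b hb
  obtain ⟨k, c', hc', hkc⟩ := geo2_preimage hK c hc
  obtain ⟨m, d', hd', hmd⟩ := geo2_preimage hK d hd
  have ea : (a'.1 + ((i.1.1 : ℕ) : ℝ)) / 3 = a.1 := congrArg Prod.fst hia
  have eb : (b'.2 + ((j.1.2 : ℕ) : ℝ)) / 3 = b.2 := congrArg Prod.snd hjb
  have ec : (c'.1 + ((k.1.1 : ℕ) : ℝ)) / 3 = c.1 := congrArg Prod.fst hkc
  have ed : (d'.2 + ((m.1.2 : ℕ) : ℝ)) / 3 = d.2 := congrArg Prod.snd hmd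
  have h1 : a'.1 ≤ a.1 := hamax ha'
  have h2 : b'.2 ≤ b.2 := hbmax hb'
  have h3 : c.1 ≤ c'.1 := hcmin hc'
  have h4 : d.2 ≤ d'.2 := hdmin hd'
  have h5 := geo2_digit i.1.1
  have h6 := geo2_digit j.1.2
  have h7 := geo2_digit k.1.1
  have h8 := geo2_digit m.1.2
  have z1 : z.1 ≤ a.1 := hamax hz
  have z2 : z.2 ≤ b.2 := hbmax hz
  have z3 : c.1 ≤ z.1 := hcmin hz
  have z4 : d.2 ≤ z.2 := hdmin hz
  refine ⟨?_, ?_, ?_, ?_⟩ <;> linarith [h5.1, h5.2, h6.1, h6.2, h7.1, h7.2, h8.1, h8.2]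

theorem geo2_Fl_mem {K : Set (ℝ × ℝ)} (hK : IsCarpet K) (w : List S) (z : ℝ × ℝ) (hz : z ∈ K) : Fl w z ∈ K := by
  induction w with
  | nil => exact hz
  | cons i w ih => exact geo2_image hK i _ ih

theorem cell_sub {K : Set (ℝ × ℝ)} (hK : IsCarpet K) (w : List S) : cell K w ⊆ K := by
  rintro _ ⟨z, hz, rfl⟩
  exact geo2_Fl_mem hK w z hz

theorem geo2_fixed {K : Set (ℝ × ℝ)} (hK : IsCarpet K) (i : S) (c : ℝ × ℝ) (hc : Fi i c = c) : c ∈ K := by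
  obtain ⟨z, hz⟩ := hK.nonempty
  have hform : ∀ n : ℕ, Fl (List.replicate n i) z = (c.1 + (z.1 - c.1) * (1 / 3) ^ n, c.2 + (z.2 - c.2) * (1 / 3) ^ n) := by
    intro n
    induction n with
    | zero => simp [Fl]
    | succ n ih =>
      rw [List.replicate_succ]
      simp only [Fl]
      rw [ih]
      have e1 : (c.1 + ((i.1.1 : ℕ) : ℝ)) / 3 = c.1 := congrArg Prod.fst hc
      have e2 : (c.2 + ((i.1.2 : ℕ) : ℝ)) / 3 = c.2 := congrArg Prod.snd hc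
      apply Prod.ext
      · simp only [Fi]
        rw [pow_succ]
        linarith
      · simp only [Fi]
        rw [pow_succ]
        linarith
  have ht : Tendsto (fun n : ℕ => Fl (List.replicate n i) z) atTop (𝓝 c) := by
    have h0 : Tendsto (fun n : ℕ => (1 / 3 : ℝ) ^ n) atTop (𝓝 0) :=
      tendsto_pow_atTop_nhds_zero_of_lt_one (by norm_num) (by norm_num)
    have e : (fun n : ℕ => Fl (List.replicate n i) z) = fun n : ℕ => (c.1 + (z.1 - c.1) * (1 / 3) ^ n, c.2 + (z.2 - c.2) * (1 / 3) ^ n) :=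
      funext hform
    rw [e]
    have h1 : Tendsto (fun n : ℕ => c.1 + (z.1 - c.1) * (1 / 3) ^ n) atTop (𝓝 c.1) := by
      simpa using (h0.const_mul (z.1 - c.1)).const_add c.1
    have h2 : Tendsto (fun n : ℕ => c.2 + (z.2 - c.2) * (1 / 3) ^ n) atTop (𝓝 c.2) := by
      simpa using (h0.const_mul (z.2 - c.2)).const_add c.2
    exact h1.prodMk_nhds h2
  exact hK.compact.isClosed.mem_of_tendsto ht (Eventually.of_forall fun n => geo2_Fl_mem hK _ z hz)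

theorem corner_mem {K : Set (ℝ × ℝ)} (hK : IsCarpet K) :
    ((0, 0) : ℝ × ℝ) ∈ K ∧ ((1, 0) : ℝ × ℝ) ∈ K ∧ ((0, 1) : ℝ × ℝ) ∈ K := by
  refine ⟨geo2_fixed hK ⟨(0, 0), by decide⟩ _ ?_, geo2_fixed hK ⟨(2, 0), by decide⟩ _ ?_,
    geo2_fixed hK ⟨(0, 2), by decide⟩ _ ?_⟩
  · apply Prod.ext <;> simp [Fi]
  · apply Prod.ext <;> simp [Fi] <;> norm_num
  · apply Prod.ext <;> simp [Fi] <;> norm_num

theorem geo2_hpt (y : List (Fin 3)) : ∃ t : ℝ, Fl (y.map (sd 1)) (1, 0) = (1, t) ∧ Fl (y.map (sd 0)) (0, 0) = (0, t) := by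
  induction y with
  | nil => exact ⟨0, rfl, rfl⟩
  | cons a y ih =>
    obtain ⟨t, h1, h0⟩ := ih
    refine ⟨(t + ((a : ℕ) : ℝ)) / 3, ?_, ?_⟩
    · simp only [List.map_cons, Fl, h1]
      apply Prod.ext
      · simp [Fi, sd]; norm_num
      · simp [Fi, sd]
    · simp only [List.map_cons, Fl, h0]
      apply Prod.ext
      · simp [Fi, sd]
      · simp [Fi, sd]

theorem geo2_vpt (y : List (Fin 3)) : ∃ t : ℝ, Fl (y.map (sd 3)) (0, 1) = (t, 1) ∧ Fl (y.map (sd 2)) (0, 0) = (t, 0) := by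
  induction y with
  | nil => exact ⟨0, rfl, rfl⟩
  | cons a y ih =>
    obtain ⟨t, h1, h0⟩ := ih
    refine ⟨(t + ((a : ℕ) : ℝ)) / 3, ?_, ?_⟩
    · simp only [List.map_cons, Fl, h1]
      apply Prod.ext
      · simp [Fi, sd]
      · simp [Fi, sd]; norm_num
    · simp only [List.map_cons, Fl, h0]
      apply Prod.ext
      · simp [Fi, sd]
      · simp [Fi, sd]

theorem hcells {K : Set (ℝ × ℝ)} (hK : IsCarpet K) (l : List S) (i j : S) (h : hadj i j)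
    (y : List (Fin 3)) :
    (cell K (l ++ [i] ++ y.map (sd 1)) ∩ cell K (l ++ [j] ++ y.map (sd 0))).Nonempty := by
  obtain ⟨t, h1, h0⟩ := geo2_hpt y
  obtain ⟨c0, c1, _⟩ := corner_mem hK
  refine ⟨Fl l (Fi i (1, t)), ⟨(1, 0), c1, ?_⟩, ⟨(0, 0), c0, ?_⟩⟩
  · rw [geo2_append, geo2_append, h1]; rfl
  · rw [geo2_append, geo2_append, h0]
    change Fl l (Fi j (0, t)) = _
    congr 1
    obtain ⟨ha, hb⟩ := h
    apply Prod.ext
    · simp only [Fi]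
      rw [← ha]
      push_cast
      ring
    · simp only [Fi]
      rw [hb]

theorem vcells {K : Set (ℝ × ℝ)} (hK : IsCarpet K) (l : List S) (i j : S) (h : vadj i j)
    (y : List (Fin 3)) :
    (cell K (l ++ [i] ++ y.map (sd 3)) ∩ cell K (l ++ [j] ++ y.map (sd 2))).Nonempty := by
  obtain ⟨t, h1, h0⟩ := geo2_vpt y
  obtain ⟨c0, _, c1⟩ := corner_mem hK
  refine ⟨Fl l (Fi i (t, 1)), ⟨(0, 1), c1, ?_⟩, ⟨(0, 0), c0, ?_⟩⟩
  · rw [geo2_append, geo2_append, h1]; rfl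
  · rw [geo2_append, geo2_append, h0]
    change Fl l (Fi j (t, 0)) = _
    congr 1
    obtain ⟨ha, hb⟩ := h
    apply Prod.ext
    · simp only [Fi]
      rw [hb]
    · simp only [Fi]
      rw [← ha]
      push_cast
      ring

end Pool.Agent.SCI
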