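import Mathlib
import Pool.Agent.SCI.Defs
import Pool.Agent.SCI.GEO1
import Pool.Agent.SCI.GEO2

/-! Project SCI, module MEAS: the self-similar measure. -/

set_option autoImplicit false

namespace Pool.Agent.SCI

open MeasureTheory Filter Topology

theorem meas_Fi_cont (i : S) : Continuous (Fi i) := by
  unfold Fi
  fun_prop

theorem meas_Fi_inj (i : S) : Function.Injective (Fi i) := by
  intro z w h
  have h1 := congrArg Prod.fst h
  have h2 := congrArg Prod.snd h
  simp only [Fi] at h1 h2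
  ext <;> linarith

theorem meas_Fl_cont (l : List S) : Continuous (Fl l) := by
  induction l with
  | nil =>
    have : Fl [] = fun z => z := by
      funext z
      rfl
    rw [this]
    exact continuous_id
  | cons i l ih =>
    have : Fl (i :: l) = fun z => Fi i (Fl l z) := by
      funext z
      rfl
    rw [this]
    exact (meas_Fi_cont i).comp ih

theorem meas_cell_compact {K : Set (ℝ × ℝ)} (hK : IsCarpet K) (w : List S) :
    IsCompact (cell K w) := hK.compact.image (meas_Fl_cont w)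

theorem meas_map_le {K : Set (ℝ × ℝ)} {m : Measure (ℝ × ℝ)} (hm : IsCarpetMeasure K m) (i : S) :
    m.map (Fi i) ≤ (8 : ENNReal) • m := by
  have h1 : (8 : ENNReal) • m = ∑ j : S, m.map (Fi j) := by
    conv_lhs => rw [hm.selfsim]
    rw [smul_smul]
    have : (8 : ENNReal) * (1 / 8) = 1 := by
      rw [one_div]
      exact ENNReal.mul_inv_cancel (by norm_num) (by norm_num)
    rw [this, one_smul]
  rw [h1]
  exact Finset.single_le_sum (f := fun j : S => m.map (Fi j)) (fun j _ => Measure.zero_le _)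
    (Finset.mem_univ i)

theorem meas_int_map {K : Set (ℝ × ℝ)} {m : Measure (ℝ × ℝ)} (hm : IsCarpetMeasure K m) (i : S)
    {g : ℝ × ℝ → ℝ} (hg : Integrable g m) : Integrable g (m.map (Fi i)) :=
  (hg.smul_measure (by norm_num : (8 : ENNReal) ≠ ⊤)).mono_measure (meas_map_le hm i)

theorem meas_int_comp {K : Set (ℝ × ℝ)} {m : Measure (ℝ × ℝ)} (hm : IsCarpetMeasure K m) (i : S)
    {g : ℝ × ℝ → ℝ} (hg : Integrable g m) : Integrable (fun z => g (Fi i z)) m :=
  (meas_int_map hm i hg).comp_measurable (meas_Fi_cont i).measurable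

/-- (a) -/
theorem meas_split {K : Set (ℝ × ℝ)} {m : Measure (ℝ × ℝ)} (hm : IsCarpetMeasure K m)
    {g : ℝ × ℝ → ℝ} (hg : Integrable g m) :
    ∫ z, g z ∂m = (∑ i : S, ∫ z, g (Fi i z) ∂m) / 8 := by
  have h1 : ∫ z, g z ∂m = ∫ z, g z ∂((1 / 8 : ENNReal) • ∑ i : S, m.map (Fi i)) := by
    rw [← hm.selfsim]
  rw [h1, integral_smul_measure, integral_finsetSum_measure (fun i _ => meas_int_map hm i hg)]
  have h2 : ∀ i : S, ∫ z, g z ∂(m.map (Fi i)) = ∫ z, g (Fi i z) ∂m := by
    intro i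
    exact integral_map (meas_Fi_cont i).measurable.aemeasurable
      (meas_int_map hm i hg).aestronglyMeasurable
  rw [Finset.sum_congr rfl (fun i _ => h2 i)]
  have h3 : (1 / 8 : ENNReal).toReal = 1 / 8 := by simp
  rw [h3, smul_eq_mul]
  ring

theorem comp_integrable {K : Set (ℝ × ℝ)} {m : Measure (ℝ × ℝ)} (hK : IsCarpet K) (hm : IsCarpetMeasure K m)
    (f : ℝ × ℝ → ℝ) (hf : Integrable f m) (l : List S) : Integrable (fun z => f (Fl l z)) m := by
  induction l generalizing f with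
  | nil => exact hf
  | cons i l ih => exact ih (fun z => f (Fi i z)) (meas_int_comp hm i hf)

theorem mart_eq {K : Set (ℝ × ℝ)} {m : Measure (ℝ × ℝ)} (hK : IsCarpet K) (hm : IsCarpetMeasure K m)
    (f : ℝ × ℝ → ℝ) (hf : Integrable f m) (l : List S) :
    ∫ z, f (Fl l z) ∂m = (∑ i : S, ∫ z, f (Fl (l ++ [i]) z) ∂m) / 8 := by
  rw [meas_split hm (comp_integrable hK hm f hf l)]
  congr 1
  apply Finset.sum_congr rfl
  intro i _
  congr 1
  funext z
  rw [Fl_append]
  rfl

/-- measure of a set through the eight maps -/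
theorem meas_set {K : Set (ℝ × ℝ)} {m : Measure (ℝ × ℝ)} (hm : IsCarpetMeasure K m)
    {A : Set (ℝ × ℝ)} (hA : MeasurableSet A) :
    (m A).toReal = (∑ j : S, (m (Fi j ⁻¹' A)).toReal) / 8 := by
  have := hm.prob
  have h1 : m A = ((1 / 8 : ENNReal) • ∑ i : S, m.map (Fi i)) A := by
    rw [← hm.selfsim]
  rw [h1, Measure.smul_apply, Measure.finsetSum_apply, smul_eq_mul, ENNReal.toReal_mul,
    ENNReal.toReal_sum (fun i _ => by
      rw [Measure.map_apply (meas_Fi_cont i).measurable hA]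
      exact measure_ne_top m _)]
  have h2 : ∀ i : S, (m.map (Fi i)) A = m (Fi i ⁻¹' A) := fun i =>
    Measure.map_apply (meas_Fi_cont i).measurable hA
  rw [Finset.sum_congr rfl (fun i _ => by rw [h2 i])]
  have h3 : (1 / 8 : ENNReal).toReal = 1 / 8 := by simp
  rw [h3]
  ring

theorem meas_null {K : Set (ℝ × ℝ)} {m : Measure (ℝ × ℝ)} (hm : IsCarpetMeasure K m)
    {A : Set (ℝ × ℝ)} (hA : MeasurableSet A) (T : Finset S) (hT : T.card = 3)
    (h1 : ∀ j ∈ T, Fi j ⁻¹' A = A) (h2 : ∀ j : S, j ∉ T → Fi j ⁻¹' A ⊆ Kᶜ) : m A = 0 := by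
  have := hm.prob
  have h3 := meas_set hm hA
  have h4 : (∑ j : S, (m (Fi j ⁻¹' A)).toReal) = ∑ j ∈ T, (m A).toReal := by
    rw [← Finset.sum_subset (Finset.subset_univ T)]
    · exact Finset.sum_congr rfl (fun j hj => by rw [h1 j hj])
    · intro j _ hj
      have : m (Fi j ⁻¹' A) = 0 := measure_mono_null (h2 j hj) hm.onK
      rw [this]
      rfl
  rw [h4, Finset.sum_const, hT] at h3
  have h5 : (m A).toReal = 0 := by
    simp only [nsmul_eq_mul, Nat.cast_ofNat] at h3
    linarith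
  rw [ENNReal.toReal_eq_zero_iff] at h5
  rcases h5 with h5 | h5
  · exact h5
  · exact absurd h5 (measure_ne_top m A)

theorem meas_faces {K : Set (ℝ × ℝ)} {m : Measure (ℝ × ℝ)} (hK : IsCarpet K)
    (hm : IsCarpetMeasure K m) :
    m {z | z.1 = 0} = 0 ∧ m {z | z.1 = 1} = 0 ∧ m {z | z.2 = 0} = 0 ∧ m {z | z.2 = 1} = 0 := by
  have hc : ∀ c : ℝ, MeasurableSet {z : ℝ × ℝ | z.1 = c} := fun c =>
    measurableSet_eq_fun measurable_fst measurable_const
  have hd : ∀ c : ℝ, MeasurableSet {z : ℝ × ℝ | z.2 = c} := fun c =>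
    measurableSet_eq_fun measurable_snd measurable_const
  refine ⟨?_, ?_, ?_, ?_⟩
  · refine meas_null hm (hc 0) (Finset.univ.filter (fun j : S => j.1.1 = 0)) (by decide) ?_ ?_
    · intro j hj
      simp only [Finset.mem_filter, Finset.mem_univ, true_and] at hj
      ext z
      simp [Fi, hj]
    · intro j hj z hz hzK
      simp only [Finset.mem_filter, Finset.mem_univ, true_and] at hj
      have h1 := carpet_sub hK z hzK
      have h2 : (z.1 + ((j.1.1 : ℕ) : ℝ)) / 3 = 0 := hz
      have h3 : (1:ℝ) ≤ ((j.1.1 : ℕ) : ℝ) := by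
        have : 1 ≤ (j.1.1 : ℕ) := by
          have : (j.1.1 : ℕ) ≠ 0 := fun h => hj (Fin.ext h)
          omega
        exact_mod_cast this
      linarith [h1.1]
  · refine meas_null hm (hc 1) (Finset.univ.filter (fun j : S => j.1.1 = 2)) (by decide) ?_ ?_
    · intro j hj
      simp only [Finset.mem_filter, Finset.mem_univ, true_and] at hj
      ext z
      simp only [Set.mem_preimage, Set.mem_ofPred_eq, Fi, hj]
      constructor
      · intro h
        norm_num at h
        linarith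
      · intro h
        rw [h]
        norm_num
    · intro j hj z hz hzK
      simp only [Finset.mem_filter, Finset.mem_univ, true_and] at hj
      have h1 := carpet_sub hK z hzK
      have h2 : (z.1 + ((j.1.1 : ℕ) : ℝ)) / 3 = 1 := hz
      have h3 : ((j.1.1 : ℕ) : ℝ) ≤ 1 := by
        have : (j.1.1 : ℕ) ≤ 1 := by
          have h4 : (j.1.1 : ℕ) ≠ 2 := fun h => hj (Fin.ext h)
          have := j.1.1.isLt
          omega
        exact_mod_cast this
      linarith [h1.2.1]
  · refine meas_null hm (hd 0) (Finset.univ.filter (fun j : S => j.1.2 = 0)) (by decide) ?_ ?_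
    · intro j hj
      simp only [Finset.mem_filter, Finset.mem_univ, true_and] at hj
      ext z
      simp [Fi, hj]
    · intro j hj z hz hzK
      simp only [Finset.mem_filter, Finset.mem_univ, true_and] at hj
      have h1 := carpet_sub hK z hzK
      have h2 : (z.2 + ((j.1.2 : ℕ) : ℝ)) / 3 = 0 := hz
      have h3 : (1:ℝ) ≤ ((j.1.2 : ℕ) : ℝ) := by
        have : 1 ≤ (j.1.2 : ℕ) := by
          have : (j.1.2 : ℕ) ≠ 0 := fun h => hj (Fin.ext h)
          omega
        exact_mod_cast this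
      linarith [h1.2.2.1]
  · refine meas_null hm (hd 1) (Finset.univ.filter (fun j : S => j.1.2 = 2)) (by decide) ?_ ?_
    · intro j hj
      simp only [Finset.mem_filter, Finset.mem_univ, true_and] at hj
      ext z
      simp only [Set.mem_preimage, Set.mem_ofPred_eq, Fi, hj]
      constructor
      · intro h
        norm_num at h
        linarith
      · intro h
        rw [h]
        norm_num
    · intro j hj z hz hzK
      simp only [Finset.mem_filter, Finset.mem_univ, true_and] at hj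
      have h1 := carpet_sub hK z hzK
      have h2 : (z.2 + ((j.1.2 : ℕ) : ℝ)) / 3 = 1 := hz
      have h3 : ((j.1.2 : ℕ) : ℝ) ≤ 1 := by
        have : (j.1.2 : ℕ) ≤ 1 := by
          have h4 : (j.1.2 : ℕ) ≠ 2 := fun h => hj (Fin.ext h)
          have := j.1.2.isLt
          omega
        exact_mod_cast this
      linarith [h1.2.2.2]

theorem meas_int_aux {a b x y : ℕ} (hx : x < 3) (hy : y < 3) (hab : a = x ∧ b = y) (s t : ℝ)
    (hs : 0 ≤ s ∧ s ≤ 1) (ht : 0 ≤ t ∧ t ≤ 1) (hne : x ≠ y) (h : s + (x : ℝ) = t + (y : ℝ)) :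
    s = 0 ∨ s = 1 := by
  interval_cases x <;> interval_cases y <;> first
    | exact absurd rfl hne
    | (norm_num at h
       first
       | (left; linarith [hs.1, hs.2, ht.1, ht.2])
       | (right; linarith [hs.1, hs.2, ht.1, ht.2]))

/-- (d) -/
theorem meas_overlap {K : Set (ℝ × ℝ)} {m : Measure (ℝ × ℝ)} (hK : IsCarpet K)
    (hm : IsCarpetMeasure K m) {i j : S} (hij : i ≠ j) : ∀ᵐ z ∂m, Fi j z ∉ Fi i '' K := by
  obtain ⟨f1, f2, f3, f4⟩ := meas_faces hK hm
  have e1 : ∀ᵐ z ∂m, z.1 ≠ 0 := measure_eq_zero_iff_ae_notMem.1 f1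
  have e2 : ∀ᵐ z ∂m, z.1 ≠ 1 := measure_eq_zero_iff_ae_notMem.1 f2
  have e3 : ∀ᵐ z ∂m, z.2 ≠ 0 := measure_eq_zero_iff_ae_notMem.1 f3
  have e4 : ∀ᵐ z ∂m, z.2 ≠ 1 := measure_eq_zero_iff_ae_notMem.1 f4
  have e5 : ∀ᵐ z ∂m, z ∈ K := hm.onK
  filter_upwards [e1, e2, e3, e4, e5] with z h1 h2 h3 h4 h5
  rintro ⟨z', hz', he⟩
  have g1 := congrArg Prod.fst he
  have g2 := congrArg Prod.snd he
  simp only [Fi] at g1 g2
  have k1 := carpet_sub hK z h5
  have k2 := carpet_sub hK z' hz'
  by_cases hx : (j.1.1 : ℕ) = (i.1.1 : ℕ)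
  · have hy : (j.1.2 : ℕ) ≠ (i.1.2 : ℕ) := by
      intro hy
      apply hij
      apply Subtype.ext
      exact Prod.ext (Fin.ext hx.symm) (Fin.ext hy.symm)
    rcases meas_int_aux (x := (j.1.2 : ℕ)) (y := (i.1.2 : ℕ)) j.1.2.isLt i.1.2.isLt ⟨rfl, rfl⟩
      z.2 z'.2 k1.2.2 k2.2.2 hy (by linarith) with h | h
    · exact h3 h
    · exact h4 h
  · rcases meas_int_aux (x := (j.1.1 : ℕ)) (y := (i.1.1 : ℕ)) j.1.1.isLt i.1.1.isLt ⟨rfl, rfl⟩
      z.1 z'.1 ⟨k1.1, k1.2.1⟩ ⟨k2.1, k2.2.1⟩ hx (by linarith) with h | h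
    · exact h1 h
    · exact h2 h

/-- (e) -/
theorem meas_cell_step {K : Set (ℝ × ℝ)} {m : Measure (ℝ × ℝ)} (hK : IsCarpet K)
    (hm : IsCarpetMeasure K m) (i : S) {A : Set (ℝ × ℝ)} (hA : IsCompact A) (hAK : A ⊆ K)
    {g : ℝ × ℝ → ℝ} (hg : Integrable g m) :
    ∫ z in Fi i '' A, g z ∂m = (∫ z in A, g (Fi i z) ∂m) / 8 := by
  have hAm : MeasurableSet A := hA.isClosed.measurableSet
  have hBm : MeasurableSet (Fi i '' A) := (hA.image (meas_Fi_cont i)).isClosed.measurableSet
  rw [← integral_indicator hBm, meas_split hm (hg.indicator hBm)]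
  congr 1
  rw [Finset.sum_eq_single i]
  · rw [← integral_indicator hAm]
    congr 1
    funext z
    by_cases hz : z ∈ A
    · rw [Set.indicator_of_mem hz, Set.indicator_of_mem (Set.mem_image_of_mem _ hz)]
    · rw [Set.indicator_of_notMem hz, Set.indicator_of_notMem]
      rintro ⟨z', hz', he⟩
      exact hz ((meas_Fi_inj i he) ▸ hz')
  · intro j _ hji
    have h1 := meas_overlap hK hm (Ne.symm hji)
    have h2 : (fun z => (Fi i '' A).indicator g (Fi j z)) =ᵐ[m] fun _ => (0:ℝ) := by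
      filter_upwards [h1] with z hz
      rw [Set.indicator_of_notMem]
      intro h
      exact hz (Set.image_mono hAK h)
    rw [integral_congr_ae h2]
    simp
  · intro h
    exact absurd (Finset.mem_univ i) h

/-- (f) -/
theorem meas_cell {K : Set (ℝ × ℝ)} {m : Measure (ℝ × ℝ)} (hK : IsCarpet K)
    (hm : IsCarpetMeasure K m) (w : List S) (g : ℝ × ℝ → ℝ) (hg : Integrable g m) :
    ∫ z in cell K w, g z ∂m = (∫ z, g (Fl w z) ∂m) / 8 ^ w.length := by
  induction w generalizing g with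
  | nil =>
    have h1 : cell K [] = K := by
      have : Fl [] = fun z => z := by
        funext z
        rfl
      rw [cell, this]
      simp
    rw [h1]
    have h2 : ∫ z in K, g z ∂m = ∫ z, g z ∂m := by
      have h3 : ∀ᵐ z ∂m, z ∈ K := hm.onK
      rw [Measure.restrict_eq_self_of_ae_mem h3]
    rw [h2]
    simp [Fl]
  | cons i w ih =>
    have h1 : cell K (i :: w) = Fi i '' (cell K w) := by
      rw [cell, cell, Set.image_image]
      rfl
    rw [h1, meas_cell_step hK hm i (meas_cell_compact hK w) (cell_sub hK w) hg,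
      ih (fun z => g (Fi i z)) (meas_int_comp hm i hg), List.length_cons, pow_succ]
    rw [div_div]
    rfl

theorem Mn_eq {K : Set (ℝ × ℝ)} {m : Measure (ℝ × ℝ)} (hK : IsCarpet K) (hm : IsCarpetMeasure K m)
    (f : ℝ × ℝ → ℝ) (hf : Integrable f m) (n : ℕ) (w : W n) :
    Mn K m n f w = ∫ z, f (Fl (List.ofFn w) z) ∂m := by
  rw [Mn, meas_cell hK hm _ f hf, List.length_ofFn]
  field_simp

end Pool.Agent.SCI
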