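import Mathlib
import Pool.Agent.SCI.Defs

/-! Sums over words (module WS of project SCI). -/

set_option autoImplicit false

namespace Pool.Agent.SCI

open MeasureTheory Filter Topology

theorem wsum_eq {α : Type} [Fintype α] (n : ℕ) (g : List α → ℝ) :
    wsum n g = ∑ w : Fin n → α, g (List.ofFn w) := by
  induction n generalizing g with
  | zero => simp [wsum]
  | succ n ih =>
    simp only [wsum]
    rw [← (Fin.consEquiv (fun _ => α)).sum_comp, Fintype.sum_prod_type]
    apply Finset.sum_congr rfl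
    intro i _
    rw [ih]
    apply Finset.sum_congr rfl
    intro w _
    simp [Fin.consEquiv, List.ofFn_succ]

theorem wsum_append {α : Type} [Fintype α] (m n : ℕ) (g : List α → ℝ) :
    wsum (m + n) g = wsum m (fun a => wsum n (fun b => g (a ++ b))) := by
  induction m generalizing g with
  | zero => simp [wsum]
  | succ m ih =>
    rw [Nat.add_right_comm]
    simp only [wsum]
    apply Finset.sum_congr rfl
    intro i _
    rw [ih]
    rfl

theorem wsum_snoc {α : Type} [Fintype α] (n : ℕ) (g : List α → ℝ) :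
    wsum (n + 1) g = wsum n (fun a => ∑ i : α, g (a ++ [i])) := by
  rw [wsum_append]
  rfl

theorem wsum_mono {α : Type} [Fintype α] (n : ℕ) (g h : List α → ℝ)
    (H : ∀ l, l.length = n → g l ≤ h l) : wsum n g ≤ wsum n h := by
  rw [wsum_eq, wsum_eq]
  apply Finset.sum_le_sum
  intro w _
  exact H _ (List.length_ofFn)

theorem wsum_nonneg {α : Type} [Fintype α] (n : ℕ) (g : List α → ℝ) (H : ∀ l, 0 ≤ g l) :
    0 ≤ wsum n g := by
  rw [wsum_eq]
  exact Finset.sum_nonneg fun w _ => H _

theorem wsum_add {α : Type} [Fintype α] (n : ℕ) (g h : List α → ℝ) :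
    wsum n (fun l => g l + h l) = wsum n g + wsum n h := by
  rw [wsum_eq, wsum_eq, wsum_eq, Finset.sum_add_distrib]

theorem wsum_mul {α : Type} [Fintype α] (n : ℕ) (c : ℝ) (g : List α → ℝ) :
    wsum n (fun l => c * g l) = c * wsum n g := by
  rw [wsum_eq, wsum_eq, Finset.mul_sum]

theorem wsum_const {α : Type} [Fintype α] (n : ℕ) (c : ℝ) :
    wsum n (fun _ : List α => c) = (Fintype.card α : ℝ) ^ n * c := by
  rw [wsum_eq, Finset.sum_const, Finset.card_univ, nsmul_eq_mul, Fintype.card_fun, Fintype.card_fin]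
  push_cast
  rfl

theorem wsum_abs {α : Type} [Fintype α] (n : ℕ) (g : List α → ℝ) :
    |wsum n g| ≤ wsum n (fun l => |g l|) := by
  rw [wsum_eq, wsum_eq]
  exact Finset.abs_sum_le_sum_abs _ _

/-- a single word l of length k: the sum over its descendants is at most the full sum -/
theorem wsum_desc_le {α : Type} [Fintype α] (n : ℕ) (g : List α → ℝ) (hg : ∀ l, 0 ≤ g l) (l : List α) :
    wsum n (fun x => g (l ++ x)) ≤ wsum (l.length + n) g := by
  induction l generalizing g with
  | nil => simp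
  | cons i l ih =>
    have h1 := ih (fun x => g (i :: x)) (fun x => hg _)
    have h2 : wsum (l.length + n) (fun x => g (i :: x)) ≤ wsum ((i :: l).length + n) g := by
      rw [List.length_cons, Nat.add_right_comm]
      simp only [wsum]
      exact Finset.single_le_sum (f := fun i => wsum (l.length + n) (fun x => g (i :: x)))
        (fun j _ => wsum_nonneg _ _ fun x => hg _) (Finset.mem_univ i)
    exact h1.trans h2

theorem ws_sd_inj (σ : Fin 4) : Function.Injective (sd σ) := by
  intro a b h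
  fin_cases σ
  · exact congrArg (fun x : S => x.1.2) h
  · exact congrArg (fun x : S => x.1.2) h
  · exact congrArg (fun x : S => x.1.1) h
  · exact congrArg (fun x : S => x.1.1) h

/-- side words are words -/
theorem wsum_side_le (σ : Fin 4) (n : ℕ) (g : List S → ℝ) (hg : ∀ l, 0 ≤ g l) :
    wsum n (fun y : List (Fin 3) => g (y.map (sd σ))) ≤ wsum n g := by
  induction n generalizing g with
  | zero => simp [wsum]
  | succ n ih =>
    simp only [wsum, List.map_cons]
    calc ∑ a : Fin 3, wsum n (fun y : List (Fin 3) => g (sd σ a :: y.map (sd σ)))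
        ≤ ∑ a : Fin 3, wsum n (fun x => g (sd σ a :: x)) :=
          Finset.sum_le_sum fun a _ => ih (fun x => g (sd σ a :: x)) fun x => hg _
      _ = ∑ i ∈ Finset.univ.image (sd σ), wsum n (fun x => g (i :: x)) := by
          rw [Finset.sum_image fun a _ b _ h => ws_sd_inj σ h]
      _ ≤ ∑ i : S, wsum n (fun x => g (i :: x)) :=
          Finset.sum_le_sum_of_subset_of_nonneg (Finset.subset_univ _)
            fun i _ _ => wsum_nonneg _ _ fun x => hg _

/-- Jensen -/
theorem wsum_jensen {α : Type} [Fintype α] [Nonempty α] (s : ℝ) (hs : 1 ≤ s) (n : ℕ) (g : List α → ℝ) :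
    |wsum n g / (Fintype.card α : ℝ) ^ n| ^ s ≤
      wsum n (fun l => |g l| ^ s) / (Fintype.card α : ℝ) ^ n := by
  have hc : (0 : ℝ) < (Fintype.card α : ℝ) ^ n := by
    have : 0 < Fintype.card α := Fintype.card_pos
    positivity
  have h1 : |wsum n g / (Fintype.card α : ℝ) ^ n| ≤ ∑ w : Fin n → α, (1 / (Fintype.card α : ℝ) ^ n) * |g (List.ofFn w)| := by
    rw [abs_div, abs_of_pos hc, ← Finset.mul_sum, ← wsum_eq n (fun l => |g l|), div_eq_inv_mul, one_div]
    exact mul_le_mul_of_nonneg_left (wsum_abs n g) (by positivity)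
  have h2 : (∑ w : Fin n → α, (1 / (Fintype.card α : ℝ) ^ n) * |g (List.ofFn w)|) ^ s ≤
      ∑ w : Fin n → α, (1 / (Fintype.card α : ℝ) ^ n) * |g (List.ofFn w)| ^ s := by
    apply Real.rpow_arith_mean_le_arith_mean_rpow _ _ _ _ _ _ hs
    · intro w _; positivity
    · rw [Finset.sum_const, Finset.card_univ, nsmul_eq_mul, Fintype.card_fun, Fintype.card_fin]
      push_cast
      field_simp
    · intro w _; positivity
  refine (Real.rpow_le_rpow (abs_nonneg _) h1 (by linarith)).trans (h2.trans (le_of_eq ?_))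
  rw [← Finset.mul_sum, ← wsum_eq n (fun l => |g l| ^ s)]
  ring

/-- Hölder with exponents 4 and 4/3 -/
theorem wsum_holder {α : Type} [Fintype α] (n : ℕ) (f g : List α → ℝ) :
    |wsum n (fun l => f l * g l)| ≤
      (wsum n (fun l => |f l| ^ (4 : ℝ))) ^ (1 / 4 : ℝ) * (wsum n (fun l => |g l| ^ (4 / 3 : ℝ))) ^ (3 / 4 : ℝ) := by
  have h0 := wsum_abs n (fun l => f l * g l)
  refine h0.trans ?_
  rw [wsum_eq, wsum_eq, wsum_eq]
  have hpq : Real.HolderConjugate (4 : ℝ) (4 / 3) := by
    rw [Real.holderConjugate_iff]; norm_num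
  have h1 := Real.inner_le_Lp_mul_Lq (Finset.univ : Finset (Fin n → α)) (fun w => |f (List.ofFn w)|)
    (fun w => |g (List.ofFn w)|) hpq
  simp only [abs_abs] at h1
  have e : (1 / (4 / 3 : ℝ)) = 3 / 4 := by norm_num
  rw [e] at h1
  simpa only [abs_mul] using h1

/-- Minkowski with exponent 4/3 -/
theorem wsum_minkowski {α : Type} [Fintype α] (n : ℕ) (f g : List α → ℝ) :
    (wsum n (fun l => |f l + g l| ^ (4 / 3 : ℝ))) ^ (3 / 4 : ℝ) ≤
      (wsum n (fun l => |f l| ^ (4 / 3 : ℝ))) ^ (3 / 4 : ℝ) + (wsum n (fun l => |g l| ^ (4 / 3 : ℝ))) ^ (3 / 4 : ℝ) := by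
  rw [wsum_eq, wsum_eq, wsum_eq]
  have h1 := Real.Lp_add_le (Finset.univ : Finset (Fin n → α)) (fun w => f (List.ofFn w))
    (fun w => g (List.ofFn w)) (by norm_num : (1 : ℝ) ≤ 4 / 3)
  have e : (1 / (4 / 3 : ℝ)) = 3 / 4 := by norm_num
  rw [e] at h1
  exact h1

end Pool.Agent.SCI
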