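import Mathlib
import Pool.Agent.SCI.Defs
import Pool.Agent.SCI.WS
import Pool.Agent.SCI.GEO1
import Pool.Agent.SCI.GEO2
import Pool.Agent.SCI.MEAS
import Pool.Agent.SCI.CDF

/-! Test functions of one variable and the lower bound for ρ(p) (module TEST of project SCI). -/

set_option autoImplicit false

namespace Pool.Agent.SCI

open MeasureTheory Filter Topology

/-- the weight of a word: the product of the weights of its first digits -/
noncomputable def test_om (a b : ℝ) (w : List S) : ℝ :=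
  (w.map (fun i => if i.1.1 = 1 then b else a)).prod

theorem test_om_pos (a b : ℝ) (ha : 0 < a) (hb : 0 < b) (w : List S) : 0 < test_om a b w := by
  induction w with
  | nil => simp [test_om]
  | cons i w ih =>
    unfold test_om at ih ⊢
    rw [List.map_cons, List.prod_cons]
    refine mul_pos ?_ ih
    split_ifs <;> assumption

theorem test_fst (w : List S) (z : ℝ × ℝ) : (Fl w z).1 =
    (w.map (fun i => i.1.1)).foldr (fun (i : Fin 3) x => (x + ((i : ℕ) : ℝ)) / 3) z.1 := by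
  induction w with
  | nil => rfl
  | cons i w ih =>
    rw [List.map_cons, List.foldr_cons, ← ih]
    rfl

theorem test_incr (a b : ℝ) (F : ℝ → ℝ) (hF : IsCdf a b F) (w : List S) :
    F (Fl w (1, 0)).1 - F (Fl w (0, 0)).1 = test_om a b w := by
  have h := hF.2 (w.map (fun i => i.1.1))
  rw [test_fst, test_fst]
  simp only
  rw [h, List.map_map]
  rfl

theorem test_between (w : List S) (z : ℝ × ℝ) (h0 : 0 ≤ z.1) (h1 : z.1 ≤ 1) :
    (Fl w (0, 0)).1 ≤ (Fl w z).1 ∧ (Fl w z).1 ≤ (Fl w (1, 0)).1 := by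
  have e1 := congrArg Prod.fst (Fl_formula w z)
  have e2 := congrArg Prod.fst (Fl_formula w (1, 0))
  simp only at e1 e2
  rw [e1, e2]
  constructor
  · have : 0 ≤ z.1 / 3 ^ w.length := by positivity
    linarith
  · have : z.1 / 3 ^ w.length ≤ 1 / 3 ^ w.length := by gcongr
    linarith

theorem test_ae {K : Set (ℝ × ℝ)} {m : Measure (ℝ × ℝ)} (hK : IsCarpet K)
    (hm : IsCarpetMeasure K m) : ∀ᵐ z ∂m, 0 ≤ z.1 ∧ z.1 ≤ 1 := by
  have h : ∀ᵐ z ∂m, z ∈ K := by
    rw [ae_iff]
    exact hm.onK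
  filter_upwards [h] with z hz
  have := carpet_sub hK z hz
  exact ⟨this.1, this.2.1⟩

theorem test_memLp {K : Set (ℝ × ℝ)} {m : Measure (ℝ × ℝ)} (hK : IsCarpet K)
    (hm : IsCarpetMeasure K m) (F : ℝ → ℝ) (hF : Monotone F) (p : ENNReal) :
    MemLp (fun z : ℝ × ℝ => F z.1) p m := by
  have := hm.prob
  refine MemLp.of_bound (hF.measurable.comp measurable_fst).aestronglyMeasurable
    (max |F 0| |F 1|) ?_
  filter_upwards [test_ae hK hm] with z hz
  rw [Real.norm_eq_abs]
  exact abs_le_max_abs_abs (hF hz.1) (hF hz.2)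

theorem test_int {K : Set (ℝ × ℝ)} {m : Measure (ℝ × ℝ)} (hK : IsCarpet K)
    (hm : IsCarpetMeasure K m) (F : ℝ → ℝ) (hF : Monotone F) :
    Integrable (fun z : ℝ × ℝ => F z.1) m :=
  memLp_one_iff_integrable.1 (test_memLp hK hm F hF 1)

theorem test_Mn {K : Set (ℝ × ℝ)} {m : Measure (ℝ × ℝ)} (hK : IsCarpet K)
    (hm : IsCarpetMeasure K m) (F : ℝ → ℝ) (hF : Monotone F) (n : ℕ) (w : W n) :
    F (Fl (List.ofFn w) (0, 0)).1 ≤ Mn K m n (fun z => F z.1) w ∧
    Mn K m n (fun z => F z.1) w ≤ F (Fl (List.ofFn w) (1, 0)).1 := by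
  have := hm.prob
  have hi := test_int hK hm F hF
  have hi2 := comp_integrable hK hm _ hi (List.ofFn w)
  rw [Mn_eq hK hm _ hi]
  constructor
  · calc F (Fl (List.ofFn w) (0, 0)).1 = ∫ _z, F (Fl (List.ofFn w) (0, 0)).1 ∂m := by simp
      _ ≤ _ := by
        refine integral_mono_ae (integrable_const _) hi2 ?_
        filter_upwards [test_ae hK hm] with z hz
        exact hF (test_between _ z hz.1 hz.2).1
  · calc (∫ z, F (Fl (List.ofFn w) z).1 ∂m) ≤ ∫ _z, F (Fl (List.ofFn w) (1, 0)).1 ∂m := by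
            refine integral_mono_ae hi2 (integrable_const _) ?_
            filter_upwards [test_ae hK hm] with z hz
            exact hF (test_between _ z hz.1 hz.2).2
      _ = _ := by simp

theorem test_sumS (a b p : ℝ) : ∑ i : S, (if i.1.1 = 1 then b else a) ^ p
    = 6 * a ^ p + 2 * b ^ p := by
  have h : (Finset.univ : Finset S) = {⟨(0, 0), by decide⟩, ⟨(1, 0), by decide⟩, ⟨(2, 0), by decide⟩,
      ⟨(0, 1), by decide⟩, ⟨(2, 1), by decide⟩, ⟨(0, 2), by decide⟩, ⟨(1, 2), by decide⟩, ⟨(2, 2), by decide⟩} := by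
    decide
  rw [h]
  repeat rw [Finset.sum_insert (by decide)]
  rw [Finset.sum_singleton]
  simp only [Fin.isValue, reduceIte, show ((0 : Fin 3) = 1) = False by decide,
    show ((2 : Fin 3) = 1) = False by decide]
  ring

theorem test_sum (a b p : ℝ) (ha : 0 < a) (hb : 0 < b) (n : ℕ) :
    wsum n (fun w => (test_om a b w) ^ p) = (6 * a ^ p + 2 * b ^ p) ^ n := by
  induction n with
  | zero => simp [wsum, test_om]
  | succ n ih =>
    have h1 : ∀ (i : S), wsum n (fun l => (test_om a b (i :: l)) ^ p)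
        = (if i.1.1 = 1 then b else a) ^ p * (6 * a ^ p + 2 * b ^ p) ^ n := by
      intro i
      rw [← ih, ← wsum_mul]
      congr 1
      funext l
      have h2 : test_om a b (i :: l) = (if i.1.1 = 1 then b else a) * test_om a b l := by
        unfold test_om
        rw [List.map_cons, List.prod_cons]
      rw [h2, Real.mul_rpow _ (test_om_pos a b ha hb l).le]
      split_ifs <;> exact le_of_lt (by assumption)
    show ∑ i : S, wsum n (fun l => (test_om a b (i :: l)) ^ p) = _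
    simp_rw [h1]
    rw [← Finset.sum_mul, test_sumS, pow_succ]
    ring

theorem test_adj_symm {K : Set (ℝ × ℝ)} {n : ℕ} {v w : W n} (h : adj K v w) : adj K w v := by
  refine ⟨h.1.symm, ?_⟩
  rw [Set.inter_comm]
  exact h.2

theorem test_diff {K : Set (ℝ × ℝ)} {m : Measure (ℝ × ℝ)} (hK : IsCarpet K)
    (hm : IsCarpetMeasure K m) (p : ℝ) (hp : 1 < p) (a b : ℝ) (ha : 0 < a) (hb : 0 < b)
    (F : ℝ → ℝ) (hF : IsCdf a b F) (n : ℕ) (v w : W n) (h : adj K v w) :
    |Mn K m n (fun z => F z.1) v - Mn K m n (fun z => F z.1) w| ^ p ≤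
      2 ^ p * (test_om a b (List.ofFn v) ^ p + test_om a b (List.ofFn w) ^ p) := by
  obtain ⟨c, h1, h2, h3, h4⟩ := adj_interval hK n v w h
  have hv := test_Mn hK hm F hF.1 n v
  have hw := test_Mn hK hm F hF.1 n w
  have iv := test_incr a b F hF (List.ofFn v)
  have iw := test_incr a b F hF (List.ofFn w)
  have m1 := hF.1 h1
  have m2 := hF.1 h2
  have m3 := hF.1 h3
  have m4 := hF.1 h4
  have pv := test_om_pos a b ha hb (List.ofFn v)
  have pw := test_om_pos a b ha hb (List.ofFn w)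
  set x := test_om a b (List.ofFn v)
  set y := test_om a b (List.ofFn w)
  have hd : |Mn K m n (fun z => F z.1) v - Mn K m n (fun z => F z.1) w| ≤ x + y := by
    rw [abs_le]; constructor <;> linarith
  have hxy : x + y ≤ 2 * max x y := by
    have := le_max_left x y
    have := le_max_right x y
    linarith
  have hmax : (max x y) ^ p ≤ x ^ p + y ^ p := by
    rcases max_cases x y with ⟨h, _⟩ | ⟨h, _⟩
    · rw [h]
      have := Real.rpow_nonneg pw.le p
      linarith
    · rw [h]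
      have := Real.rpow_nonneg pv.le p
      linarith
  have hp0 : 0 ≤ p := by linarith
  calc |Mn K m n (fun z => F z.1) v - Mn K m n (fun z => F z.1) w| ^ p ≤ (2 * max x y) ^ p :=
        Real.rpow_le_rpow (abs_nonneg _) (hd.trans hxy) hp0
    _ = 2 ^ p * (max x y) ^ p := Real.mul_rpow (by norm_num) (le_max_of_le_left pv.le)
    _ ≤ _ := by gcongr

theorem test_energy {K : Set (ℝ × ℝ)} {m : Measure (ℝ × ℝ)} (hK : IsCarpet K)
    (hm : IsCarpetMeasure K m) (p : ℝ) (hp : 1 < p) (a b : ℝ) (ha : 0 < a) (hb : 0 < b)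
    (F : ℝ → ℝ) (hF : IsCdf a b F) (n : ℕ) :
    energy K p n (Mn K m n (fun z => F z.1)) ≤ 2 ^ p * 8 * (6 * a ^ p + 2 * b ^ p) ^ n := by
  classical
  have hsum : ∑ v : W n, test_om a b (List.ofFn v) ^ p = (6 * a ^ p + 2 * b ^ p) ^ n := by
    rw [← test_sum a b p ha hb n, wsum_eq]
  have hpos : ∀ v : W n, 0 ≤ test_om a b (List.ofFn v) ^ p := fun v =>
    Real.rpow_nonneg (test_om_pos a b ha hb _).le p
  have h1 : ∀ v : W n, ∑ w : W n, (if adj K v w then test_om a b (List.ofFn v) ^ p else 0)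
      ≤ 8 * test_om a b (List.ofFn v) ^ p := by
    intro v
    rw [← Finset.sum_filter, Finset.sum_const, nsmul_eq_mul]
    have h2 := deg_le hK n v
    rw [Set.ncard_eq_toFinset_card'] at h2
    have h3 : (Finset.univ.filter (fun w : W n => adj K v w)).card ≤ 8 := by
      convert h2 using 2
      ext w
      simp
    have h4 : ((Finset.univ.filter (fun w : W n => adj K v w)).card : ℝ) ≤ 8 := by
      exact_mod_cast h3
    exact mul_le_mul_of_nonneg_right h4 (hpos v)
  have h5 : ∑ v : W n, ∑ w : W n, (if adj K v w then test_om a b (List.ofFn v) ^ p else 0)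
      ≤ 8 * (6 * a ^ p + 2 * b ^ p) ^ n := by
    rw [← hsum, Finset.mul_sum]
    exact Finset.sum_le_sum fun v _ => h1 v
  have h6 : ∑ v : W n, ∑ w : W n, (if adj K v w then test_om a b (List.ofFn w) ^ p else 0)
      = ∑ v : W n, ∑ w : W n, (if adj K v w then test_om a b (List.ofFn v) ^ p else 0) := by
    rw [Finset.sum_comm]
    refine Finset.sum_congr rfl fun v _ => Finset.sum_congr rfl fun w _ => ?_
    by_cases h : adj K v w
    · rw [if_pos h, if_pos (test_adj_symm h)]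
    · rw [if_neg h, if_neg (fun h' => h (test_adj_symm h'))]
  have h7 : ∑ v : W n, ∑ w : W n,
      (if adj K v w then |Mn K m n (fun z => F z.1) v - Mn K m n (fun z => F z.1) w| ^ p else 0)
      ≤ 2 ^ p * (∑ v : W n, ∑ w : W n, (if adj K v w then test_om a b (List.ofFn v) ^ p else 0)
        + ∑ v : W n, ∑ w : W n, (if adj K v w then test_om a b (List.ofFn w) ^ p else 0)) := by
    rw [← Finset.sum_add_distrib, Finset.mul_sum]
    refine Finset.sum_le_sum fun v _ => ?_
    rw [← Finset.sum_add_distrib, Finset.mul_sum]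
    refine Finset.sum_le_sum fun w _ => ?_
    by_cases h : adj K v w
    · rw [if_pos h, if_pos h, if_pos h]
      exact test_diff hK hm p hp a b ha hb F hF n v w h
    · rw [if_neg h, if_neg h, if_neg h]
      simp
  rw [h6] at h7
  have h8 : (0 : ℝ) < 2 ^ p := Real.rpow_pos_of_pos (by norm_num) p
  unfold energy
  calc _ ≤ (1 / 2) * (2 ^ p * (8 * (6 * a ^ p + 2 * b ^ p) ^ n + 8 * (6 * a ^ p + 2 * b ^ p) ^ n)) := by
        refine mul_le_mul_of_nonneg_left (le_trans (le_of_eq ?_) (h7.trans ?_)) (by norm_num)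
        · refine Finset.sum_congr rfl fun v _ => Finset.sum_congr rfl fun w _ => ?_
          congr
        · exact mul_le_mul_of_nonneg_left (add_le_add h5 h5) h8.le
    _ = _ := by ring

theorem test_mem {K : Set (ℝ × ℝ)} {m : Measure (ℝ × ℝ)} (hK : IsCarpet K) (hm : IsCarpetMeasure K m)
    (p : ℝ) (hp : 1 < p) (a b : ℝ) (ha : 0 < a) (hb : 0 < b) (hab : 2 * a + b = 1)
    (F : ℝ → ℝ) (hF : IsCdf a b F) :
    Mem K m p (1 / (6 * a ^ p + 2 * b ^ p)) (fun z => F z.1) := by
  refine ⟨test_memLp hK hm F hF.1 _, 2 ^ p * 8, fun n => ?_⟩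
  have h1 := test_energy hK hm p hp a b ha hb F hF n
  have h2 : 0 < 6 * a ^ p + 2 * b ^ p := by positivity
  calc _ ≤ (1 / (6 * a ^ p + 2 * b ^ p)) ^ n * (2 ^ p * 8 * (6 * a ^ p + 2 * b ^ p) ^ n) :=
        mul_le_mul_of_nonneg_left h1 (by positivity)
    _ = 2 ^ p * 8 := by
        rw [div_pow, one_pow]
        field_simp

theorem test_nonconst {K : Set (ℝ × ℝ)} {m : Measure (ℝ × ℝ)} (hK : IsCarpet K) (hm : IsCarpetMeasure K m)
    (a b : ℝ) (ha : 0 < a) (hb : 0 < b) (hab : 2 * a + b = 1)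
    (F : ℝ → ℝ) (hF : IsCdf a b F) (c : ℝ) : ¬ (fun z : ℝ × ℝ => F z.1) =ᵐ[m] fun _ => c := by
  intro hc
  have := hm.prob
  have h1 : ∀ w : W 1, Mn K m 1 (fun z => F z.1) w = c := by
    intro w
    have h2 : Mn K m 1 (fun z => F z.1) w = Mn K m 1 (fun _ => c) w := by
      unfold Mn
      congr 1
      exact integral_congr_ae (ae_restrict_of_ae hc)
    rw [h2, Mn_eq hK hm _ (integrable_const c)]
    simp
  have h3 := (test_Mn hK hm F hF.1 1 (fun _ => ⟨(0, 0), by decide⟩)).2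
  have h4 := (test_Mn hK hm F hF.1 1 (fun _ => ⟨(2, 0), by decide⟩)).1
  rw [h1] at h3 h4
  have e1 : (Fl (List.ofFn (fun _ : Fin 1 => (⟨(0, 0), by decide⟩ : S))) (1, 0)).1 = 1 / 3 := by
    simp [Fl, Fi]
  have e2 : (Fl (List.ofFn (fun _ : Fin 1 => (⟨(2, 0), by decide⟩ : S))) (0, 0)).1 = 2 / 3 := by
    simp [Fl, Fi]
  rw [e1] at h3
  rw [e2] at h4
  have h5 := hF.2 [1]
  simp only [List.foldr_cons, List.foldr_nil, List.map_cons, List.map_nil, List.prod_cons,
    List.prod_nil, if_true, mul_one] at h5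
  have e3 : ((1 : ℝ) + (((1 : Fin 3) : ℕ) : ℝ)) / 3 = 2 / 3 := by norm_num
  have e4 : ((0 : ℝ) + (((1 : Fin 3) : ℕ) : ℝ)) / 3 = 1 / 3 := by norm_num
  rw [e3, e4] at h5
  linarith

theorem rho_ge {K : Set (ℝ × ℝ)} {m : Measure (ℝ × ℝ)} (hK : IsCarpet K) (hm : IsCarpetMeasure K m)
    (p ρ : ℝ) (hp : 1 < p) (h : IsRho K m p ρ) (a b : ℝ) (ha : 0 < a) (hb : 0 < b) (hab : 2 * a + b = 1) :
    1 / (6 * a ^ p + 2 * b ^ p) ≤ ρ := by
  by_contra hcon
  rw [not_le] at hcon
  obtain ⟨F, hF⟩ := exists_cdf a b ha hb hab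
  obtain ⟨c, hc⟩ := h.max _ hcon _ (test_mem hK hm p hp a b ha hb hab F hF)
  exact test_nonconst hK hm a b ha hb hab F hF c hc

theorem slab_le {K : Set (ℝ × ℝ)} {m : Measure (ℝ × ℝ)} (hK : IsCarpet K) (hm : IsCarpetMeasure K m)
    (p ρ : ℝ) (hp : 1 < p) (h : IsRho K m p ρ) : slab p ≤ ρ := by
  have hp1 : p - 1 ≠ 0 := by linarith
  set x := 1 / (p - 1) with hx
  set A := (3 : ℝ) ^ (-x) with hA
  set B := (2 : ℝ) ^ (-x) with hB
  have hA0 : 0 < A := Real.rpow_pos_of_pos (by norm_num) _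
  have hB0 : 0 < B := Real.rpow_pos_of_pos (by norm_num) _
  set D := 2 * A + B with hD
  have hD0 : 0 < D := by positivity
  have hxp : -x * p = -x - 1 := by
    rw [hx]; field_simp; ring
  have h1 := rho_ge hK hm p ρ hp h (A / D) (B / D) (by positivity) (by positivity) (by
    field_simp; rw [hD])
  refine le_trans (le_of_eq ?_) h1
  have e1 : (A / D) ^ p = A / 3 / D ^ p := by
    rw [Real.div_rpow hA0.le hD0.le]
    congr 1
    rw [hA, ← Real.rpow_mul (by norm_num), hxp, Real.rpow_sub (by norm_num), Real.rpow_one]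
  have e2 : (B / D) ^ p = B / 2 / D ^ p := by
    rw [Real.div_rpow hB0.le hD0.le]
    congr 1
    rw [hB, ← Real.rpow_mul (by norm_num), hxp, Real.rpow_sub (by norm_num), Real.rpow_one]
  rw [e1, e2]
  have e3 : slab p = D ^ (p - 1) := rfl
  rw [e3, Real.rpow_sub hD0, Real.rpow_one]
  have h2 : 0 < D ^ p := Real.rpow_pos_of_pos hD0 p
  have e4 : 6 * (A / 3 / D ^ p) + 2 * (B / 2 / D ^ p) = D / D ^ p := by
    rw [hD]; ring
  rw [e4, one_div_div]

end Pool.Agent.SCI
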