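import Mathlib
import Pool.Agent.SCI.Defs
import Pool.Agent.SCI.WS
import Pool.Agent.SCI.GEO2

/-! Lower bounds for the discrete energies (module EN of project SCI). -/

set_option autoImplicit false

namespace Pool.Agent.SCI

open MeasureTheory Filter Topology

theorem energy_nonneg (K : Set (ℝ × ℝ)) (p : ℝ) (n : ℕ) (u : W n → ℝ) : 0 ≤ energy K p n u := by
  unfold energy
  apply mul_nonneg (by norm_num)
  apply Finset.sum_nonneg
  intro v _
  apply Finset.sum_nonneg
  intro w _
  split_ifs
  · exact Real.rpow_nonneg (abs_nonneg _) _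
  · exact le_refl _

/-- a list as a function on Fin N -/
def enF (N : ℕ) (l : List S) : W N := fun k => l.getD k ⟨(0, 0), by decide⟩

theorem enF_spec (N : ℕ) (l : List S) (h : l.length = N) : List.ofFn (enF N l) = l := by
  apply List.ext_getElem
  · rw [List.length_ofFn, h]
  · intro k h1 h2
    rw [List.getElem_ofFn]
    simp [enF, List.getD_eq_getElem?_getD, h2]

open Classical in
theorem en_key (K : Set (ℝ × ℝ)) (U : List S → ℝ) (s : ℝ) (N : ℕ) {ι : Type} (t : Finset ι)
    (v w : ι → List S) (hv : ∀ x ∈ t, (v x).length = N) (hw : ∀ x ∈ t, (w x).length = N)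
    (hne : ∀ x ∈ t, v x ≠ w x) (hc : ∀ x ∈ t, (cell K (v x) ∩ cell K (w x)).Nonempty)
    (hinj : ∀ x ∈ t, ∀ y ∈ t, v x = v y → w x = w y → x = y) :
    ∑ x ∈ t, |U (v x) - U (w x)| ^ s ≤ 2 * energy K s N (fun w => U (List.ofFn w)) := by
  set F : W N × W N → ℝ := fun p => if adj K p.1 p.2 then |U (List.ofFn p.1) - U (List.ofFn p.2)| ^ s else 0 with hF
  have hFn : ∀ p, 0 ≤ F p := by
    intro p
    simp only [hF]
    split_ifs
    · exact Real.rpow_nonneg (abs_nonneg _) _
    · exact le_refl _
  have h1 : 2 * energy K s N (fun w => U (List.ofFn w)) = ∑ p : W N × W N, F p := by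
    rw [Fintype.sum_prod_type]
    unfold energy
    ring
  rw [h1]
  set e : ι → W N × W N := fun x => (enF N (v x), enF N (w x)) with he
  have h2 : ∀ x ∈ t, |U (v x) - U (w x)| ^ s = F (e x) := by
    intro x hx
    have a1 := enF_spec N (v x) (hv x hx)
    have a2 := enF_spec N (w x) (hw x hx)
    simp only [hF, he]
    rw [if_pos, a1, a2]
    refine ⟨?_, ?_⟩
    · intro h
      apply hne x hx
      rw [← a1, ← a2, h]
    · rw [a1, a2]; exact hc x hx
  have h3 : Set.InjOn e (t : Set ι) := by
    intro x hx y hy hxy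
    have e1 : enF N (v x) = enF N (v y) := congrArg Prod.fst hxy
    have e2 : enF N (w x) = enF N (w y) := congrArg Prod.snd hxy
    apply hinj x hx y hy
    · rw [← enF_spec N (v x) (hv x hx), ← enF_spec N (v y) (hv y hy), e1]
    · rw [← enF_spec N (w x) (hw x hx), ← enF_spec N (w y) (hw y hy), e2]
  rw [Finset.sum_congr rfl h2, ← Finset.sum_image h3]
  exact Finset.sum_le_sum_of_subset_of_nonneg (Finset.subset_univ _) fun p _ _ => hFn p

theorem en_hne (i j : S) (h : hadj i j) : i ≠ j := by
  rintro rfl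
  have := h.1
  omega

theorem en_vne (i j : S) (h : vadj i j) : i ≠ j := by
  rintro rfl
  have := h.1
  omega

theorem ring_le {K : Set (ℝ × ℝ)} (hK : IsCarpet K) (U : List S → ℝ) (s : ℝ) (hs : 0 < s) (n : ℕ) :
    wsum n (fun l => ∑ i : S, ∑ j : S,
      if hadj i j ∨ vadj i j then |U (l ++ [i]) - U (l ++ [j])| ^ s else 0)
      ≤ 2 * energy K s (n + 1) (fun w => U (List.ofFn w)) := by
  have h1 : wsum n (fun l => ∑ i : S, ∑ j : S,
      if hadj i j ∨ vadj i j then |U (l ++ [i]) - U (l ++ [j])| ^ s else 0) =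
      ∑ p ∈ (Finset.univ : Finset (W n × S × S)).filter (fun p => hadj p.2.1 p.2.2 ∨ vadj p.2.1 p.2.2),
        |U (List.ofFn p.1 ++ [p.2.1]) - U (List.ofFn p.1 ++ [p.2.2])| ^ s := by
    rw [wsum_eq, Finset.sum_filter, Fintype.sum_prod_type]
    apply Finset.sum_congr rfl
    intro x _
    rw [Fintype.sum_prod_type]
  rw [h1]
  apply en_key K U s (n + 1) _ (fun p : W n × S × S => List.ofFn p.1 ++ [p.2.1]) (fun p => List.ofFn p.1 ++ [p.2.2])
  · intro p _; simp
  · intro p _; simp
  · intro p hp h
    rw [Finset.mem_filter] at hp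
    have h2 : p.2.1 = p.2.2 := by
      have := List.append_cancel_left h
      simpa using this
    rcases hp.2 with h3 | h3
    · exact en_hne _ _ h3 h2
    · exact en_vne _ _ h3 h2
  · intro p hp
    rw [Finset.mem_filter] at hp
    rcases hp.2 with h3 | h3
    · simpa using hcells hK (List.ofFn p.1) _ _ h3 []
    · simpa using vcells hK (List.ofFn p.1) _ _ h3 []
  · rintro ⟨x, i, j⟩ _ ⟨y, k, m⟩ _ h2 h3
    simp only at h2 h3
    have e1 := List.append_inj h2 (by simp)
    have e2 := List.append_inj h3 (by simp)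
    have e3 : x = y := List.ofFn_injective e1.1
    have e4 : i = k := by simpa using e1.2
    have e5 : j = m := by simpa using e2.2
    rw [e3, e4, e5]

theorem sideH_le {K : Set (ℝ × ℝ)} (hK : IsCarpet K) (U : List S → ℝ) (s : ℝ) (hs : 0 < s) (l : List S)
    (i j : S) (h : hadj i j) (n : ℕ) :
    wsum n (fun y : List (Fin 3) => |U (l ++ [i] ++ y.map (sd 1)) - U (l ++ [j] ++ y.map (sd 0))| ^ s)
      ≤ 2 * energy K s (l.length + 1 + n) (fun w => U (List.ofFn w)) := by
  rw [wsum_eq]
  apply en_key K U s (l.length + 1 + n) Finset.univ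
    (fun y : Fin n → Fin 3 => l ++ [i] ++ (List.ofFn y).map (sd 1)) (fun y => l ++ [j] ++ (List.ofFn y).map (sd 0))
  · intro y _; simp; omega
  · intro y _; simp; omega
  · intro y _ h2
    have e1 := List.append_inj h2 (by simp)
    have e2 := List.append_cancel_left e1.1
    exact en_hne i j h (by simpa using e2)
  · intro y _
    exact hcells hK l i j h _
  · intro x _ y _ h2 _
    have e1 := List.append_inj h2 (by simp)
    have e2 := (List.map_injective_iff.mpr (ws_sd_inj 1)) e1.2
    exact List.ofFn_injective e2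

theorem sideV_le {K : Set (ℝ × ℝ)} (hK : IsCarpet K) (U : List S → ℝ) (s : ℝ) (hs : 0 < s) (l : List S)
    (i j : S) (h : vadj i j) (n : ℕ) :
    wsum n (fun y : List (Fin 3) => |U (l ++ [i] ++ y.map (sd 3)) - U (l ++ [j] ++ y.map (sd 2))| ^ s)
      ≤ 2 * energy K s (l.length + 1 + n) (fun w => U (List.ofFn w)) := by
  rw [wsum_eq]
  apply en_key K U s (l.length + 1 + n) Finset.univ
    (fun y : Fin n → Fin 3 => l ++ [i] ++ (List.ofFn y).map (sd 3)) (fun y => l ++ [j] ++ (List.ofFn y).map (sd 2))
  · intro y _; simp; omega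
  · intro y _; simp; omega
  · intro y _ h2
    have e1 := List.append_inj h2 (by simp)
    have e2 := List.append_cancel_left e1.1
    exact en_vne i j h (by simpa using e2)
  · intro y _
    exact vcells hK l i j h _
  · intro x _ y _ h2 _
    have e1 := List.append_inj h2 (by simp)
    have e2 := (List.map_injective_iff.mpr (ws_sd_inj 3)) e1.2
    exact List.ofFn_injective e2

end Pool.Agent.SCI
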