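import Mathlib
import Pool.Agent.SCI.Defs
import Pool.Agent.SCI.GEO1
import Pool.Agent.SCI.GEO2
import Pool.Agent.SCI.MEAS
import Pool.Agent.SCI.WS

/-! Project SCI, module CONST: a function with constant cell averages is constant. -/

set_option autoImplicit false

namespace Pool.Agent.SCI

open MeasureTheory Filter Topology

/-- iterated self-similarity -/
theorem const_iter {K : Set (ℝ × ℝ)} {m : Measure (ℝ × ℝ)} (hK : IsCarpet K)
    (hm : IsCarpetMeasure K m) (h : ℝ × ℝ → ℝ) (hh : Integrable h m) (n : ℕ) :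
    ∫ z, h z ∂m = wsum n (fun l : List S => ∫ z, h (Fl l z) ∂m) / 8 ^ n := by
  induction n with
  | zero => simp [wsum, Fl]
  | succ n ih =>
    rw [ih, wsum_snoc, pow_succ, mul_comm ((8:ℝ) ^ n), ← div_div]
    congr 1
    have h1 : (fun l : List S => ∫ z, h (Fl l z) ∂m)
        = fun l : List S => (1 / 8) * ∑ i : S, ∫ z, h (Fl (l ++ [i]) z) ∂m := by
      funext l
      rw [mart_eq hK hm h hh l]
      ring
    rw [h1, wsum_mul]
    ring

theorem const_dist {K : Set (ℝ × ℝ)} (hK : IsCarpet K) (l : List S) (z z' : ℝ × ℝ) (hz : z ∈ K)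
    (hz' : z' ∈ K) : dist (Fl l z) (Fl l z') ≤ (1 / 3 : ℝ) ^ l.length := by
  rw [Fl_formula l z, Fl_formula l z', Prod.dist_eq]
  have h1 := carpet_sub hK z hz
  have h2 := carpet_sub hK z' hz'
  have h3 : (0:ℝ) < 3 ^ l.length := by positivity
  have key : ∀ a s t : ℝ, 0 ≤ s ∧ s ≤ 1 → 0 ≤ t ∧ t ≤ 1 →
      dist (a + s / 3 ^ l.length) (a + t / 3 ^ l.length) ≤ (1 / 3 : ℝ) ^ l.length := by
    intro a s t hs ht
    rw [Real.dist_eq]
    have e1 : a + s / 3 ^ l.length - (a + t / 3 ^ l.length) = (s - t) / 3 ^ l.length := by ring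
    rw [e1, abs_div, abs_of_pos h3, one_div, inv_pow, ← one_div]
    apply div_le_div_of_nonneg_right _ h3.le
    rw [abs_le]
    constructor <;> linarith [hs.1, hs.2, ht.1, ht.2]
  exact max_le (key _ _ _ ⟨h1.1, h1.2.1⟩ ⟨h2.1, h2.2.1⟩) (key _ _ _ h1.2.2 h2.2.2)

theorem const_of {K : Set (ℝ × ℝ)} {m : Measure (ℝ × ℝ)} (hK : IsCarpet K) (hm : IsCarpetMeasure K m)
    (f : ℝ × ℝ → ℝ) (hf : Integrable f m) (c : ℝ) (h : ∀ l : List S, ∫ z, f (Fl l z) ∂m = c) :
    f =ᵐ[m] fun _ => c := by
  have := hm.prob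
  have hmK : ∀ᵐ z ∂m, z ∈ K := hm.onK
  have hfc : Integrable (fun z => f z - c) m := hf.sub (integrable_const c)
  have key : ∀ ε : ℝ, 0 < ε → ∫ z, |f z - c| ∂m ≤ 3 * ε := by
    intro ε hε
    obtain ⟨g, hgs, hgf, hgc, hgi⟩ := hf.exists_hasCompactSupport_integral_sub_le hε
    have hgu : UniformContinuous g := hgs.uniformContinuous_of_continuous hgc
    obtain ⟨δ, hδ, hgδ⟩ := Metric.uniformContinuous_iff.1 hgu ε hε
    obtain ⟨n, hn⟩ := exists_pow_lt_of_lt_one hδ (by norm_num : (1 / 3 : ℝ) < 1)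
    have hfg : Integrable (fun z => f z - g z) m := hf.sub hgi
    have hgc' : Integrable (fun z => g z - c) m := hgi.sub (integrable_const c)
    -- estimate on a cell
    have hcell : ∀ l : List S, l.length = n →
        (∫ z, |g (Fl l z) - c| ∂m) ≤ ε + ∫ z, |f (Fl l z) - g (Fl l z)| ∂m := by
      intro l hl
      have i1 : Integrable (fun z => f (Fl l z)) m := comp_integrable hK hm f hf l
      have i2 : Integrable (fun z => g (Fl l z)) m := comp_integrable hK hm g hgi l
      have i3 : Integrable (fun z => f (Fl l z) - g (Fl l z)) m := i1.sub i2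
      have hpt : ∀ z ∈ K, |g (Fl l z) - c| ≤ ε + ∫ z', |f (Fl l z') - g (Fl l z')| ∂m := by
        intro z hz
        have e1 : g (Fl l z) - c = (∫ z', (g (Fl l z) - g (Fl l z')) ∂m)
            - ∫ z', (f (Fl l z') - g (Fl l z')) ∂m := by
          rw [integral_sub (integrable_const _) i2, integral_sub i1 i2, h l]
          simp
        rw [e1]
        refine (abs_sub _ _).trans (add_le_add ?_ abs_integral_le_integral_abs)
        have e2 : ‖∫ z', (g (Fl l z) - g (Fl l z')) ∂m‖ ≤ ε * m.real Set.univ := by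
          apply norm_integral_le_of_norm_le_const
          filter_upwards [hmK] with z' hz'
          have h1 := const_dist hK l z z' hz hz'
          rw [hl] at h1
          have h2 := hgδ (lt_of_le_of_lt h1 hn)
          rw [Real.dist_eq] at h2
          exact h2.le
        simpa using e2
      calc (∫ z, |g (Fl l z) - c| ∂m)
          ≤ ∫ _z, (ε + ∫ z', |f (Fl l z') - g (Fl l z')| ∂m) ∂m := by
            apply integral_mono_ae (i2.sub (integrable_const c)).abs (integrable_const _)
            filter_upwards [hmK] with z hz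
            exact hpt z hz
        _ = ε + ∫ z, |f (Fl l z) - g (Fl l z)| ∂m := by simp
    have h1 : (∫ z, |g z - c| ∂m) ≤ ε + ∫ z, |f z - g z| ∂m := by
      have e1 := const_iter hK hm (fun z => |g z - c|) hgc'.abs n
      have e2 := const_iter hK hm (fun z => |f z - g z|) hfg.abs n
      rw [e1, e2]
      have h8 : (0:ℝ) < 8 ^ n := by positivity
      have e3 : wsum n (fun l : List S => ∫ z, |g (Fl l z) - c| ∂m)
          ≤ wsum n (fun l : List S => ε + ∫ z, |f (Fl l z) - g (Fl l z)| ∂m) :=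
        wsum_mono n _ _ hcell
      have e4 : wsum n (fun l : List S => ε + ∫ z, |f (Fl l z) - g (Fl l z)| ∂m)
          = 8 ^ n * ε + wsum n (fun l : List S => ∫ z, |f (Fl l z) - g (Fl l z)| ∂m) := by
        rw [wsum_add, wsum_const, card_S]
        norm_num
      rw [e4] at e3
      rw [div_le_iff₀ h8]
      have e5 : (ε + wsum n (fun l : List S => ∫ z, |f (Fl l z) - g (Fl l z)| ∂m) / 8 ^ n) * 8 ^ n
          = 8 ^ n * ε + wsum n (fun l : List S => ∫ z, |f (Fl l z) - g (Fl l z)| ∂m) := by
        field_simp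
      rw [e5]
      exact e3
    have h2 : (∫ z, |f z - g z| ∂m) ≤ ε := hgf
    have h3 : (∫ z, |f z - c| ∂m) ≤ ∫ z, (|f z - g z| + |g z - c|) ∂m := by
      apply integral_mono hfc.abs (hfg.abs.add hgc'.abs)
      intro z
      have : f z - c = (f z - g z) + (g z - c) := by ring
      simp only
      rw [this]
      exact abs_add_le _ _
    rw [integral_add hfg.abs hgc'.abs] at h3
    linarith
  have h0 : ∫ z, |f z - c| ∂m = 0 := by
    apply le_antisymm _ (integral_nonneg (fun z => abs_nonneg _))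
    apply le_of_forall_pos_le_add
    intro ε hε
    have := key (ε / 3) (by positivity)
    linarith
  rw [integral_eq_zero_iff_of_nonneg (fun z => abs_nonneg _) hfc.abs] at h0
  filter_upwards [h0] with z hz
  simp only [Pi.zero_apply, abs_eq_zero] at hz
  linarith

end Pool.Agent.SCI
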