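import Mathlib
import Pool.Agent.SCI.Defs
import Pool.Agent.SCI.WS

/-! The flow cascade (module COC of project SCI). -/

set_option autoImplicit false

namespace Pool.Agent.SCI

theorem coc_sum (f : S → ℝ) : ∑ i : S, f i =
    f ⟨(0, 0), by decide⟩ + f ⟨(1, 0), by decide⟩ + f ⟨(2, 0), by decide⟩ + f ⟨(0, 1), by decide⟩ +
    f ⟨(2, 1), by decide⟩ + f ⟨(0, 2), by decide⟩ + f ⟨(1, 2), by decide⟩ + f ⟨(2, 2), by decide⟩ := by
  have h : (Finset.univ : Finset S) = {⟨(0, 0), by decide⟩, ⟨(1, 0), by decide⟩, ⟨(2, 0), by decide⟩,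
      ⟨(0, 1), by decide⟩, ⟨(2, 1), by decide⟩, ⟨(0, 2), by decide⟩, ⟨(1, 2), by decide⟩, ⟨(2, 2), by decide⟩} := by
    decide
  rw [h]
  repeat rw [Finset.sum_insert (by decide)]
  rw [Finset.sum_singleton]
  ring

noncomputable def PX (d : ℝ × ℝ × ℝ) : ℝ :=
  120 * (d.1 ^ 4 + d.2.1 ^ 4) + 165 * (d.1 ^ 2 * d.2.1 ^ 2) + 200 * ((d.1 ^ 2 + d.2.1 ^ 2) * d.2.2 ^ 2) + 32 * d.2.2 ^ 4

theorem PX_nonneg (d : ℝ × ℝ × ℝ) : 0 ≤ PX d := by
  unfold PX; positivity

theorem coc_step00 (H V Q : ℝ) : step ⟨(0, 0), by decide⟩ (H, V, Q) =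
    (5 / 12 * H - 1 / 12 * V + 1 / 4 * Q, 5 / 12 * V - 1 / 12 * H - 1 / 4 * Q, (Q - H + V) / 12) := by
  simp [step]
theorem coc_step20 (H V Q : ℝ) : step ⟨(2, 0), by decide⟩ (H, V, Q) =
    (5 / 12 * H + 1 / 12 * V - 1 / 4 * Q, 5 / 12 * V + 1 / 12 * H - 1 / 4 * Q, (Q + H + V) / 12) := by
  simp [step]; constructor <;> [skip; constructor] <;> ring
theorem coc_step02 (H V Q : ℝ) : step ⟨(0, 2), by decide⟩ (H, V, Q) =
    (5 / 12 * H + 1 / 12 * V + 1 / 4 * Q, 5 / 12 * V + 1 / 12 * H + 1 / 4 * Q, (Q - H - V) / 12) := by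
  simp [step]; constructor <;> [skip; constructor] <;> ring
theorem coc_step22 (H V Q : ℝ) : step ⟨(2, 2), by decide⟩ (H, V, Q) =
    (5 / 12 * H - 1 / 12 * V - 1 / 4 * Q, 5 / 12 * V - 1 / 12 * H + 1 / 4 * Q, (Q + H - V) / 12) := by
  simp [step]; constructor <;> [skip; constructor] <;> ring
theorem coc_step10 (H V Q : ℝ) : step ⟨(1, 0), by decide⟩ (H, V, Q) =
    (H / 2, (V - Q) / 6, (Q - V) / 6) := by
  simp [step]
theorem coc_step12 (H V Q : ℝ) : step ⟨(1, 2), by decide⟩ (H, V, Q) =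
    (H / 2, (V + Q) / 6, (Q + V) / 6) := by
  simp [step]; constructor <;> ring
theorem coc_step01 (H V Q : ℝ) : step ⟨(0, 1), by decide⟩ (H, V, Q) =
    ((H + Q) / 6, V / 2, (Q + H) / 6) := by
  simp [step]
theorem coc_step21 (H V Q : ℝ) : step ⟨(2, 1), by decide⟩ (H, V, Q) =
    ((H - Q) / 6, V / 2, (Q - H) / 6) := by
  simp [step]; constructor <;> ring

theorem PX_step (d : ℝ × ℝ × ℝ) : ∑ i : S, PX (step i d) ≤ 531 / 2000 * PX d := by
  obtain ⟨H, V, Q⟩ := d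
  rw [coc_sum]
  simp only [coc_step00, coc_step20, coc_step02, coc_step22, coc_step10, coc_step12, coc_step01, coc_step21]
  unfold PX
  simp only
  nlinarith [sq_nonneg (H ^ 2), sq_nonneg (V ^ 2), sq_nonneg (Q ^ 2), mul_nonneg (sq_nonneg H) (sq_nonneg V),
    mul_nonneg (sq_nonneg H) (sq_nonneg Q), mul_nonneg (sq_nonneg V) (sq_nonneg Q)]

theorem PX_wsum (n : ℕ) (d : ℝ × ℝ × ℝ) :
    wsum n (fun x => PX (stepL x d)) ≤ (531 / 2000) ^ n * PX d := by
  induction n generalizing d with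
  | zero => simp [wsum, stepL]
  | succ n ih =>
    simp only [wsum, stepL]
    calc ∑ i : S, wsum n (fun l => PX (stepL l (step i d)))
        ≤ ∑ i : S, (531 / 2000) ^ n * PX (step i d) := Finset.sum_le_sum fun i _ => ih _
      _ = (531 / 2000) ^ n * ∑ i : S, PX (step i d) := by rw [Finset.mul_sum]
      _ ≤ (531 / 2000) ^ n * (531 / 2000 * PX d) := by
          apply mul_le_mul_of_nonneg_left (PX_step d) (by positivity)
      _ = (531 / 2000) ^ (n + 1) * PX d := by rw [pow_succ]; ring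

theorem pair_step (U : List S → ℝ) (r : ℝ) (B : Fin 4 → List S → ℝ) (hB : Traces U r B)
    (d : ℝ × ℝ × ℝ) (l : List S) : pair B d l = ∑ i : S, pair B (step i d) (l ++ [i]) := by
  obtain ⟨H, V, Q⟩ := d
  rw [coc_sum]
  simp only [coc_step00, coc_step20, coc_step02, coc_step22, coc_step10, coc_step12, coc_step01, coc_step21]
  unfold pair
  simp only
  have r0 := hB.refine 0 l
  have r1 := hB.refine 1 l
  have r2 := hB.refine 2 l
  have r3 := hB.refine 3 l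
  rw [Fin.sum_univ_three] at r0 r1 r2 r3
  simp only [sd] at r0 r1 r2 r3
  have m1 := hB.matchH l ⟨(0, 0), by decide⟩ ⟨(1, 0), by decide⟩ (by decide)
  have m2 := hB.matchH l ⟨(1, 0), by decide⟩ ⟨(2, 0), by decide⟩ (by decide)
  have m3 := hB.matchH l ⟨(0, 2), by decide⟩ ⟨(1, 2), by decide⟩ (by decide)
  have m4 := hB.matchH l ⟨(1, 2), by decide⟩ ⟨(2, 2), by decide⟩ (by decide)
  have m5 := hB.matchV l ⟨(0, 0), by decide⟩ ⟨(0, 1), by decide⟩ (by decide)
  have m6 := hB.matchV l ⟨(0, 1), by decide⟩ ⟨(0, 2), by decide⟩ (by decide)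
  have m7 := hB.matchV l ⟨(2, 0), by decide⟩ ⟨(2, 1), by decide⟩ (by decide)
  have m8 := hB.matchV l ⟨(2, 1), by decide⟩ ⟨(2, 2), by decide⟩ (by decide)
  rw [r0, r1, r2, r3, m1, m2, m3, m4, m5, m6, m7, m8]
  ring

theorem pair_wsum (U : List S → ℝ) (r : ℝ) (B : Fin 4 → List S → ℝ) (hB : Traces U r B)
    (n : ℕ) (d : ℝ × ℝ × ℝ) (l : List S) : pair B d l = wsum n (fun x => pair B (stepL x d) (l ++ x)) := by
  induction n generalizing d l with
  | zero => simp [wsum, stepL]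
  | succ n ih =>
    rw [pair_step U r B hB d l]
    simp only [wsum, stepL]
    apply Finset.sum_congr rfl
    intro i _
    rw [ih (step i d) (l ++ [i])]
    congr 1
    funext x
    rw [List.append_assoc]
    rfl

theorem coc_quart (x y P : ℝ) (h : (x + y) ^ 4 ≤ P) : |x + y| ≤ P ^ (1 / 4 : ℝ) := by
  have h1 : |x + y| ^ (4 : ℕ) ≤ P := by
    rw [← abs_pow, abs_of_nonneg (by positivity)]; exact h
  have h2 : (|x + y| ^ (4 : ℕ)) ^ (1 / 4 : ℝ) ≤ P ^ (1 / 4 : ℝ) :=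
    Real.rpow_le_rpow (by positivity) h1 (by norm_num)
  rw [← Real.rpow_natCast, ← Real.rpow_mul (abs_nonneg _)] at h2
  norm_num at h2
  simpa using h2

theorem pair_bound (U : List S → ℝ) (B : Fin 4 → List S → ℝ) (d : ℝ × ℝ × ℝ) (l : List S) :
    |pair B d l| ≤ (8 * PX d) ^ (1 / 4 : ℝ) * ∑ σ : Fin 4, |B σ l - U l| := by
  obtain ⟨H, V, Q⟩ := d
  have e : pair B (H, V, Q) l = (H + -Q) * (B 1 l - U l) - (H + Q) * (B 0 l - U l) + (V + Q) * (B 3 l - U l)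
      - (V + -Q) * (B 2 l - U l) := by
    unfold pair; simp only; ring
  have q : ∀ x y : ℝ, (x + y) ^ 4 ≤ 8 * (x ^ 4 + y ^ 4) := by
    intro x y
    nlinarith [sq_nonneg (x - y), sq_nonneg (x + y), sq_nonneg (x ^ 2 - y ^ 2), mul_self_nonneg (x * y),
      mul_nonneg (sq_nonneg (x - y)) (sq_nonneg (x + y)), mul_nonneg (sq_nonneg (x - y)) (sq_nonneg (x - y)),
      mul_nonneg (sq_nonneg (x - y)) (sq_nonneg x), mul_nonneg (sq_nonneg (x - y)) (sq_nonneg y)]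
  have hP : ∀ x : ℝ, (x = H ∨ x = V) → ∀ y : ℝ, (y = Q ∨ y = -Q) → (x + y) ^ 4 ≤ 8 * PX (H, V, Q) := by
    intro x hx y hy
    refine (q x y).trans ?_
    have hy4 : y ^ 4 = Q ^ 4 := by rcases hy with rfl | rfl <;> ring
    have h0 : 0 ≤ H ^ 2 * V ^ 2 := by positivity
    have h1 : 0 ≤ (H ^ 2 + V ^ 2) * Q ^ 2 := by positivity
    have h2 : 0 ≤ H ^ 4 := by positivity
    have h3 : 0 ≤ V ^ 4 := by positivity
    have h4 : 0 ≤ Q ^ 4 := by positivity
    unfold PX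
    simp only
    rcases hx with rfl | rfl <;> rw [hy4] <;> nlinarith
  have b1 := coc_quart H (-Q) _ (hP H (Or.inl rfl) (-Q) (Or.inr rfl))
  have b0 := coc_quart H Q _ (hP H (Or.inl rfl) Q (Or.inl rfl))
  have b3 := coc_quart V Q _ (hP V (Or.inr rfl) Q (Or.inl rfl))
  have b2 := coc_quart V (-Q) _ (hP V (Or.inr rfl) (-Q) (Or.inr rfl))
  rw [e, Fin.sum_univ_four]
  set A := (8 * PX (H, V, Q)) ^ (1 / 4 : ℝ)
  calc |(H + -Q) * (B 1 l - U l) - (H + Q) * (B 0 l - U l) + (V + Q) * (B 3 l - U l) - (V + -Q) * (B 2 l - U l)|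
      ≤ |(H + -Q) * (B 1 l - U l)| + |(H + Q) * (B 0 l - U l)| + |(V + Q) * (B 3 l - U l)| + |(V + -Q) * (B 2 l - U l)| := by
        refine (abs_sub _ _).trans ?_
        refine add_le_add ?_ le_rfl
        refine (abs_add_le _ _).trans ?_
        refine add_le_add ?_ le_rfl
        exact abs_sub _ _
    _ ≤ A * |B 1 l - U l| + A * |B 0 l - U l| + A * |B 3 l - U l| + A * |B 2 l - U l| := by
        rw [abs_mul, abs_mul, abs_mul, abs_mul]
        refine add_le_add (add_le_add (add_le_add ?_ ?_) ?_) ?_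
        · exact mul_le_mul_of_nonneg_right b1 (abs_nonneg _)
        · exact mul_le_mul_of_nonneg_right b0 (abs_nonneg _)
        · exact mul_le_mul_of_nonneg_right b3 (abs_nonneg _)
        · exact mul_le_mul_of_nonneg_right b2 (abs_nonneg _)
    _ = A * (|B 0 l - U l| + |B 1 l - U l| + |B 2 l - U l| + |B 3 l - U l|) := by ring

end Pool.Agent.SCI
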