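import Mathlib
import Pool.Agent.SCI.Defs
import Pool.Agent.SCI.WS

/-! Existence of the side traces (module TR of project SCI). -/

set_option autoImplicit false

namespace Pool.Agent.SCI

open MeasureTheory Filter Topology

/-- the ring energy of a word -/
noncomputable def trR (U : List S → ℝ) (l : List S) : ℝ :=
  ∑ i : S, ∑ j : S, if hadj i j ∨ vadj i j then |U (l ++ [i]) - U (l ++ [j])| ^ (4 / 3 : ℝ) else 0

theorem tr_term_nonneg (U : List S → ℝ) (l : List S) (i j : S) :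
    0 ≤ (if hadj i j ∨ vadj i j then |U (l ++ [i]) - U (l ++ [j])| ^ (4 / 3 : ℝ) else 0) := by
  split_ifs
  · exact Real.rpow_nonneg (abs_nonneg _) _
  · exact le_refl _

theorem trR_nonneg (U : List S → ℝ) (l : List S) : 0 ≤ trR U l :=
  Finset.sum_nonneg fun i _ => Finset.sum_nonneg fun j _ => tr_term_nonneg U l i j

theorem tr_pow43 (x : ℝ) (hx : 0 ≤ x) : (x ^ (3 / 4 : ℝ)) ^ (4 / 3 : ℝ) = x := by
  rw [← Real.rpow_mul hx]; norm_num

theorem tr_pow34 (x : ℝ) (hx : 0 ≤ x) : (x ^ (4 / 3 : ℝ)) ^ (3 / 4 : ℝ) = x := by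
  rw [← Real.rpow_mul hx]; norm_num

theorem tr_nb (U : List S → ℝ) (l : List S) (i j : S) (h : hadj i j ∨ vadj i j) :
    |U (l ++ [i]) - U (l ++ [j])| ≤ (trR U l) ^ (3 / 4 : ℝ) := by
  have h1 : |U (l ++ [i]) - U (l ++ [j])| ^ (4 / 3 : ℝ) ≤ trR U l := by
    have h2 : (if hadj i j ∨ vadj i j then |U (l ++ [i]) - U (l ++ [j])| ^ (4 / 3 : ℝ) else 0) ≤
        ∑ j : S, (if hadj i j ∨ vadj i j then |U (l ++ [i]) - U (l ++ [j])| ^ (4 / 3 : ℝ) else 0) :=
      Finset.single_le_sum (f := fun j : S => (if hadj i j ∨ vadj i j then |U (l ++ [i]) - U (l ++ [j])| ^ (4 / 3 : ℝ) else 0))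
        (fun j _ => tr_term_nonneg U l i j) (Finset.mem_univ j)
    have h3 : (∑ j : S, (if hadj i j ∨ vadj i j then |U (l ++ [i]) - U (l ++ [j])| ^ (4 / 3 : ℝ) else 0)) ≤ trR U l :=
      Finset.single_le_sum (f := fun i : S => ∑ j : S, (if hadj i j ∨ vadj i j then |U (l ++ [i]) - U (l ++ [j])| ^ (4 / 3 : ℝ) else 0))
        (fun i _ => Finset.sum_nonneg fun j _ => tr_term_nonneg U l i j) (Finset.mem_univ i)
    rw [if_pos h] at h2
    exact h2.trans h3
  have h4 := Real.rpow_le_rpow (Real.rpow_nonneg (abs_nonneg _) _) h1 (by norm_num : (0 : ℝ) ≤ 3 / 4)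
  rwa [tr_pow34 _ (abs_nonneg _)] at h4

/-- a function on the ring with neighbour differences at most X has differences at most 8 X -/
theorem tr_ring (f : S → ℝ) (X : ℝ) (h : ∀ i j : S, hadj i j ∨ vadj i j → |f i - f j| ≤ X) (i j : S) :
    |f i - f j| ≤ 8 * X := by
  have key : ∀ i : S, |f i - f ⟨(0, 0), by decide⟩| ≤ 4 * X := by
    have h1 := h ⟨(0, 0), by decide⟩ ⟨(1, 0), by decide⟩ (by decide)
    have h2 := h ⟨(1, 0), by decide⟩ ⟨(2, 0), by decide⟩ (by decide)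
    have h3 := h ⟨(2, 0), by decide⟩ ⟨(2, 1), by decide⟩ (by decide)
    have h4 := h ⟨(2, 1), by decide⟩ ⟨(2, 2), by decide⟩ (by decide)
    have h5 := h ⟨(0, 0), by decide⟩ ⟨(0, 1), by decide⟩ (by decide)
    have h6 := h ⟨(0, 1), by decide⟩ ⟨(0, 2), by decide⟩ (by decide)
    have h7 := h ⟨(0, 2), by decide⟩ ⟨(1, 2), by decide⟩ (by decide)
    rw [abs_le] at h1 h2 h3 h4 h5 h6 h7
    rintro ⟨⟨a, b⟩, hab⟩
    rw [abs_le]
    fin_cases a <;> fin_cases b
    · simp only [Fin.zero_eta]; constructor <;> linarith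
    · constructor
      · change -(4 * X) ≤ f ⟨(0, 1), _⟩ - f ⟨(0, 0), _⟩; linarith
      · change f ⟨(0, 1), _⟩ - f ⟨(0, 0), _⟩ ≤ 4 * X; linarith
    · constructor
      · change -(4 * X) ≤ f ⟨(0, 2), _⟩ - f ⟨(0, 0), _⟩; linarith
      · change f ⟨(0, 2), _⟩ - f ⟨(0, 0), _⟩ ≤ 4 * X; linarith
    · constructor
      · change -(4 * X) ≤ f ⟨(1, 0), _⟩ - f ⟨(0, 0), _⟩; linarith
      · change f ⟨(1, 0), _⟩ - f ⟨(0, 0), _⟩ ≤ 4 * X; linarith
    · exact absurd rfl hab
    · constructor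
      · change -(4 * X) ≤ f ⟨(1, 2), _⟩ - f ⟨(0, 0), _⟩; linarith
      · change f ⟨(1, 2), _⟩ - f ⟨(0, 0), _⟩ ≤ 4 * X; linarith
    · constructor
      · change -(4 * X) ≤ f ⟨(2, 0), _⟩ - f ⟨(0, 0), _⟩; linarith
      · change f ⟨(2, 0), _⟩ - f ⟨(0, 0), _⟩ ≤ 4 * X; linarith
    · constructor
      · change -(4 * X) ≤ f ⟨(2, 1), _⟩ - f ⟨(0, 0), _⟩; linarith
      · change f ⟨(2, 1), _⟩ - f ⟨(0, 0), _⟩ ≤ 4 * X; linarith
    · constructor
      · change -(4 * X) ≤ f ⟨(2, 2), _⟩ - f ⟨(0, 0), _⟩; linarith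
      · change f ⟨(2, 2), _⟩ - f ⟨(0, 0), _⟩ ≤ 4 * X; linarith
  have hi := key i
  have hj := key j
  rw [abs_le] at *
  constructor <;> linarith [hi.1, hi.2, hj.1, hj.2]

theorem tr_child (U : List S → ℝ) (hmart : ∀ l : List S, U l = (∑ i : S, U (l ++ [i])) / 8)
    (l : List S) (i : S) : |U (l ++ [i]) - U l| ≤ 8 * (trR U l) ^ (3 / 4 : ℝ) := by
  have hc : (Finset.univ : Finset S).card = 8 := by rfl
  have h1 : U (l ++ [i]) - U l = (∑ j : S, (U (l ++ [i]) - U (l ++ [j]))) / 8 := by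
    rw [Finset.sum_sub_distrib, hmart l, Finset.sum_const, hc]
    simp only [nsmul_eq_mul]; push_cast; ring
  rw [h1, abs_div, abs_of_pos (by norm_num : (0 : ℝ) < 8)]
  rw [div_le_iff₀ (by norm_num : (0 : ℝ) < 8)]
  calc |∑ j : S, (U (l ++ [i]) - U (l ++ [j]))| ≤ ∑ j : S, |U (l ++ [i]) - U (l ++ [j])| :=
        Finset.abs_sum_le_sum_abs _ _
    _ ≤ ∑ _j : S, 8 * (trR U l) ^ (3 / 4 : ℝ) :=
        Finset.sum_le_sum fun j _ => tr_ring (fun i => U (l ++ [i])) _ (fun i j h => tr_nb U l i j h) i j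
    _ = 8 * (trR U l) ^ (3 / 4 : ℝ) * 8 := by
        rw [Finset.sum_const, hc]; simp only [nsmul_eq_mul]; push_cast; ring

theorem tr_zero (U : List S → ℝ) (σ : Fin 4) (l : List S) : tr U σ 0 l = U l := by
  simp [tr, wsum]

theorem tr_succ_cons (U : List S → ℝ) (σ : Fin 4) (n : ℕ) (l : List S) :
    tr U σ (n + 1) l = (∑ a : Fin 3, tr U σ n (l ++ [sd σ a])) / 3 := by
  simp only [tr, wsum, List.map_cons, List.append_assoc, List.cons_append, List.nil_append]
  rw [← Finset.sum_div, pow_succ, div_div]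

theorem tr_diff (U : List S → ℝ) (σ : Fin 4) (n : ℕ) (l : List S) :
    tr U σ (n + 1) l - tr U σ n l =
      wsum n (fun y : List (Fin 3) => (∑ a : Fin 3, U (l ++ y.map (sd σ) ++ [sd σ a])) / 3
        - U (l ++ y.map (sd σ))) / 3 ^ n := by
  have h1 : wsum n (fun y : List (Fin 3) => (∑ a : Fin 3, U (l ++ y.map (sd σ) ++ [sd σ a])) / 3
        - U (l ++ y.map (sd σ))) =
      (1 / 3) * wsum n (fun y : List (Fin 3) => ∑ a : Fin 3, U (l ++ y.map (sd σ) ++ [sd σ a]))
        + (-1) * wsum n (fun y : List (Fin 3) => U (l ++ y.map (sd σ))) := by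
    rw [← wsum_mul, ← wsum_mul, ← wsum_add]
    congr 1; funext y; ring
  rw [h1]
  unfold tr
  rw [wsum_snoc]
  simp only [List.map_append, List.map_cons, List.map_nil, List.append_assoc]
  rw [pow_succ]
  field_simp
  ring

theorem tr_diff_le (U : List S → ℝ) (hmart : ∀ l : List S, U l = (∑ i : S, U (l ++ [i])) / 8)
    (σ : Fin 4) (n : ℕ) (l : List S) :
    |tr U σ (n + 1) l - tr U σ n l| ^ (4 / 3 : ℝ) ≤ 64 * wsum n (fun x => trR U (l ++ x)) / 3 ^ n := by
  rw [tr_diff]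
  have hj := wsum_jensen (α := Fin 3) (4 / 3) (by norm_num) n
    (fun y : List (Fin 3) => (∑ a : Fin 3, U (l ++ y.map (sd σ) ++ [sd σ a])) / 3 - U (l ++ y.map (sd σ)))
  simp only [Fintype.card_fin] at hj
  push_cast at hj
  refine hj.trans ?_
  apply div_le_div_of_nonneg_right _ (by positivity)
  have h1 : ∀ y : List (Fin 3), |(∑ a : Fin 3, U (l ++ y.map (sd σ) ++ [sd σ a])) / 3 - U (l ++ y.map (sd σ))| ^ (4 / 3 : ℝ)
      ≤ 64 * trR U (l ++ y.map (sd σ)) := by
    intro y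
    have hX : 0 ≤ (trR U (l ++ y.map (sd σ))) ^ (3 / 4 : ℝ) := Real.rpow_nonneg (trR_nonneg _ _) _
    have h2 : |(∑ a : Fin 3, U (l ++ y.map (sd σ) ++ [sd σ a])) / 3 - U (l ++ y.map (sd σ))|
        ≤ 8 * (trR U (l ++ y.map (sd σ))) ^ (3 / 4 : ℝ) := by
      have e0 := tr_child U hmart (l ++ y.map (sd σ)) (sd σ 0)
      have e1 := tr_child U hmart (l ++ y.map (sd σ)) (sd σ 1)
      have e2 := tr_child U hmart (l ++ y.map (sd σ)) (sd σ 2)
      rw [Fin.sum_univ_three]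
      rw [abs_le] at *
      constructor <;> linarith [e0.1, e0.2, e1.1, e1.2, e2.1, e2.2]
    have h3 := Real.rpow_le_rpow (abs_nonneg _) h2 (by norm_num : (0 : ℝ) ≤ 4 / 3)
    refine h3.trans ?_
    rw [Real.mul_rpow (by norm_num) hX, tr_pow43 _ (trR_nonneg _ _)]
    have h8 : (8 : ℝ) ^ (4 / 3 : ℝ) = 16 := by
      rw [show (8 : ℝ) = 2 ^ (3 : ℝ) by norm_num, ← Real.rpow_mul (by norm_num)]
      norm_num
    rw [h8]
    nlinarith [trR_nonneg U (l ++ y.map (sd σ))]
  calc wsum n (fun y : List (Fin 3) => |(∑ a : Fin 3, U (l ++ y.map (sd σ) ++ [sd σ a])) / 3 - U (l ++ y.map (sd σ))| ^ (4 / 3 : ℝ))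
      ≤ wsum n (fun y : List (Fin 3) => 64 * trR U (l ++ y.map (sd σ))) := wsum_mono _ _ _ fun y _ => h1 y
    _ = 64 * wsum n (fun y : List (Fin 3) => trR U (l ++ y.map (sd σ))) := wsum_mul _ _ _
    _ ≤ 64 * wsum n (fun x => trR U (l ++ x)) := by
        apply mul_le_mul_of_nonneg_left _ (by norm_num)
        exact wsum_side_le σ n (fun x => trR U (l ++ x)) fun x => trR_nonneg _ _

theorem tr_tendsto_wsum {α : Type} [Fintype α] (k : ℕ) (g : ℕ → List α → ℝ) (g0 : List α → ℝ)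
    (h : ∀ l, Tendsto (fun N => g N l) atTop (𝓝 (g0 l))) :
    Tendsto (fun N => wsum k (g N)) atTop (𝓝 (wsum k g0)) := by
  induction k generalizing g g0 with
  | zero => exact h []
  | succ k ih =>
    simp only [wsum]
    apply tendsto_finset_sum
    intro i _
    exact ih (fun N l => g N (i :: l)) (fun l => g0 (i :: l)) fun l => h (i :: l)

theorem tr_match (U : List S → ℝ) (r C : ℝ) (hr0 : 0 < r) (hr : r < 3) (σ τ : Fin 4) (l l' : List S)
    (b b' : ℝ) (hb : Tendsto (fun n => tr U σ n l) atTop (𝓝 b))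
    (hb' : Tendsto (fun n => tr U τ n l') atTop (𝓝 b'))
    (h : ∀ n : ℕ, wsum n (fun y : List (Fin 3) => |U (l ++ y.map (sd σ)) - U (l' ++ y.map (sd τ))| ^ (4 / 3 : ℝ)) ≤ C * r ^ n) :
    b = b' := by
  have h1 : ∀ n : ℕ, |tr U σ n l - tr U τ n l'| ^ (4 / 3 : ℝ) ≤ C * (r / 3) ^ n := by
    intro n
    have hj := wsum_jensen (α := Fin 3) (4 / 3) (by norm_num) n
      (fun y : List (Fin 3) => U (l ++ y.map (sd σ)) - U (l' ++ y.map (sd τ)))
    simp only [Fintype.card_fin] at hj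
    push_cast at hj
    have e : tr U σ n l - tr U τ n l' =
        wsum n (fun y : List (Fin 3) => U (l ++ y.map (sd σ)) - U (l' ++ y.map (sd τ))) / 3 ^ n := by
      have e1 : wsum n (fun y : List (Fin 3) => U (l ++ y.map (sd σ)) - U (l' ++ y.map (sd τ))) =
          wsum n (fun y : List (Fin 3) => U (l ++ y.map (sd σ))) + (-1) * wsum n (fun y : List (Fin 3) => U (l' ++ y.map (sd τ))) := by
        rw [← wsum_mul, ← wsum_add]; congr 1; funext y; ring
      rw [e1]; unfold tr; ring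
    rw [e]
    refine hj.trans ?_
    rw [div_pow, mul_div_assoc']
    exact div_le_div_of_nonneg_right (h n) (by positivity)
  have h2 : Tendsto (fun n => |tr U σ n l - tr U τ n l'| ^ (4 / 3 : ℝ)) atTop (𝓝 (|b - b'| ^ (4 / 3 : ℝ))) :=
    ((hb.sub hb').abs).rpow_const (Or.inr (by norm_num))
  have h3 : Tendsto (fun n : ℕ => C * (r / 3) ^ n) atTop (𝓝 (C * 0)) := by
    apply Tendsto.const_mul
    exact tendsto_pow_atTop_nhds_zero_of_lt_one (by positivity) (by rw [div_lt_one (by norm_num)]; exact hr)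
  have h4 : |b - b'| ^ (4 / 3 : ℝ) ≤ 0 := by
    have := le_of_tendsto_of_tendsto' h2 h3 h1
    simpa using this
  have h5 : |b - b'| = 0 := by
    by_contra hne
    have : 0 < |b - b'| := lt_of_le_of_ne (abs_nonneg _) (Ne.symm hne)
    exact absurd h4 (not_le.mpr (Real.rpow_pos_of_pos this _))
  have h6 := abs_eq_zero.mp h5
  linarith

theorem exists_traces (U : List S → ℝ) (r : ℝ) (hr0 : 0 < r) (hr : r < 3) (hU : Good U r) :
    ∃ B : Fin 4 → List S → ℝ, Traces U r B := by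
  obtain ⟨C0, hC0⟩ := hU.ring
  set C := max C0 0 with hCdef
  have hC : ∀ n : ℕ, wsum n (trR U) ≤ C * r ^ n := by
    intro n
    refine (hC0 n).trans ?_
    exact mul_le_mul_of_nonneg_right (le_max_left _ _) (by positivity)
  have hCn : 0 ≤ C := le_max_right _ _
  -- the ratio
  set q := (r / 3) ^ (3 / 4 : ℝ) with hq
  have hr3 : 0 < r / 3 := by positivity
  have hq0 : 0 < q := Real.rpow_pos_of_pos hr3 _
  have hq1 : q < 1 := Real.rpow_lt_one hr3.le (by rw [div_lt_one (by norm_num)]; exact hr) (by norm_num)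
  have hpow : ∀ (k n : ℕ), (64 * (C * r ^ (k + n)) / 3 ^ n) ^ (3 / 4 : ℝ) = (64 * C * r ^ k) ^ (3 / 4 : ℝ) * q ^ n := by
    intro k n
    have e : 64 * (C * r ^ (k + n)) / 3 ^ n = (64 * C * r ^ k) * (r / 3) ^ n := by
      rw [pow_add, div_pow]; ring
    rw [e, Real.mul_rpow (by positivity) (by positivity)]
    congr 1
    rw [hq, ← Real.rpow_natCast, ← Real.rpow_natCast, ← Real.rpow_mul hr3.le, ← Real.rpow_mul hr3.le]
    congr 1
    ring
  have hd : ∀ (σ : Fin 4) (l : List S) (n : ℕ), |tr U σ (n + 1) l - tr U σ n l| ≤ (64 * C * r ^ l.length) ^ (3 / 4 : ℝ) * q ^ n := by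
    intro σ l n
    have h1 := tr_diff_le U hU.mart σ n l
    have h2 : 64 * wsum n (fun x => trR U (l ++ x)) / 3 ^ n ≤ 64 * (C * r ^ (l.length + n)) / 3 ^ n := by
      apply div_le_div_of_nonneg_right _ (by positivity)
      apply mul_le_mul_of_nonneg_left _ (by norm_num)
      exact (wsum_desc_le n (trR U) (trR_nonneg U) l).trans (hC _)
    have h3 := Real.rpow_le_rpow (Real.rpow_nonneg (abs_nonneg _) _) (h1.trans h2) (by norm_num : (0 : ℝ) ≤ 3 / 4)
    rwa [tr_pow34 _ (abs_nonneg _), hpow] at h3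
  have hcau : ∀ (σ : Fin 4) (l : List S), ∃ b : ℝ, Tendsto (fun n => tr U σ n l) atTop (𝓝 b) := by
    intro σ l
    apply cauchySeq_tendsto_of_complete
    apply cauchySeq_of_le_geometric q ((64 * C * r ^ l.length) ^ (3 / 4 : ℝ)) hq1
    intro n
    rw [Real.dist_eq, abs_sub_comm]
    exact hd σ l n
  choose B hB using hcau
  refine ⟨B, ?_, ?_, ?_, ?_⟩
  · -- near
    refine ⟨64 * C / (1 - q) ^ (4 / 3 : ℝ), ?_⟩
    intro σ k
    have hAnn : ∀ N, 0 ≤ wsum k (fun l => |tr U σ N l - U l| ^ (4 / 3 : ℝ)) := fun N =>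
      wsum_nonneg _ _ fun l => Real.rpow_nonneg (abs_nonneg _) _
    have hA : ∀ N : ℕ, (wsum k (fun l => |tr U σ N l - U l| ^ (4 / 3 : ℝ))) ^ (3 / 4 : ℝ) ≤
        ∑ n ∈ Finset.range N, (64 * C * r ^ k) ^ (3 / 4 : ℝ) * q ^ n := by
      intro N
      induction N with
      | zero =>
        simp only [tr_zero, sub_self, abs_zero, Finset.range_zero, Finset.sum_empty]
        have e : wsum k (fun _ : List S => (0 : ℝ) ^ (4 / 3 : ℝ)) = 0 := by
          rw [wsum_const, Real.zero_rpow (by norm_num), mul_zero]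
        rw [e, Real.zero_rpow (by norm_num)]
      | succ N ih =>
        rw [Finset.sum_range_succ]
        have hm := wsum_minkowski k (fun l => tr U σ N l - U l) (fun l => tr U σ (N + 1) l - tr U σ N l)
        have e : (fun l => |tr U σ N l - U l + (tr U σ (N + 1) l - tr U σ N l)| ^ (4 / 3 : ℝ)) =
            fun l => |tr U σ (N + 1) l - U l| ^ (4 / 3 : ℝ) := by
          funext l; congr 2; ring
        rw [e] at hm
        refine hm.trans (add_le_add ih ?_)
        rw [← hpow]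
        apply Real.rpow_le_rpow (wsum_nonneg _ _ fun l => Real.rpow_nonneg (abs_nonneg _) _) _ (by norm_num)
        calc wsum k (fun l => |tr U σ (N + 1) l - tr U σ N l| ^ (4 / 3 : ℝ))
            ≤ wsum k (fun l => (64 / 3 ^ N) * wsum N (fun x => trR U (l ++ x))) := by
              apply wsum_mono
              intro l _
              refine (tr_diff_le U hU.mart σ N l).trans (le_of_eq ?_)
              ring
          _ = (64 / 3 ^ N) * wsum k (fun l => wsum N (fun x => trR U (l ++ x))) := wsum_mul _ _ _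
          _ = (64 / 3 ^ N) * wsum (k + N) (trR U) := by rw [wsum_append]
          _ ≤ (64 / 3 ^ N) * (C * r ^ (k + N)) := mul_le_mul_of_nonneg_left (hC _) (by positivity)
          _ = 64 * (C * r ^ (k + N)) / 3 ^ N := by ring
    have hA2 : ∀ N : ℕ, wsum k (fun l => |tr U σ N l - U l| ^ (4 / 3 : ℝ)) ≤ 64 * C / (1 - q) ^ (4 / 3 : ℝ) * r ^ k := by
      intro N
      have hgeo : (∑ n ∈ Finset.range N, (64 * C * r ^ k) ^ (3 / 4 : ℝ) * q ^ n) ≤ (64 * C * r ^ k) ^ (3 / 4 : ℝ) / (1 - q) := by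
        rw [← Finset.mul_sum, div_eq_mul_inv]
        apply mul_le_mul_of_nonneg_left _ (Real.rpow_nonneg (by positivity) _)
        rw [← tsum_geometric_of_lt_one hq0.le hq1]
        exact (summable_geometric_of_lt_one hq0.le hq1).sum_le_tsum _ (fun n _ => by positivity)
      have h1 := (hA N).trans hgeo
      have h2 := Real.rpow_le_rpow (Real.rpow_nonneg (hAnn N) _) h1 (by norm_num : (0 : ℝ) ≤ 4 / 3)
      rw [tr_pow43 _ (hAnn N), Real.div_rpow (Real.rpow_nonneg (by positivity) _) (by linarith),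
        tr_pow43 _ (by positivity)] at h2
      refine h2.trans (le_of_eq ?_)
      ring
    have hT : Tendsto (fun N => wsum k (fun l => |tr U σ N l - U l| ^ (4 / 3 : ℝ))) atTop
        (𝓝 (wsum k (fun l => |B σ l - U l| ^ (4 / 3 : ℝ)))) := by
      apply tr_tendsto_wsum k (fun N l => |tr U σ N l - U l| ^ (4 / 3 : ℝ))
      intro l
      exact (((hB σ l).sub_const (U l)).abs).rpow_const (Or.inr (by norm_num))
    exact le_of_tendsto' hT hA2
  · -- refine
    intro σ l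
    have h1 : Tendsto (fun n => tr U σ (n + 1) l) atTop (𝓝 (B σ l)) := (hB σ l).comp (tendsto_add_atTop_nat 1)
    have h2 : Tendsto (fun n => tr U σ (n + 1) l) atTop (𝓝 ((∑ a : Fin 3, B σ (l ++ [sd σ a])) / 3)) := by
      have e : (fun n => tr U σ (n + 1) l) = fun n => (∑ a : Fin 3, tr U σ n (l ++ [sd σ a])) / 3 := by
        funext n; exact tr_succ_cons U σ n l
      rw [e]
      apply Tendsto.div_const
      apply tendsto_finset_sum
      intro a _
      exact hB σ _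
    exact tendsto_nhds_unique h1 h2
  · intro l i j h
    obtain ⟨C1, hC1⟩ := hU.sideH l i j h
    exact tr_match U r C1 hr0 hr 1 0 (l ++ [i]) (l ++ [j]) _ _ (hB 1 _) (hB 0 _) hC1
  · intro l i j h
    obtain ⟨C1, hC1⟩ := hU.sideV l i j h
    exact tr_match U r C1 hr0 hr 3 2 (l ++ [i]) (l ++ [j]) _ _ (hB 3 _) (hB 2 _) hC1

end Pool.Agent.SCI
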