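import Mathlib
import Pool.Agent.SCI.Defs
import Pool.Agent.SCI.WS
import Pool.Agent.SCI.TR
import Pool.Agent.SCI.COC

/-! The core argument (module CORE of project SCI). -/

set_option autoImplicit false

namespace Pool.Agent.SCI

open MeasureTheory Filter Topology

theorem core_quarter (x : ℝ) (hx : 0 ≤ x) : |x ^ (1 / 4 : ℝ)| ^ (4 : ℝ) = x := by
  rw [abs_of_nonneg (Real.rpow_nonneg hx _), ← Real.rpow_mul hx]
  norm_num

theorem core_pow (x y : ℝ) (hx : 0 < x) (hy : 0 < y) (n : ℕ) :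
    (x ^ n) ^ (1 / 4 : ℝ) * (y ^ n) ^ (3 / 4 : ℝ) = ((x * y ^ 3) ^ (1 / 4 : ℝ)) ^ n := by
  rw [← Real.rpow_natCast, ← Real.rpow_natCast, ← Real.rpow_natCast, ← Real.rpow_natCast,
    ← Real.rpow_mul hx.le, ← Real.rpow_mul hy.le, ← Real.rpow_mul (by positivity),
    Real.mul_rpow hx.le (by positivity), ← Real.rpow_mul hy.le]
  congr 1
  · congr 1; ring
  · congr 1; push_cast; ring

theorem core_pair_zero (U : List S → ℝ) (r : ℝ) (hr0 : 0 < r) (hr : 531 / 2000 * r ^ 3 < 1)
    (B : Fin 4 → List S → ℝ) (hB : Traces U r B) (d : ℝ × ℝ × ℝ) (l : List S) : pair B d l = 0 := by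
  obtain ⟨C0, hC0⟩ := hB.near
  set C := max C0 0 with hCd
  have hC : ∀ (σ : Fin 4) (k : ℕ), wsum k (fun l => |B σ l - U l| ^ (4 / 3 : ℝ)) ≤ C * r ^ k := fun σ k =>
    (hC0 σ k).trans (mul_le_mul_of_nonneg_right (le_max_left _ _) (by positivity))
  have hCn : 0 ≤ C := le_max_right _ _
  set K1 : ℝ := (4 : ℝ) ^ ((4 / 3 : ℝ) - 1) * (4 * C) with hK1
  have hK1n : 0 ≤ K1 := by positivity
  have key : ∀ n : ℕ, |pair B d l| ≤ ((8 * PX d) ^ (1 / 4 : ℝ) * (K1 * r ^ l.length) ^ (3 / 4 : ℝ)) *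
      ((531 / 2000 * r ^ 3) ^ (1 / 4 : ℝ)) ^ n := by
    intro n
    set a : List S → ℝ := fun x => (8 * PX (stepL x d)) ^ (1 / 4 : ℝ) with ha
    set e : List S → ℝ := fun x => ∑ σ : Fin 4, |B σ (l ++ x) - U (l ++ x)| with he
    have hPn : ∀ x, 0 ≤ 8 * PX (stepL x d) := fun x => mul_nonneg (by norm_num) (PX_nonneg _)
    have h1 : |pair B d l| ≤ wsum n (fun x => a x * e x) := by
      rw [pair_wsum U r B hB n d l]
      refine (wsum_abs _ _).trans ?_
      apply wsum_mono
      intro x _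
      exact pair_bound U B (stepL x d) (l ++ x)
    have h2 := (h1.trans (le_abs_self _)).trans (wsum_holder n a e)
    have h3 : wsum n (fun x => |a x| ^ (4 : ℝ)) ≤ 8 * ((531 / 2000) ^ n * PX d) := by
      have : (fun x => |a x| ^ (4 : ℝ)) = fun x => 8 * PX (stepL x d) := by
        funext x; exact core_quarter _ (hPn x)
      rw [this, wsum_mul]
      exact mul_le_mul_of_nonneg_left (PX_wsum n d) (by norm_num)
    have h4 : wsum n (fun x => |e x| ^ (4 / 3 : ℝ)) ≤ K1 * r ^ (l.length + n) := by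
      have h5 : ∀ x, |e x| ^ (4 / 3 : ℝ) ≤ (4 : ℝ) ^ ((4 / 3 : ℝ) - 1) *
          (|B 0 (l ++ x) - U (l ++ x)| ^ (4 / 3 : ℝ) + |B 1 (l ++ x) - U (l ++ x)| ^ (4 / 3 : ℝ)
          + |B 2 (l ++ x) - U (l ++ x)| ^ (4 / 3 : ℝ) + |B 3 (l ++ x) - U (l ++ x)| ^ (4 / 3 : ℝ)) := by
        intro x
        have := Real.rpow_sum_le_const_mul_sum_rpow (Finset.univ : Finset (Fin 4))
          (fun σ => B σ (l ++ x) - U (l ++ x)) (by norm_num : (1 : ℝ) ≤ 4 / 3)
        rw [Finset.card_univ, Fintype.card_fin, Fin.sum_univ_four (f := fun σ => |B σ (l ++ x) - U (l ++ x)| ^ (4 / 3 : ℝ))] at this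
        rw [abs_of_nonneg (Finset.sum_nonneg fun σ _ => abs_nonneg _)]
        exact_mod_cast this
      have h6 : ∀ σ : Fin 4, wsum n (fun x => |B σ (l ++ x) - U (l ++ x)| ^ (4 / 3 : ℝ)) ≤ C * r ^ (l.length + n) := by
        intro σ
        exact (wsum_desc_le n (fun x => |B σ x - U x| ^ (4 / 3 : ℝ))
          (fun x => Real.rpow_nonneg (abs_nonneg _) _) l).trans (hC σ _)
      calc wsum n (fun x => |e x| ^ (4 / 3 : ℝ)) ≤ wsum n (fun x => (4 : ℝ) ^ ((4 / 3 : ℝ) - 1) *
          (|B 0 (l ++ x) - U (l ++ x)| ^ (4 / 3 : ℝ) + |B 1 (l ++ x) - U (l ++ x)| ^ (4 / 3 : ℝ)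
          + |B 2 (l ++ x) - U (l ++ x)| ^ (4 / 3 : ℝ) + |B 3 (l ++ x) - U (l ++ x)| ^ (4 / 3 : ℝ))) :=
            wsum_mono _ _ _ fun x _ => h5 x
        _ = (4 : ℝ) ^ ((4 / 3 : ℝ) - 1) * (wsum n (fun x => |B 0 (l ++ x) - U (l ++ x)| ^ (4 / 3 : ℝ))
            + wsum n (fun x => |B 1 (l ++ x) - U (l ++ x)| ^ (4 / 3 : ℝ))
            + wsum n (fun x => |B 2 (l ++ x) - U (l ++ x)| ^ (4 / 3 : ℝ))
            + wsum n (fun x => |B 3 (l ++ x) - U (l ++ x)| ^ (4 / 3 : ℝ))) := by
            rw [wsum_mul, wsum_add, wsum_add, wsum_add]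
        _ ≤ (4 : ℝ) ^ ((4 / 3 : ℝ) - 1) * (C * r ^ (l.length + n) + C * r ^ (l.length + n) + C * r ^ (l.length + n)
            + C * r ^ (l.length + n)) := by
            apply mul_le_mul_of_nonneg_left _ (by positivity)
            linarith [h6 0, h6 1, h6 2, h6 3]
        _ = K1 * r ^ (l.length + n) := by rw [hK1]; ring
    have h7 : (wsum n (fun x => |a x| ^ (4 : ℝ))) ^ (1 / 4 : ℝ) ≤ (8 * ((531 / 2000) ^ n * PX d)) ^ (1 / 4 : ℝ) :=
      Real.rpow_le_rpow (wsum_nonneg _ _ fun x => Real.rpow_nonneg (abs_nonneg _) _) h3 (by norm_num)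
    have h8 : (wsum n (fun x => |e x| ^ (4 / 3 : ℝ))) ^ (3 / 4 : ℝ) ≤ (K1 * r ^ (l.length + n)) ^ (3 / 4 : ℝ) :=
      Real.rpow_le_rpow (wsum_nonneg _ _ fun x => Real.rpow_nonneg (abs_nonneg _) _) h4 (by norm_num)
    refine h2.trans ((mul_le_mul h7 h8 (Real.rpow_nonneg (wsum_nonneg _ _ fun x => Real.rpow_nonneg (abs_nonneg _) _) _)
      (Real.rpow_nonneg (by have := PX_nonneg d; positivity) _)).trans (le_of_eq ?_))
    rw [← core_pow (531 / 2000) r (by norm_num) hr0 n]
    have hPd : 0 ≤ PX d := PX_nonneg d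
    rw [show 8 * ((531 / 2000 : ℝ) ^ n * PX d) = (8 * PX d) * (531 / 2000) ^ n by ring,
      show K1 * r ^ (l.length + n) = (K1 * r ^ l.length) * r ^ n by rw [pow_add]; ring,
      Real.mul_rpow (x := 8 * PX d) (y := (531 / 2000 : ℝ) ^ n) (by positivity) (by positivity),
      Real.mul_rpow (x := K1 * r ^ l.length) (y := r ^ n) (by positivity) (by positivity)]
    ring
  have hω0 : 0 ≤ (531 / 2000 * r ^ 3) ^ (1 / 4 : ℝ) := Real.rpow_nonneg (by positivity) _
  have hω1 : (531 / 2000 * r ^ 3) ^ (1 / 4 : ℝ) < 1 := Real.rpow_lt_one (by positivity) hr (by norm_num)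
  have hT : Tendsto (fun n : ℕ => ((8 * PX d) ^ (1 / 4 : ℝ) * (K1 * r ^ l.length) ^ (3 / 4 : ℝ)) *
      ((531 / 2000 * r ^ 3) ^ (1 / 4 : ℝ)) ^ n) atTop (𝓝 (((8 * PX d) ^ (1 / 4 : ℝ) * (K1 * r ^ l.length) ^ (3 / 4 : ℝ)) * 0)) :=
    (tendsto_pow_atTop_nhds_zero_of_lt_one hω0 hω1).const_mul _
  have h0 : |pair B d l| ≤ 0 := by
    have := ge_of_tendsto' hT key
    simpa using this
  exact abs_eq_zero.mp (le_antisymm h0 (abs_nonneg _))

theorem core_mart (U : List S → ℝ) (hmart : ∀ l : List S, U l = (∑ i : S, U (l ++ [i])) / 8) (n : ℕ) (l : List S) :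
    wsum n (fun x => U (l ++ x)) = 8 ^ n * U l := by
  induction n with
  | zero => simp [wsum]
  | succ n ih =>
    rw [wsum_snoc]
    have e : (fun a : List S => ∑ i : S, U (l ++ (a ++ [i]))) = fun a => 8 * U (l ++ a) := by
      funext a
      have := hmart (l ++ a)
      simp only [List.append_assoc] at this
      rw [this]; ring
    rw [e, wsum_mul, ih, pow_succ]
    ring

theorem core (U : List S → ℝ) (r : ℝ) (hr0 : 0 < r) (hr : 531 / 2000 * r ^ 3 < 1) (hU : Good U r) :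
    ∀ l : List S, U l = U [] := by
  have hr3 : r < 3 := by
    by_contra hcon
    push Not at hcon
    have : (3 : ℝ) ^ 3 ≤ r ^ 3 := pow_le_pow_left₀ (by norm_num) hcon 3
    norm_num at this
    linarith
  obtain ⟨B, hB⟩ := exists_traces U r hr0 hr3 hU
  have hz := core_pair_zero U r hr0 hr B hB
  have t1 : ∀ l, B 1 l = B 0 l := by
    intro l
    have := hz (1, 0, 0) l
    unfold pair at this
    simp only at this
    linarith
  have t3 : ∀ l, B 3 l = B 2 l := by
    intro l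
    have := hz (0, 1, 0) l
    unfold pair at this
    simp only at this
    linarith
  have t2 : ∀ l, B 2 l = B 0 l := by
    intro l
    have := hz (0, 0, 1) l
    unfold pair at this
    simp only at this
    have h1 := t1 l
    have h3 := t3 l
    linarith
  have hsib : ∀ (l : List S) (i j : S), B 0 (l ++ [i]) = B 0 (l ++ [j]) := by
    intro l i j
    have := tr_ring (fun i => B 0 (l ++ [i])) 0 (by
      intro i j h
      have e : B 0 (l ++ [i]) = B 0 (l ++ [j]) := by
        rcases h with h | h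
        · rw [← hB.matchH l i j h, t1]
        · have := hB.matchV l i j h
          rw [t3, t2, t2] at this
          exact this
      simp [e]) i j
    simp only [mul_zero] at this
    have h2 := abs_eq_zero.mp (le_antisymm this (abs_nonneg _))
    linarith
  have hstep : ∀ (l : List S) (i : S), B 0 (l ++ [i]) = B 0 l := by
    intro l i
    have := hB.refine 0 l
    rw [Fin.sum_univ_three, hsib l (sd 0 0) i, hsib l (sd 0 1) i, hsib l (sd 0 2) i] at this
    linarith
  have hconst : ∀ l : List S, B 0 l = B 0 [] := by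
    intro l
    induction l using List.reverseRecOn with
    | nil => rfl
    | append_singleton l i ih => rw [hstep l i, ih]
  obtain ⟨C, hC⟩ := hB.near
  have hnear : ∀ k : ℕ, wsum k (fun l => |U l - B 0 []| ^ (4 / 3 : ℝ)) ≤ C * r ^ k := by
    intro k
    have e : (fun l => |U l - B 0 []| ^ (4 / 3 : ℝ)) = fun l => |B 0 l - U l| ^ (4 / 3 : ℝ) := by
      funext l; rw [hconst l, abs_sub_comm]
    rw [e]
    exact hC 0 k
  have hval : ∀ l : List S, U l = B 0 [] := by
    intro l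
    have hc : (Fintype.card S : ℝ) = 8 := by
      have : Fintype.card S = 8 := by rfl
      rw [this]; norm_num
    have hb : ∀ n : ℕ, |U l - B 0 []| ^ (4 / 3 : ℝ) ≤ C * r ^ l.length * (r / 8) ^ n := by
      intro n
      have : Nonempty S := ⟨⟨(0, 0), by decide⟩⟩
      have hj := wsum_jensen (α := S) (4 / 3) (by norm_num) n (fun x => U (l ++ x) - B 0 [])
      rw [hc] at hj
      have e : wsum n (fun x => U (l ++ x) - B 0 []) / 8 ^ n = U l - B 0 [] := by
        have e1 : wsum n (fun x => U (l ++ x) - B 0 []) = wsum n (fun x => U (l ++ x)) + wsum n (fun _ : List S => -(B 0 [])) := by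
          rw [← wsum_add]; rfl
        rw [e1, core_mart U hU.mart, wsum_const, hc]
        field_simp
        ring
      rw [e] at hj
      refine hj.trans ?_
      have h2 : wsum n (fun x => |U (l ++ x) - B 0 []| ^ (4 / 3 : ℝ)) ≤ C * r ^ (l.length + n) :=
        (wsum_desc_le n (fun x => |U x - B 0 []| ^ (4 / 3 : ℝ)) (fun x => Real.rpow_nonneg (abs_nonneg _) _) l).trans (hnear _)
      rw [div_le_iff₀ (by positivity)]
      refine h2.trans (le_of_eq ?_)
      rw [pow_add, div_pow]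
      field_simp
    have hT : Tendsto (fun n : ℕ => C * r ^ l.length * (r / 8) ^ n) atTop (𝓝 (C * r ^ l.length * 0)) :=
      (tendsto_pow_atTop_nhds_zero_of_lt_one (by positivity) (by rw [div_lt_one (by norm_num)]; linarith)).const_mul _
    have h0 : |U l - B 0 []| ^ (4 / 3 : ℝ) ≤ 0 := by
      have := ge_of_tendsto' hT hb
      simpa using this
    have h5 : |U l - B 0 []| = 0 := by
      by_contra hne
      have : 0 < |U l - B 0 []| := lt_of_le_of_ne (abs_nonneg _) (Ne.symm hne)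
      exact absurd h0 (not_le.mpr (Real.rpow_pos_of_pos this _))
    have := abs_eq_zero.mp h5
    linarith
  intro l
  rw [hval l, hval []]

end Pool.Agent.SCI
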