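import Mathlib
import Pool.Agent.SCI.Defs

/-! Project SCI (MP_f5a4a4_an), module HOL: interpolation of discrete energies. -/

set_option autoImplicit false

namespace Pool.Agent.SCI

open MeasureTheory Filter Topology

theorem hol_sum {ι : Type} (I : Finset ι) (A B : ι → ℝ) (hA : ∀ i, 0 ≤ A i) (hB : ∀ i, 0 ≤ B i)
    (t : ℝ) (ht0 : 0 < t) (ht1 : t < 1) :
    ∑ i ∈ I, A i ^ (1 - t) * B i ^ t ≤ (∑ i ∈ I, A i) ^ (1 - t) * (∑ i ∈ I, B i) ^ t := by
  have h1t : 0 < 1 - t := by linarith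
  have hpq : (1 / (1 - t)).HolderConjugate (1 / t) := by
    rw [Real.holderConjugate_iff]
    refine ⟨?_, ?_⟩
    · rw [lt_div_iff₀ h1t]; linarith
    · rw [one_div, one_div, inv_inv, inv_inv]; ring
  have key := Real.inner_le_Lp_mul_Lq I (fun i => A i ^ (1 - t)) (fun i => B i ^ t) hpq
  have e1 : ∀ i, |A i ^ (1 - t)| ^ (1 / (1 - t)) = A i := by
    intro i
    rw [abs_of_nonneg (Real.rpow_nonneg (hA i) _), ← Real.rpow_mul (hA i),
      mul_one_div_cancel h1t.ne', Real.rpow_one]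
  have e2 : ∀ i, |B i ^ t| ^ (1 / t) = B i := by
    intro i
    rw [abs_of_nonneg (Real.rpow_nonneg (hB i) _), ← Real.rpow_mul (hB i),
      mul_one_div_cancel ht0.ne', Real.rpow_one]
  simp only [e1, e2] at key
  rw [one_div_one_div, one_div_one_div] at key
  exact key

theorem energy_interp (K : Set (ℝ × ℝ)) (n : ℕ) (u : W n → ℝ) (p q s t : ℝ) (ht0 : 0 < t) (ht1 : t < 1)
    (hp : 0 < p) (hq : 0 < q) (hs : s = (1 - t) * p + t * q) :
    energy K s n u ≤ (energy K p n u) ^ (1 - t) * (energy K q n u) ^ t := by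
  classical
  have h1t : 0 < 1 - t := by linarith
  have hs0 : 0 < s := by rw [hs]; positivity
  have hnn : ∀ (r : ℝ) (z : W n × W n), 0 ≤ (if adj K z.1 z.2 then |u z.1 - u z.2| ^ r else 0) := by
    intro r z
    split_ifs
    · positivity
    · exact le_rfl
  have hE : ∀ r : ℝ, energy K r n u =
      (1 / 2) * ∑ z : W n × W n, (if adj K z.1 z.2 then |u z.1 - u z.2| ^ r else 0) := by
    intro r
    unfold energy
    rw [Fintype.sum_prod_type]
  have hterm : ∀ z : W n × W n, (if adj K z.1 z.2 then |u z.1 - u z.2| ^ s else 0) =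
      (if adj K z.1 z.2 then |u z.1 - u z.2| ^ p else 0) ^ (1 - t) *
        (if adj K z.1 z.2 then |u z.1 - u z.2| ^ q else 0) ^ t := by
    intro z
    split_ifs with hz
    · rcases (abs_nonneg (u z.1 - u z.2)).eq_or_lt with h0 | h0
      · rw [← h0, Real.zero_rpow hs0.ne', Real.zero_rpow hp.ne', Real.zero_rpow hq.ne',
          Real.zero_rpow h1t.ne', zero_mul]
      · rw [← Real.rpow_mul h0.le, ← Real.rpow_mul h0.le, ← Real.rpow_add h0, hs]
        congr 1; ring
    · rw [Real.zero_rpow h1t.ne', zero_mul]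
  rw [hE s, hE p, hE q]
  simp_rw [hterm]
  have key := hol_sum (Finset.univ : Finset (W n × W n))
    (fun z => if adj K z.1 z.2 then |u z.1 - u z.2| ^ p else 0)
    (fun z => if adj K z.1 z.2 then |u z.1 - u z.2| ^ q else 0) (hnn p) (hnn q) t ht0 ht1
  have hP : 0 ≤ ∑ z : W n × W n, (if adj K z.1 z.2 then |u z.1 - u z.2| ^ p else 0) :=
    Finset.sum_nonneg fun z _ => hnn p z
  have hQ : 0 ≤ ∑ z : W n × W n, (if adj K z.1 z.2 then |u z.1 - u z.2| ^ q else 0) :=
    Finset.sum_nonneg fun z _ => hnn q z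
  rw [Real.mul_rpow (by norm_num) hP, Real.mul_rpow (by norm_num) hQ]
  have h2 : (1 / 2 : ℝ) ^ (1 - t) * (1 / 2 : ℝ) ^ t = 1 / 2 := by
    rw [← Real.rpow_add (by norm_num), sub_add_cancel, Real.rpow_one]
  generalize (∑ z : W n × W n, (if adj K z.1 z.2 then |u z.1 - u z.2| ^ p else 0)) ^ (1 - t) = P at *
  generalize (∑ z : W n × W n, (if adj K z.1 z.2 then |u z.1 - u z.2| ^ q else 0)) ^ t = Q at *
  generalize (1 / 2 : ℝ) ^ (1 - t) = x at *
  generalize (1 / 2 : ℝ) ^ t = y at *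
  have h3 : x * P * (y * Q) = (1 / 2) * (P * Q) := by rw [← h2]; ring
  rw [h3]
  exact mul_le_mul_of_nonneg_left key (by norm_num)

end Pool.Agent.SCI
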