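import Mathlib
import Pool.Agent.SCI.Defs
import Pool.Agent.SCI.WS
import Pool.Agent.SCI.MEAS
import Pool.Agent.SCI.CONST
import Pool.Agent.SCI.EN
import Pool.Agent.SCI.CORE
import Pool.Agent.SCI.HOL
import Pool.Agent.SCI.NUM
import Pool.Agent.SCI.TEST

/-! Final assembly (module FIN of project SCI). -/

set_option autoImplicit false

namespace Pool.Agent.SCI

open MeasureTheory Filter Topology

/-- the core in terms of functions on the carpet -/
theorem const_of_decay {K : Set (ℝ × ℝ)} {m : Measure (ℝ × ℝ)} (hK : IsCarpet K) (hm : IsCarpetMeasure K m)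
    (r C : ℝ) (hr0 : 0 < r) (hr : 531 / 2000 * r ^ 3 < 1) (f : ℝ × ℝ → ℝ) (hf : Integrable f m)
    (h : ∀ n : ℕ, energy K (4 / 3) n (Mn K m n f) ≤ C * r ^ n) :
    ∃ c : ℝ, f =ᵐ[m] fun _ => c := by
  set U : List S → ℝ := fun l => ∫ z, f (Fl l z) ∂m with hU
  have hE : ∀ n : ℕ, energy K (4 / 3) n (fun w => U (List.ofFn w)) ≤ C * r ^ n := by
    intro n
    have e : (fun w : W n => U (List.ofFn w)) = Mn K m n f := by
      funext w
      exact (Mn_eq hK hm f hf n w).symm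
    rw [e]
    exact h n
  have hG : Good U r := by
    refine ⟨fun l => mart_eq hK hm f hf l, ⟨2 * C * r, fun n => ?_⟩, ?_, ?_⟩
    · refine (ring_le hK U (4 / 3) (by norm_num) n).trans ?_
      refine (mul_le_mul_of_nonneg_left (hE (n + 1)) (by norm_num)).trans (le_of_eq ?_)
      rw [pow_succ]; ring
    · intro l i j hij
      refine ⟨2 * C * r ^ (l.length + 1), fun n => ?_⟩
      refine (sideH_le hK U (4 / 3) (by norm_num) l i j hij n).trans ?_
      refine (mul_le_mul_of_nonneg_left (hE (l.length + 1 + n)) (by norm_num)).trans (le_of_eq ?_)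
      rw [pow_add]; ring
    · intro l i j hij
      refine ⟨2 * C * r ^ (l.length + 1), fun n => ?_⟩
      refine (sideV_le hK U (4 / 3) (by norm_num) l i j hij n).trans ?_
      refine (mul_le_mul_of_nonneg_left (hE (l.length + 1 + n)) (by norm_num)).trans (le_of_eq ?_)
      rw [pow_add]; ring
  exact ⟨U [], const_of hK hm f hf (U []) (core U r hr0 hr hG)⟩

theorem fin_decay (ρ a E C : ℝ) (hρ : 0 < ρ) (ha : 0 < a) (hE : 0 ≤ E) (hC : 0 ≤ C) (n : ℕ) (h : ρ ^ n * E ≤ C) :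
    E ^ a ≤ C ^ a * ((ρ⁻¹) ^ a) ^ n := by
  have h1 : E ≤ C * (ρ⁻¹) ^ n := by
    rw [inv_pow, ← div_eq_mul_inv, le_div_iff₀ (by positivity)]
    linarith [mul_comm (ρ ^ n) E]
  have h2 := Real.rpow_le_rpow hE h1 ha.le
  rw [Real.mul_rpow hC (by positivity)] at h2
  refine h2.trans (le_of_eq ?_)
  congr 1
  rw [← Real.rpow_natCast, ← Real.rpow_natCast, ← Real.rpow_mul (by positivity), ← Real.rpow_mul (by positivity), mul_comm]

theorem final {K : Set (ℝ × ℝ)} {m : Measure (ℝ × ℝ)} (hK : IsCarpet K) (hm : IsCarpetMeasure K m)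
    (p q ρp ρq : ℝ) (hp : 1 < p) (hp1 : p < 4 / 3) (hq : 4 / 3 < q)
    (h1 : IsRho K m p ρp) (h2 : IsRho K m q ρq)
    (hcond : (531 / 2000 : ℝ) ^ ((q - p) / 3) < slab p ^ (q - 4 / 3) * slab q ^ (4 / 3 - p) ∨
      (p ≤ 26 / 25 ∧ 2 ≤ q) ∨ (p ≤ 11 / 10 ∧ 9 ≤ q))
    (f : ℝ × ℝ → ℝ) (hf1 : Mem K m p ρp f) (hf2 : Mem K m q ρq f) :
    ∃ c : ℝ, f =ᵐ[m] fun _ => c := by
  have hcond' : (531 / 2000 : ℝ) ^ ((q - p) / 3) < slab p ^ (q - 4 / 3) * slab q ^ (4 / 3 - p) := by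
    rcases hcond with h | ⟨h, h'⟩ | ⟨h, h'⟩
    · exact h
    · exact region1 p q hp h h'
    · exact region2 p q hp h h'
  have : IsProbabilityMeasure m := hm.prob
  have hfi : Integrable f m := by
    apply hf1.1.integrable
    rw [← ENNReal.ofReal_one]
    exact ENNReal.ofReal_le_ofReal hp.le
  have hD : 0 < q - p := by linarith
  set t := (4 / 3 - p) / (q - p) with ht
  have ht0 : 0 < t := div_pos (by linarith) hD
  have h1t : 1 - t = (q - 4 / 3) / (q - p) := by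
    rw [ht]; field_simp; ring
  have h1t0 : 0 < 1 - t := by rw [h1t]; exact div_pos (by linarith) hD
  have hs : (4 / 3 : ℝ) = (1 - t) * p + t * q := by
    rw [h1t, ht]; field_simp; ring
  obtain ⟨Cp, hCp⟩ := hf1.2
  obtain ⟨Cq, hCq⟩ := hf2.2
  set R := ρp ^ (1 - t) * ρq ^ t with hR
  have hR0 : 0 < R := mul_pos (Real.rpow_pos_of_pos h1.pos _) (Real.rpow_pos_of_pos h2.pos _)
  have hR3 : 531 / 2000 < R ^ 3 := by
    have s1 := slab_le hK hm p ρp hp h1
    have s2 := slab_le hK hm q ρq (by linarith) h2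
    have hs0 : 0 ≤ slab p := by unfold slab; positivity
    have hs1 : 0 ≤ slab q := by unfold slab; positivity
    have e1 : slab p ^ (q - 4 / 3) * slab q ^ (4 / 3 - p) ≤ ρp ^ (q - 4 / 3) * ρq ^ (4 / 3 - p) :=
      mul_le_mul (Real.rpow_le_rpow hs0 s1 (by linarith)) (Real.rpow_le_rpow hs1 s2 (by linarith))
        (Real.rpow_nonneg hs1 _) (Real.rpow_nonneg h1.pos.le _)
    have e2 : R ^ (q - p) = ρp ^ (q - 4 / 3) * ρq ^ (4 / 3 - p) := by
      rw [hR, Real.mul_rpow (Real.rpow_nonneg h1.pos.le _) (Real.rpow_nonneg h2.pos.le _), ← Real.rpow_mul h1.pos.le,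
        ← Real.rpow_mul h2.pos.le, h1t, ht]
      congr 2 <;> field_simp
    have e3 : (531 / 2000 : ℝ) ^ ((q - p) / 3) = ((531 / 2000 : ℝ) ^ (1 / 3 : ℝ)) ^ (q - p) := by
      rw [← Real.rpow_mul (by norm_num)]
      congr 1; ring
    have e4 : ((531 / 2000 : ℝ) ^ (1 / 3 : ℝ)) ^ (q - p) < R ^ (q - p) := by
      rw [← e3, e2]; exact hcond'.trans_le e1
    have e5 : (531 / 2000 : ℝ) ^ (1 / 3 : ℝ) < R :=
      (Real.rpow_lt_rpow_iff (by positivity) hR0.le hD).mp e4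
    have e6 : ((531 / 2000 : ℝ) ^ (1 / 3 : ℝ)) ^ 3 < R ^ 3 := pow_lt_pow_left₀ e5 (by positivity) (by norm_num)
    have e7 : ((531 / 2000 : ℝ) ^ (1 / 3 : ℝ)) ^ 3 = 531 / 2000 := by
      rw [← Real.rpow_natCast, ← Real.rpow_mul (by norm_num)]
      norm_num
    rwa [e7] at e6
  apply const_of_decay hK hm R⁻¹ ((max Cp 0) ^ (1 - t) * (max Cq 0) ^ t) (inv_pos.mpr hR0) ?_ f hfi
  · intro n
    have i1 := energy_interp K n (Mn K m n f) p q (4 / 3) t ht0 (by linarith) (by linarith) (by linarith) hs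
    have i2 := fin_decay ρp (1 - t) (energy K p n (Mn K m n f)) (max Cp 0) h1.pos h1t0 (energy_nonneg _ _ _ _)
      (le_max_right _ _) n ((hCp n).trans (le_max_left _ _))
    have i3 := fin_decay ρq t (energy K q n (Mn K m n f)) (max Cq 0) h2.pos ht0 (energy_nonneg _ _ _ _)
      (le_max_right _ _) n ((hCq n).trans (le_max_left _ _))
    refine i1.trans ((mul_le_mul i2 i3 (Real.rpow_nonneg (energy_nonneg _ _ _ _) _) ?_).trans (le_of_eq ?_))
    · have := h1.pos; positivity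
    · have e8 : R⁻¹ = (ρp⁻¹) ^ (1 - t) * (ρq⁻¹) ^ t := by
        rw [hR, mul_inv, Real.inv_rpow h1.pos.le, Real.inv_rpow h2.pos.le]
      rw [e8, mul_pow]
      ring
  · rw [inv_pow, ← div_eq_mul_inv, div_lt_one (by positivity)]
    exact hR3

end Pool.Agent.SCI
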