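import Mathlib
import Pool.Agent.SCI.Defs
import Pool.Agent.SCI.FIN

/-! Arbitrarily close exponents p < q with F_p ∩ F_q = constants (project SCI). -/

set_option autoImplicit false

namespace Pool.Agent.SCI

open MeasureTheory Filter Topology

/-- the space for the constant ρ(s) contains a nonconstant function -/
theorem close_nonconst {K : Set (ℝ × ℝ)} {m : Measure (ℝ × ℝ)} (hK : IsCarpet K) (hm : IsCarpetMeasure K m)
    (s r : ℝ) (hs : 1 < s) (h : IsRho K m s r) :
    ∃ f : ℝ × ℝ → ℝ, ContinuousOn f K ∧ Mem K m s r f ∧ ¬ ∃ c : ℝ, f =ᵐ[m] fun _ => c := by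
  have := hm.prob
  obtain ⟨g, hgc, hM, hd⟩ := h.dense (fun z => z.1) continuous_fst.continuousOn (1 / 8) (by norm_num)
  refine ⟨g, hgc, hM, ?_⟩
  rintro ⟨c, hc⟩
  have hi : Integrable g m := by
    apply hM.1.integrable
    rw [← ENNReal.ofReal_one]
    exact ENNReal.ofReal_le_ofReal hs.le
  have haeK : ∀ᵐ z ∂m, z ∈ K := by
    rw [ae_iff]; exact hm.onK
  have h1 : ∀ w : W 1, ∫ z, g (Fl (List.ofFn w) z) ∂m = c := by
    intro w
    rw [← Mn_eq hK hm g hi 1 w]
    have h2 : Mn K m 1 g w = Mn K m 1 (fun _ => c) w := by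
      unfold Mn
      congr 1
      exact integral_congr_ae (ae_restrict_of_ae hc)
    rw [h2, Mn_eq hK hm _ (integrable_const c)]
    simp
  have hFK : ∀ (i : S) (z : ℝ × ℝ), z ∈ K → Fi i z ∈ K := by
    intro i z hz
    rw [hK.selfsim]
    exact Set.mem_iUnion.2 ⟨i, z, hz, rfl⟩
  have h3 := h1 (fun _ => ⟨(0, 0), by decide⟩)
  have h4 := h1 (fun _ => ⟨(2, 0), by decide⟩)
  have hI : ∀ w : W 1, Integrable (fun z => g (Fl (List.ofFn w) z)) m := fun w => comp_integrable hK hm g hi _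
  have h5 : c ≤ 1 / 3 + 1 / 8 := by
    rw [← h3]
    have : (∫ z, g (Fl (List.ofFn (fun _ : Fin 1 => (⟨(0, 0), by decide⟩ : S))) z) ∂m)
        ≤ ∫ _z, (1 / 3 + 1 / 8 : ℝ) ∂m := by
      refine integral_mono_ae (hI _) (integrable_const _) ?_
      filter_upwards [haeK] with z hz
      have a1 := carpet_sub hK z hz
      have a2 := hd _ (hFK ⟨(0, 0), by decide⟩ z hz)
      have a3 := (abs_le.1 a2).1
      simp only [List.ofFn_succ, List.ofFn_zero, Fl]
      simp only [Fi] at a3 ⊢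
      norm_num at a3 ⊢
      linarith
    refine this.trans (le_of_eq ?_)
    simp
  have h6 : 2 / 3 - 1 / 8 ≤ c := by
    rw [← h4]
    have : (∫ _z, (2 / 3 - 1 / 8 : ℝ) ∂m) ≤
        (∫ z, g (Fl (List.ofFn (fun _ : Fin 1 => (⟨(2, 0), by decide⟩ : S))) z) ∂m) := by
      refine integral_mono_ae (integrable_const _) (hI _) ?_
      filter_upwards [haeK] with z hz
      have a1 := carpet_sub hK z hz
      have a2 := hd _ (hFK ⟨(2, 0), by decide⟩ z hz)
      have a3 := (abs_le.1 a2).2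
      simp only [List.ofFn_succ, List.ofFn_zero, Fl]
      simp only [Fi] at a3 ⊢
      norm_num at a3 ⊢
      linarith
    refine le_trans (le_of_eq ?_) this
    simp
  linarith

/-- interpolation: a nonconstant common element forces log-concavity of ρ at intermediate exponents -/
theorem close_mid {K : Set (ℝ × ℝ)} {m : Measure (ℝ × ℝ)} (hm : IsCarpetMeasure K m)
    (p q s t ρp ρq ρs : ℝ) (hp : 1 < p) (hq : p < q) (ht0 : 0 < t) (ht1 : t < 1) (hs : s = (1 - t) * p + t * q)
    (h1 : 0 < ρp) (h2 : 0 < ρq) (h3 : IsRho K m s ρs)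
    (f : ℝ × ℝ → ℝ) (hf1 : Mem K m p ρp f) (hf2 : Mem K m q ρq f) (hf : ¬ ∃ c : ℝ, f =ᵐ[m] fun _ => c) :
    (1 - t) * Real.log ρp + t * Real.log ρq ≤ Real.log ρs := by
  have h1t0 : 0 < 1 - t := by linarith
  obtain ⟨Cp, hCp⟩ := hf1.2
  obtain ⟨Cq, hCq⟩ := hf2.2
  set R := ρp ^ (1 - t) * ρq ^ t with hR
  have hR0 : 0 < R := mul_pos (Real.rpow_pos_of_pos h1 _) (Real.rpow_pos_of_pos h2 _)
  have hRlog : Real.log R = (1 - t) * Real.log ρp + t * Real.log ρq := by
    rw [hR, Real.log_mul (Real.rpow_pos_of_pos h1 _).ne' (Real.rpow_pos_of_pos h2 _).ne',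
      Real.log_rpow h1, Real.log_rpow h2]
  rw [← hRlog]
  by_contra hcon
  rw [not_le] at hcon
  have hlt : ρs < R := (Real.log_lt_log_iff h3.pos hR0).1 hcon
  apply hf
  refine h3.max R hlt f ⟨?_, (max Cp 0) ^ (1 - t) * (max Cq 0) ^ t, fun n => ?_⟩
  · have := hm.prob
    refine hf2.1.mono_exponent ?_
    apply ENNReal.ofReal_le_ofReal
    rw [hs]; nlinarith
  · have i1 := energy_interp K n (Mn K m n f) p q s t ht0 ht1 (by linarith) (by linarith) hs
    have i2 := fin_decay ρp (1 - t) (energy K p n (Mn K m n f)) (max Cp 0) h1 h1t0 (energy_nonneg _ _ _ _)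
      (le_max_right _ _) n ((hCp n).trans (le_max_left _ _))
    have i3 := fin_decay ρq t (energy K q n (Mn K m n f)) (max Cq 0) h2 ht0 (energy_nonneg _ _ _ _)
      (le_max_right _ _) n ((hCq n).trans (le_max_left _ _))
    have e8 : R⁻¹ = (ρp⁻¹) ^ (1 - t) * (ρq⁻¹) ^ t := by
      rw [hR, mul_inv, Real.inv_rpow h1.le, Real.inv_rpow h2.le]
    have i4 : energy K s n (Mn K m n f) ≤ (max Cp 0) ^ (1 - t) * (max Cq 0) ^ t * (R⁻¹) ^ n := by
      refine i1.trans ((mul_le_mul i2 i3 (Real.rpow_nonneg (energy_nonneg _ _ _ _) _) ?_).trans (le_of_eq ?_))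
      · positivity
      · rw [e8, mul_pow]
        ring
    calc R ^ n * energy K s n (Mn K m n f) ≤ R ^ n * ((max Cp 0) ^ (1 - t) * (max Cq 0) ^ t * (R⁻¹) ^ n) :=
          mul_le_mul_of_nonneg_left i4 (by positivity)
      _ = (max Cp 0) ^ (1 - t) * (max Cq 0) ^ t := by
          rw [inv_pow]
          have : R ^ n ≠ 0 := by positivity
          field_simp

/-- discrete concavity -/
theorem close_conc (L : ℕ → ℝ) (M : ℕ) (h : ∀ i, i + 2 ≤ M → L i + L (i + 2) ≤ 2 * L (i + 1)) (k : ℕ) (hk : k ≤ M) :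
    ((M : ℝ) - k) * L 0 + k * L M ≤ M * L k := by
  rcases hk.eq_or_lt with rfl | hkM
  · simp
  have hA : ∀ j : ℕ, j + 1 ≤ M → (j : ℝ) * (L (j + 1) - L j) ≤ L j - L 0 := by
    intro j
    induction j with
    | zero => intro _; simp
    | succ j ih =>
      intro hj
      have i1 := ih (by omega)
      have i2 := h j (by omega)
      push_cast
      have : (0 : ℝ) ≤ (j : ℝ) + 1 := by positivity
      nlinarith
  have hB : ∀ j : ℕ, k + 1 + j ≤ M → L (k + 1 + j) - L (k + j) ≤ L (k + 1) - L k ∧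
      L (k + 1 + j) - L k ≤ ((j : ℝ) + 1) * (L (k + 1) - L k) := by
    intro j
    induction j with
    | zero => intro _; simp
    | succ j ih =>
      intro hj
      obtain ⟨i1, i2⟩ := ih (by omega)
      have i3 := h (k + j) (by omega)
      have e1 : k + j + 1 = k + 1 + j := by omega
      have e2 : k + j + 2 = k + 1 + (j + 1) := by omega
      have e3 : k + (j + 1) = k + 1 + j := by omega
      rw [e1, e2] at i3
      rw [e3]
      push_cast
      constructor
      · linarith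
      · linarith
  have a := hA k (by omega)
  obtain ⟨d, rfl⟩ : ∃ d, M = k + 1 + d := ⟨M - (k + 1), by omega⟩
  have b := (hB d le_rfl).2
  push_cast
  have hk0 : (0 : ℝ) ≤ k := by positivity
  have hd0 : (0 : ℝ) ≤ (d : ℝ) + 1 := by positivity
  nlinarith [mul_le_mul_of_nonneg_left a hd0, mul_le_mul_of_nonneg_left b hk0]

/-- upper bound for ρ(4/3) -/
theorem close_rho_le {K : Set (ℝ × ℝ)} {m : Measure (ℝ × ℝ)} (hK : IsCarpet K) (hm : IsCarpetMeasure K m)
    (r : ℝ) (h : IsRho K m (4 / 3) r) : r ^ 3 ≤ 531 / 2000 := by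
  by_contra hcon
  rw [not_le] at hcon
  obtain ⟨f, -, ⟨hf1, C, hC⟩, hf⟩ := close_nonconst hK hm (4 / 3) r (by norm_num) h
  apply hf
  have := hm.prob
  have hr := h.pos
  apply const_of_decay hK hm r⁻¹ C (inv_pos.mpr hr) ?_ f ?_ ?_
  · rw [inv_pow, ← div_eq_mul_inv, div_lt_one (by positivity)]
    exact hcon
  · apply hf1.integrable
    rw [← ENNReal.ofReal_one]
    exact ENNReal.ofReal_le_ofReal (by norm_num)
  · intro n
    rw [inv_pow, ← div_eq_mul_inv, le_div_iff₀ (by positivity)]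
    linarith [hC n, mul_comm (r ^ n) (energy K (4 / 3) n (Mn K m n f))]

theorem close_pow_sum {ι : Type} (I : Finset ι) (A : ι → ℝ) (hA : ∀ i, 0 ≤ A i) (a : ℝ) (ha : 1 ≤ a) :
    ∑ i ∈ I, A i ^ a ≤ (∑ i ∈ I, A i) ^ a := by
  classical
  induction I using Finset.induction_on with
  | empty => simp [Real.zero_rpow (by linarith : a ≠ 0)]
  | insert i I hi ih =>
    rw [Finset.sum_insert hi, Finset.sum_insert hi]
    exact (add_le_add_right ih _).trans (Real.add_rpow_le_rpow_add (hA i) (Finset.sum_nonneg fun j _ => hA j) ha)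

/-- for 1 < p < q: ρ(p)^(1/p) ≤ ρ(q)^(1/q) -/
theorem close_mono {K : Set (ℝ × ℝ)} {m : Measure (ℝ × ℝ)} (hK : IsCarpet K) (hm : IsCarpetMeasure K m)
    (p q ρp ρq : ℝ) (hp : 1 < p) (hpq : p < q) (h1 : IsRho K m p ρp) (h2 : IsRho K m q ρq) :
    Real.log ρp / p ≤ Real.log ρq / q := by
  have hprob := hm.prob
  obtain ⟨f, hfc, hfm, hf⟩ := close_nonconst hK hm p ρp hp h1
  have hp0 : 0 < p := by linarith
  have hq0 : 0 < q := by linarith
  have hqp : 0 < q / p := by positivity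
  have hqp1 : 1 ≤ q / p := by rw [le_div_iff₀ hp0]; linarith
  by_contra hcon
  rw [not_le] at hcon
  have hlt : ρq < ρp ^ (q / p) := by
    rw [← Real.log_lt_log_iff h2.pos (Real.rpow_pos_of_pos h1.pos _), Real.log_rpow h1.pos]
    have := mul_lt_mul_of_pos_right hcon hq0
    rw [div_mul_cancel₀ _ hq0.ne'] at this
    calc Real.log ρq < Real.log ρp / p * q := this
      _ = q / p * Real.log ρp := by ring
  obtain ⟨C, hC⟩ := hfm.2
  have hb : ∃ B : ℝ, ∀ z ∈ K, ‖f z‖ ≤ B := hK.compact.exists_bound_of_continuousOn hfc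
  obtain ⟨B, hB⟩ := hb
  have haeK : ∀ᵐ z ∂m, z ∈ K := by
    rw [ae_iff]; exact hm.onK
  apply hf
  refine h2.max _ hlt f ⟨MemLp.of_bound hfm.1.1 B ?_, (1 / 2) * (2 * max C 0) ^ (q / p), fun n => ?_⟩
  · filter_upwards [haeK] with z hz using hB z hz
  · have key : energy K q n (Mn K m n f) ≤ (1 / 2) * (2 * energy K p n (Mn K m n f)) ^ (q / p) := by
      classical
      set u := Mn K m n f
      have hE : ∀ r : ℝ, energy K r n u =
          (1 / 2) * ∑ z : W n × W n, (if adj K z.1 z.2 then |u z.1 - u z.2| ^ r else 0) := by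
        intro r
        unfold energy
        rw [Fintype.sum_prod_type]
      rw [hE q, hE p]
      have e1 : (2 : ℝ) * ((1 / 2) * ∑ z : W n × W n, (if adj K z.1 z.2 then |u z.1 - u z.2| ^ p else 0))
          = ∑ z : W n × W n, (if adj K z.1 z.2 then |u z.1 - u z.2| ^ p else 0) := by ring
      rw [e1]
      apply mul_le_mul_of_nonneg_left _ (by norm_num)
      have hnn : ∀ z : W n × W n, 0 ≤ (if adj K z.1 z.2 then |u z.1 - u z.2| ^ p else 0) := by
        intro z
        split_ifs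
        · positivity
        · exact le_rfl
      have hterm : ∀ z : W n × W n, (if adj K z.1 z.2 then |u z.1 - u z.2| ^ q else 0) =
          (if adj K z.1 z.2 then |u z.1 - u z.2| ^ p else 0) ^ (q / p) := by
        intro z
        split_ifs
        · rw [← Real.rpow_mul (abs_nonneg _)]
          congr 1
          field_simp
        · rw [Real.zero_rpow hqp.ne']
      simp_rw [hterm]
      exact close_pow_sum _ _ hnn _ hqp1
    have hE0 := energy_nonneg K p n (Mn K m n f)
    have hn1 : ρp ^ n * (2 * energy K p n (Mn K m n f)) ≤ 2 * max C 0 := by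
      have := (hC n).trans (le_max_left C 0)
      linarith
    have hρn : 0 < ρp ^ n := pow_pos h1.pos n
    calc (ρp ^ (q / p)) ^ n * energy K q n (Mn K m n f)
        ≤ (ρp ^ (q / p)) ^ n * ((1 / 2) * (2 * energy K p n (Mn K m n f)) ^ (q / p)) :=
          mul_le_mul_of_nonneg_left key (by have := h1.pos; positivity)
      _ = (1 / 2) * (ρp ^ n * (2 * energy K p n (Mn K m n f))) ^ (q / p) := by
          rw [Real.mul_rpow hρn.le (by positivity), ← Real.rpow_natCast (ρp ^ (q / p)), ← Real.rpow_natCast ρp n,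
            ← Real.rpow_mul h1.pos.le, ← Real.rpow_mul h1.pos.le, mul_comm (q / p) (n : ℝ)]
          ring
      _ ≤ (1 / 2) * (2 * max C 0) ^ (q / p) := by
          apply mul_le_mul_of_nonneg_left _ (by norm_num)
          exact Real.rpow_le_rpow (by positivity) hn1 hqp.le

/-- for 1 < p < q: (8 ρ(q))^(1/q) ≤ (8 ρ(p))^(1/p) -/
theorem close_anti {K : Set (ℝ × ℝ)} {m : Measure (ℝ × ℝ)} (hK : IsCarpet K) (hm : IsCarpetMeasure K m)
    (p q ρp ρq : ℝ) (hp : 1 < p) (hpq : p < q) (h1 : IsRho K m p ρp) (h2 : IsRho K m q ρq) :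
    (Real.log 8 + Real.log ρq) / q ≤ (Real.log 8 + Real.log ρp) / p := by
  have hprob := hm.prob
  obtain ⟨f, -, hfm, hf⟩ := close_nonconst hK hm q ρq (by linarith) h2
  have hp0 : 0 < p := by linarith
  have hq0 : 0 < q := by linarith
  have ht0 : 0 < p / q := by positivity
  have ht1 : p / q < 1 := by rw [div_lt_one hq0]; exact hpq
  have h1t : 0 < 1 - p / q := by linarith
  by_contra hcon
  rw [not_le] at hcon
  set R := ρq ^ (p / q) * (8⁻¹ : ℝ) ^ (1 - p / q) with hR
  have hR0 : 0 < R := mul_pos (Real.rpow_pos_of_pos h2.pos _) (Real.rpow_pos_of_pos (by norm_num) _)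
  have hlt : ρp < R := by
    rw [← Real.log_lt_log_iff h1.pos hR0, hR, Real.log_mul (Real.rpow_pos_of_pos h2.pos _).ne'
      (Real.rpow_pos_of_pos (by norm_num) _).ne', Real.log_rpow h2.pos, Real.log_rpow (by norm_num), Real.log_inv]
    have := mul_lt_mul_of_pos_right hcon hp0
    rw [div_mul_cancel₀ _ hp0.ne'] at this
    have e : (Real.log 8 + Real.log ρq) / q * p = p / q * Real.log ρq + p / q * Real.log 8 := by ring
    rw [e] at this
    linarith
  obtain ⟨C, hC⟩ := hfm.2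
  apply hf
  refine h1.max R hlt f ⟨?_, (max C 0) ^ (p / q) * 4 ^ (1 - p / q), fun n => ?_⟩
  · exact hfm.1.mono_exponent (ENNReal.ofReal_le_ofReal hpq.le)
  · have key : energy K p n (Mn K m n f) ≤ (energy K q n (Mn K m n f)) ^ (p / q) * (4 * 8 ^ n) ^ (1 - p / q) := by
      classical
      set u := Mn K m n f
      have hE : ∀ r : ℝ, energy K r n u =
          (1 / 2) * ∑ z : W n × W n, (if adj K z.1 z.2 then |u z.1 - u z.2| ^ r else 0) := by
        intro r
        unfold energy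
        rw [Fintype.sum_prod_type]
      have hnn : ∀ (r : ℝ) (z : W n × W n), 0 ≤ (if adj K z.1 z.2 then |u z.1 - u z.2| ^ r else 0) := by
        intro r z
        split_ifs
        · positivity
        · exact le_rfl
      have hnn1 : ∀ z : W n × W n, 0 ≤ (if adj K z.1 z.2 then (1 : ℝ) else 0) := by
        intro z
        split_ifs <;> norm_num
      have hterm : ∀ z : W n × W n, (if adj K z.1 z.2 then |u z.1 - u z.2| ^ p else 0) =
          (if adj K z.1 z.2 then (1 : ℝ) else 0) ^ (1 - p / q) *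
          (if adj K z.1 z.2 then |u z.1 - u z.2| ^ q else 0) ^ (p / q) := by
        intro z
        split_ifs
        · rw [← Real.rpow_mul (abs_nonneg _), Real.one_rpow, one_mul]
          congr 1
          field_simp
        · rw [Real.zero_rpow ht0.ne', mul_zero]
      have hcount : ∑ z : W n × W n, (if adj K z.1 z.2 then (1 : ℝ) else 0) ≤ 8 * 8 ^ n := by
        rw [Fintype.sum_prod_type]
        have hrow : ∀ v : W n, ∑ w : W n, (if adj K v w then (1 : ℝ) else 0) ≤ 8 := by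
          intro v
          have hd := deg_le hK n v
          rw [Finset.sum_boole]
          have : (Finset.univ.filter fun w : W n => adj K v w).card = Set.ncard {w : W n | adj K v w} := by
            rw [Set.ncard_eq_toFinset_card']
            congr 1
            ext w
            simp
          rw [this]
          exact_mod_cast hd
        calc ∑ v : W n, ∑ w : W n, (if adj K v w then (1 : ℝ) else 0) ≤ ∑ _v : W n, (8 : ℝ) :=
              Finset.sum_le_sum fun v _ => hrow v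
          _ = 8 * 8 ^ n := by
              rw [Finset.sum_const, Finset.card_univ, Fintype.card_fun, card_S, Fintype.card_fin, nsmul_eq_mul]
              push_cast
              ring
      rw [hE q, hE p]
      simp_rw [hterm]
      have hh := hol_sum (Finset.univ : Finset (W n × W n)) (fun z => if adj K z.1 z.2 then (1 : ℝ) else 0)
        (fun z => if adj K z.1 z.2 then |u z.1 - u z.2| ^ q else 0) hnn1 (hnn q) (p / q) ht0 ht1
      have hQ : 0 ≤ ∑ z : W n × W n, (if adj K z.1 z.2 then |u z.1 - u z.2| ^ q else 0) :=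
        Finset.sum_nonneg fun z _ => hnn q z
      have hP : 0 ≤ ∑ z : W n × W n, (if adj K z.1 z.2 then (1 : ℝ) else 0) :=
        Finset.sum_nonneg fun z _ => hnn1 z
      have h3 := Real.rpow_le_rpow hP hcount h1t.le
      have h4 := hh.trans (mul_le_mul_of_nonneg_right h3 (Real.rpow_nonneg hQ (p / q)))
      refine (mul_le_mul_of_nonneg_left h4 (by norm_num : (0 : ℝ) ≤ 1 / 2)).trans (le_of_eq ?_)
      have e1 : (4 * 8 ^ n : ℝ) = (1 / 2) * (8 * 8 ^ n) := by ring
      have h2' : (1 / 2 : ℝ) ^ (1 - p / q) * (1 / 2 : ℝ) ^ (p / q) = 1 / 2 := by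
        rw [← Real.rpow_add (by norm_num), sub_add_cancel, Real.rpow_one]
      rw [e1, Real.mul_rpow (by norm_num) hQ, Real.mul_rpow (x := 1 / 2) (y := 8 * 8 ^ n) (by norm_num) (by positivity)]
      generalize (∑ z : W n × W n, (if adj K z.1 z.2 then |u z.1 - u z.2| ^ q else 0)) ^ (p / q) = Q at *
      generalize ((8 : ℝ) * 8 ^ n) ^ (1 - p / q) = P at *
      rw [show (1 / 2 : ℝ) ^ (p / q) * Q * ((1 / 2 : ℝ) ^ (1 - p / q) * P)
        = ((1 / 2 : ℝ) ^ (1 - p / q) * (1 / 2 : ℝ) ^ (p / q)) * (P * Q) by ring, h2']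
    have hE0 := energy_nonneg K q n (Mn K m n f)
    have hρn : 0 < ρq ^ n := pow_pos h2.pos n
    have hn1 : ρq ^ n * energy K q n (Mn K m n f) ≤ max C 0 := (hC n).trans (le_max_left C 0)
    calc R ^ n * energy K p n (Mn K m n f)
        ≤ R ^ n * ((energy K q n (Mn K m n f)) ^ (p / q) * (4 * 8 ^ n) ^ (1 - p / q)) :=
          mul_le_mul_of_nonneg_left key (by positivity)
      _ = (ρq ^ n * energy K q n (Mn K m n f)) ^ (p / q) * 4 ^ (1 - p / q) := by
          rw [hR, mul_pow, Real.mul_rpow hρn.le hE0, Real.mul_rpow (x := 4) (y := 8 ^ n) (by norm_num) (by positivity)]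
          have e1 : (ρq ^ (p / q)) ^ n = (ρq ^ n) ^ (p / q) := by
            rw [← Real.rpow_natCast, ← Real.rpow_natCast, ← Real.rpow_mul h2.pos.le, ← Real.rpow_mul h2.pos.le, mul_comm]
          have e2 : ((8⁻¹ : ℝ) ^ (1 - p / q)) ^ n * (8 ^ n) ^ (1 - p / q) = 1 := by
            rw [← Real.rpow_natCast (_ ^ (1 - p / q)), ← Real.rpow_natCast 8 n, ← Real.rpow_mul (by norm_num),
              ← Real.rpow_mul (by norm_num), mul_comm (n : ℝ), Real.inv_rpow (by norm_num)]
            exact inv_mul_cancel₀ (by positivity)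
          rw [e1]
          calc _ = (ρq ^ n) ^ (p / q) * (energy K q n (Mn K m n f)) ^ (p / q) * 4 ^ (1 - p / q) *
                (((8⁻¹ : ℝ) ^ (1 - p / q)) ^ n * (8 ^ n) ^ (1 - p / q)) := by ring
            _ = _ := by rw [e2, mul_one]
      _ ≤ (max C 0) ^ (p / q) * 4 ^ (1 - p / q) := by
          apply mul_le_mul_of_nonneg_right _ (by positivity)
          exact Real.rpow_le_rpow (by positivity) hn1 ht0.le

/-- log ρ is continuous -/
theorem close_cont {K : Set (ℝ × ℝ)} {m : Measure (ℝ × ℝ)} (hK : IsCarpet K) (hm : IsCarpetMeasure K m)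
    (ρ : ℝ → ℝ) (hρ : ∀ s, 1 < s → IsRho K m s (ρ s)) : ContinuousOn (fun s => Real.log (ρ s)) (Set.Ioi 1) := by
  have hb : ∀ x ∈ Set.Ioi (1 : ℝ), ∀ y ∈ Set.Ioi (1 : ℝ),
      |Real.log (ρ x) / x - Real.log (ρ y) / y| ≤ Real.log 8 * |1 / x - 1 / y| := by
    have H : ∀ x ∈ Set.Ioi (1 : ℝ), ∀ y ∈ Set.Ioi (1 : ℝ), x < y →
        |Real.log (ρ x) / x - Real.log (ρ y) / y| ≤ Real.log 8 * |1 / x - 1 / y| := by
      intro x hx y hy hxy
      have hx1 : (1 : ℝ) < x := hx
      have hy1 : (1 : ℝ) < y := hy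
      have a1 := close_mono hK hm x y _ _ hx hxy (hρ x hx) (hρ y hy)
      have a2 := close_anti hK hm x y _ _ hx hxy (hρ x hx) (hρ y hy)
      rw [add_div, add_div] at a2
      have e3 : 1 / y ≤ 1 / x := one_div_le_one_div_of_le (by linarith) hxy.le
      rw [abs_of_nonpos (by linarith), abs_of_nonneg (by linarith)]
      have e4 : Real.log 8 * (1 / x - 1 / y) = Real.log 8 / x - Real.log 8 / y := by ring
      rw [e4]
      linarith
    intro x hx y hy
    rcases lt_trichotomy x y with h | h | h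
    · exact H x hx y hy h
    · rw [h]; simp
    · rw [abs_sub_comm, abs_sub_comm (1 / x)]
      exact H y hy x hx h
  have hcont : ContinuousOn (fun s => Real.log (ρ s) / s) (Set.Ioi 1) := by
    intro x hx
    have hx1 : (1 : ℝ) < x := hx
    rw [ContinuousWithinAt, tendsto_iff_dist_tendsto_zero]
    have hlim : Tendsto (fun y : ℝ => Real.log 8 * |1 / y - 1 / x|) (𝓝[Set.Ioi 1] x) (𝓝 0) := by
      have : Tendsto (fun y : ℝ => Real.log 8 * |1 / y - 1 / x|) (𝓝 x) (𝓝 (Real.log 8 * |1 / x - 1 / x|)) := by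
        apply Tendsto.const_mul
        apply Tendsto.abs
        apply Tendsto.sub_const
        exact Tendsto.div tendsto_const_nhds tendsto_id (by positivity)
      rw [sub_self, abs_zero, mul_zero] at this
      exact this.mono_left nhdsWithin_le_nhds
    refine squeeze_zero' (Eventually.of_forall fun y => dist_nonneg) ?_ hlim
    filter_upwards [self_mem_nhdsWithin] with y hy
    rw [Real.dist_eq]
    exact hb y hy x hx
  have := hcont.mul continuousOn_id
  refine this.congr fun x hx => ?_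
  have hx1 : (1 : ℝ) < x := hx
  show Real.log (ρ x) = Real.log (ρ x) / x * x
  field_simp

/-- midpoints where log ρ fails to be concave -/
theorem close_eps {K : Set (ℝ × ℝ)} {m : Measure (ℝ × ℝ)} (hK : IsCarpet K) (hm : IsCarpetMeasure K m)
    (ρ : ℝ → ℝ) (hρ : ∀ s, 1 < s → IsRho K m s (ρ s)) (ε : ℝ) (hε : 0 < ε) :
    ∃ p q : ℝ, 26 / 25 ≤ p ∧ p < q ∧ q ≤ 2 ∧ q < p + ε ∧
      2 * Real.log (ρ ((p + q) / 2)) < Real.log (ρ p) + Real.log (ρ q) := by
  by_contra hcon
  obtain ⟨N, hN⟩ := exists_nat_gt (2 / (75 * ε))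
  have hN0 : (0 : ℝ) < N := lt_of_le_of_lt (by positivity) hN
  set δ : ℝ := 1 / (75 * N) with hδ
  have hδ0 : 0 < δ := by positivity
  have hδε : 2 * δ < ε := by
    rw [div_lt_iff₀ (by positivity)] at hN
    rw [hδ, mul_one_div, div_lt_iff₀ (by positivity)]
    linarith
  have hNδ : N * δ = 1 / 75 := by
    rw [hδ]; field_simp
  set L : ℕ → ℝ := fun i => Real.log (ρ (26 / 25 + i * δ)) with hL
  have hconc : ∀ i, i + 2 ≤ 72 * N → L i + L (i + 2) ≤ 2 * L (i + 1) := by
    intro i hi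
    by_contra hno
    apply hcon
    have hi' : ((i : ℝ) + 2) ≤ 72 * N := by exact_mod_cast hi
    have hiδ : ((i : ℝ) + 2) * δ ≤ 24 / 25 := by
      calc ((i : ℝ) + 2) * δ ≤ (72 * N) * δ := by gcongr
        _ = 24 / 25 := by rw [mul_assoc, hNδ]; norm_num
    have hi0 : 0 ≤ (i : ℝ) * δ := by positivity
    refine ⟨26 / 25 + i * δ, 26 / 25 + ((i + 2 : ℕ) : ℝ) * δ, by linarith, ?_, ?_, ?_, ?_⟩
    · push_cast; nlinarith
    · push_cast; linarith
    · push_cast; linarith
    rw [not_le] at hno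
    have e : (26 / 25 + (i : ℝ) * δ + (26 / 25 + ((i + 2 : ℕ) : ℝ) * δ)) / 2 = 26 / 25 + ((i + 1 : ℕ) : ℝ) * δ := by
      push_cast; ring
    rw [e]
    exact hno
  have key := close_conc L (72 * N) hconc (22 * N) (by omega)
  have e0 : L 0 = Real.log (ρ (26 / 25)) := by simp [hL]
  have e1 : L (22 * N) = Real.log (ρ (4 / 3)) := by
    simp only [hL]
    congr 2
    push_cast
    rw [mul_assoc, hNδ]; norm_num
  have e2 : L (72 * N) = Real.log (ρ 2) := by
    simp only [hL]
    congr 2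
    push_cast
    rw [mul_assoc, hNδ]; norm_num
  rw [e0, e1, e2] at key
  push_cast at key
  have key' : 50 * Real.log (ρ (26 / 25)) + 22 * Real.log (ρ 2) ≤ 72 * Real.log (ρ (4 / 3)) := by
    have h : (N : ℝ) * (50 * Real.log (ρ (26 / 25)) + 22 * Real.log (ρ 2)) ≤ N * (72 * Real.log (ρ (4 / 3))) := by
      linarith
    exact le_of_mul_le_mul_left h hN0
  have r1 := region1 (26 / 25) 2 (by norm_num) le_rfl le_rfl
  have s1 := slab_le hK hm (26 / 25) _ (by norm_num) (hρ (26 / 25) (by norm_num))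
  have s2 := slab_le hK hm 2 _ (by norm_num) (hρ 2 (by norm_num))
  have l1 := Real.log_le_log (slab_pos _) s1
  have l2 := Real.log_le_log (slab_pos _) s2
  have r2 := Real.log_lt_log (by positivity) r1
  rw [Real.log_mul (Real.rpow_pos_of_pos (slab_pos _) _).ne' (Real.rpow_pos_of_pos (slab_pos _) _).ne',
    Real.log_rpow (by norm_num), Real.log_rpow (slab_pos _), Real.log_rpow (slab_pos _)] at r2
  have u := close_rho_le hK hm _ (hρ (4 / 3) (by norm_num))
  have u0 := (hρ (4 / 3) (by norm_num)).pos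
  have u1 := Real.log_le_log (by positivity) u
  rw [Real.log_pow] at u1
  push_cast at u1
  linarith

/-- an accumulation point of pairs with trivial intersection, with open sets of pairs -/
theorem close {K : Set (ℝ × ℝ)} {m : Measure (ℝ × ℝ)} (hK : IsCarpet K) (hm : IsCarpetMeasure K m)
    (ρ : ℝ → ℝ) (hρ : ∀ s, 1 < s → IsRho K m s (ρ s)) :
    ∃ s₀ : ℝ, 26 / 25 ≤ s₀ ∧ s₀ ≤ 2 ∧ ∀ ε : ℝ, 0 < ε → ∃ V : Set (ℝ × ℝ), IsOpen V ∧ V.Nonempty ∧
      ∀ p q : ℝ, (p, q) ∈ V → 1 < p ∧ s₀ - ε < p ∧ p < q ∧ q < s₀ + ε ∧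
      ∀ f : ℝ × ℝ → ℝ, Mem K m p (ρ p) f → Mem K m q (ρ q) f → ∃ c : ℝ, f =ᵐ[m] fun _ => c := by
  have H : ∀ n : ℕ, ∃ p q : ℝ, 26 / 25 ≤ p ∧ p < q ∧ q ≤ 2 ∧ q < p + 1 / ((n : ℝ) + 1) ∧
      2 * Real.log (ρ ((p + q) / 2)) < Real.log (ρ p) + Real.log (ρ q) :=
    fun n => close_eps hK hm ρ hρ _ (by positivity)
  choose P Q h1 h2 h3 h4 h5 using H
  have hmem : ∀ n, P n ∈ Set.Icc (26 / 25 : ℝ) 2 := fun n => ⟨h1 n, by linarith [h2 n, h3 n]⟩
  obtain ⟨s, hs, φ, hφ, hlim⟩ := isCompact_Icc.tendsto_subseq hmem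
  refine ⟨s, hs.1, hs.2, fun ε hε => ?_⟩
  have ev1 : ∀ᶠ n in atTop, |P (φ n) - s| < ε / 2 := by
    have := (Metric.tendsto_nhds.1 hlim) (ε / 2) (by positivity)
    simpa [Real.dist_eq] using this
  have ev2 : ∀ᶠ n : ℕ in atTop, 1 / ((φ n : ℝ) + 1) < ε / 2 := by
    have := (tendsto_one_div_add_atTop_nhds_zero_nat (𝕜 := ℝ)).comp hφ.tendsto_atTop
    have := (tendsto_order.1 this).2 (ε / 2) (by positivity)
    simpa using this
  obtain ⟨n, hn1, hn2⟩ := (ev1.and ev2).exists
  rw [abs_lt] at hn1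
  have hn4 := h4 (φ n)
  have hL := close_cont hK hm ρ hρ
  set G : ℝ × ℝ → ℝ := fun x => Real.log (ρ x.1) + Real.log (ρ x.2) - 2 * Real.log (ρ ((x.1 + x.2) / 2)) with hG
  set O : Set (ℝ × ℝ) := {x | 1 < x.1 ∧ 1 < x.2} with hO
  have hOopen : IsOpen O := by
    have : O = (Set.Ioi (1 : ℝ)) ×ˢ (Set.Ioi (1 : ℝ)) := by ext x; simp [hO]
    rw [this]
    exact isOpen_Ioi.prod isOpen_Ioi
  have hGc : ContinuousOn G O := by
    apply ContinuousOn.sub
    · apply ContinuousOn.add
      · exact hL.comp continuousOn_fst fun x hx => hx.1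
      · exact hL.comp continuousOn_snd fun x hx => hx.2
    · apply ContinuousOn.mul continuousOn_const
      refine hL.comp (f := fun x : ℝ × ℝ => (x.1 + x.2) / 2) (by fun_prop) fun x hx => ?_
      have h1 := hx.1
      have h2 := hx.2
      show 1 < (x.1 + x.2) / 2
      linarith
  have hV1 : IsOpen (O ∩ G ⁻¹' (Set.Ioi 0)) := hGc.isOpen_inter_preimage hOopen isOpen_Ioi
  have hV2 : IsOpen {x : ℝ × ℝ | s - ε < x.1 ∧ x.1 < x.2 ∧ x.2 < s + ε} := by
    apply IsOpen.inter (isOpen_lt continuous_const continuous_fst)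
    exact IsOpen.inter (isOpen_lt continuous_fst continuous_snd) (isOpen_lt continuous_snd continuous_const)
  refine ⟨(O ∩ G ⁻¹' (Set.Ioi 0)) ∩ {x : ℝ × ℝ | s - ε < x.1 ∧ x.1 < x.2 ∧ x.2 < s + ε}, hV1.inter hV2,
    ⟨(P (φ n), Q (φ n)), ⟨⟨?_, ?_⟩, ?_, h2 _, ?_⟩⟩, ?_⟩
  · refine ⟨?_, ?_⟩
    · show 1 < P (φ n)
      linarith [h1 (φ n)]
    · show 1 < Q (φ n)
      linarith [h1 (φ n), h2 (φ n)]
  · show 0 < G (P (φ n), Q (φ n))
    simp only [hG]
    linarith [h5 (φ n)]
  · show s - ε < P (φ n)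
    linarith [hn1.1]
  · show Q (φ n) < s + ε
    linarith [hn1.2]
  · rintro p q ⟨⟨⟨hp, -⟩, hg⟩, hp2, hpq, hq⟩
    refine ⟨hp, hp2, hpq, hq, fun f hf1 hf2 => ?_⟩
    by_contra hf
    have hp' : (1 : ℝ) < p := hp
    have hpq' : p < q := hpq
    have := close_mid hm p q ((p + q) / 2) (1 / 2) (ρ p) (ρ q) (ρ ((p + q) / 2)) hp' hpq' (by norm_num)
      (by norm_num) (by ring) (hρ p hp').pos (hρ q (by linarith)).pos (hρ _ (by linarith)) f hf1 hf2 hf
    have hg' : 0 < Real.log (ρ p) + Real.log (ρ q) - 2 * Real.log (ρ ((p + q) / 2)) := hg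
    linarith

end Pool.Agent.SCI
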